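import Pool.Agent.V11180.BG.CS
import Pool.Agent.H602R3.DHJ.Main

/-! Positivity of the mean over a subgroup, from density Hales-Jewett. -/

set_option autoImplicit false
open Filter Topology Finset

namespace Pool.Agent.V11180.BG

open Pool.Agent.H602R3.DHJ

universe u v

section
variable {G : Type u} [AddCommGroup G]

/-- the greedy choice -/
theorem greedy {S : Type v} [AddCommGroup S] {L : (S → ℂ) →ₗ[ℂ] ℂ} (hL : IsMn L) (hLI : Inv L)
    (C : S → ℝ) (hC0 : ∀ s, 0 ≤ C s) (hC1 : ∀ s, C s ≤ 1) (c0 : ℝ) (N : ℕ)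
    (h : 2 ^ N * (L (fun s => (C s : ℂ))).re < c0) (n : ℕ) (hn : n ≤ N) :
    ∃ t : ℕ → S, ∀ I ⊆ range n, I.Nonempty → C (∑ i ∈ I, t i) < c0 := by
  classical
  induction n with
  | zero =>
    refine ⟨fun _ => 0, fun I hI hne => ?_⟩
    rw [range_zero, subset_empty] at hI
    rw [hI] at hne
    exact absurd hne Finset.not_nonempty_empty
  | succ n ih =>
    obtain ⟨t, ht⟩ := ih (by omega)
    have hCb : ∀ s, |C s| ≤ 1 := fun s => by rw [abs_of_nonneg (hC0 s)]; exact hC1 s
    have hb : ∀ s, |∑ I ∈ (range n).powerset, C (s + ∑ i ∈ I, t i)| ≤ 2 ^ n := by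
      intro s
      refine (abs_sum_le_sum_abs _ _).trans ?_
      refine (sum_le_sum fun I _ => hCb _).trans ?_
      rw [sum_const, card_powerset, card_range, nsmul_eq_mul, mul_one]
      push_cast
      exact le_rfl
    have hLC0 : 0 ≤ (L (fun s => (C s : ℂ))).re := hL.ge_const 1 0 hCb hC0
    have e1 : (L (fun s => ((∑ I ∈ (range n).powerset, C (s + ∑ i ∈ I, t i) : ℝ) : ℂ))).re =
        2 ^ n * (L (fun s => (C s : ℂ))).re := by
      have e2 : ∀ s, ((∑ I ∈ (range n).powerset, C (s + ∑ i ∈ I, t i) : ℝ) : ℂ) =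
          ∑ I ∈ (range n).powerset, (C (s + ∑ i ∈ I, t i) : ℂ) := fun s => by push_cast; rfl
      rw [M_congr L e2, M_sum]
      have e3 : ∀ I ∈ (range n).powerset, L (fun s => (C (s + ∑ i ∈ I, t i) : ℂ)) =
          L (fun s => (C s : ℂ)) := fun I _ =>
        hLI (fun s => (C s : ℂ)) ⟨1, fun s => by
          rw [Complex.norm_real]; exact hCb s⟩ _
      rw [sum_congr rfl e3, sum_const, card_powerset, card_range, nsmul_eq_mul]
      have e4 : (((2 ^ n : ℕ) : ℂ)) = ((2 ^ n : ℝ) : ℂ) := by push_cast; rfl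
      rw [e4, Complex.re_ofReal_mul]
    have hlt : 2 ^ n * (L (fun s => (C s : ℂ))).re < c0 := by
      refine lt_of_le_of_lt (mul_le_mul_of_nonneg_right ?_ hLC0) h
      exact pow_le_pow_right₀ (by norm_num) (by omega)
    obtain ⟨s, hs⟩ := hL.exists_le (fun s => ∑ I ∈ (range n).powerset, C (s + ∑ i ∈ I, t i)) _ hb
      ((c0 - 2 ^ n * (L (fun s => (C s : ℂ))).re) / 2) (by linarith)
    rw [e1] at hs
    have hs2 : ∀ I ⊆ range n, C (s + ∑ i ∈ I, t i) < c0 := by
      intro I hI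
      have h1 := single_le_sum (f := fun I => C (s + ∑ i ∈ I, t i)) (fun I _ => hC0 _)
        (mem_powerset.2 hI)
      have h1' : C (s + ∑ i ∈ I, t i) ≤ ∑ I ∈ (range n).powerset, C (s + ∑ i ∈ I, t i) := h1
      linarith
    refine ⟨Function.update t n s, fun I hI hne => ?_⟩
    have hup : ∀ J ⊆ range n, ∑ i ∈ J, Function.update t n s i = ∑ i ∈ J, t i := by
      intro J hJ
      refine sum_congr rfl fun i hi => ?_
      rw [Function.update_of_ne]
      exact (Finset.mem_range.1 (hJ hi)).ne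
    by_cases hnI : n ∈ I
    · have h2 : I.erase n ⊆ range n := by
        intro i hi
        have h3 := hI (mem_of_mem_erase hi)
        rw [Finset.mem_range] at h3 ⊢
        have := ne_of_mem_erase hi
        omega
      rw [← add_sum_erase I _ hnI, Function.update_self, hup _ h2]
      exact hs2 _ h2
    · have h2 : I ⊆ range n := by
        intro i hi
        have h3 := hI hi
        rw [Finset.mem_range] at h3 ⊢
        have : i ≠ n := fun h => hnI (h ▸ hi)
        omega
      rw [hup _ h2]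
      exact ht I h2 hne

/-- positivity -/
theorem positivity_mean (k : ℕ) (δ : ℝ) (hδ : 0 < δ) : ∃ c : ℝ, 0 < c ∧
    ∀ (G : Type u) [AddCommGroup G] (S : AddSubgroup (Fin (k + 1) → G))
      (L : (S → ℂ) →ₗ[ℂ] ℂ) (M : (G → ℂ) →ₗ[ℂ] ℂ), IsMn L → Inv L → IsMn M → Inv M →
      ∀ f : G → ℝ, (∀ x, f x = 0 ∨ f x = 1) → δ ≤ (M (fun x => (f x : ℂ))).re →
        c ≤ (L (fun t => (((M (fun x => ((∏ j, f (x + t.1 j) : ℝ) : ℂ))).re : ℝ) : ℂ))).re := by
  classical
  obtain ⟨N, hN⟩ := dhj k (δ / 2) (by linarith)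
  obtain ⟨R, hR⟩ : ∃ R : ℝ, R = ((Fintype.card (Fin N → Fin (k + 1) ⊕ Unit) : ℕ) : ℝ) := ⟨_, rfl⟩
  have hRpos : 0 < R := by
    rw [hR]
    exact_mod_cast Fintype.card_pos
  obtain ⟨c0, hc0⟩ : ∃ c0, c0 = δ / 2 / R := ⟨_, rfl⟩
  have hc0pos : 0 < c0 := by rw [hc0]; positivity
  refine ⟨c0 / 2 ^ N, by positivity, ?_⟩
  intro G _ S L M hL hLI hM hMI f hf hfM
  by_contra hcon
  push Not at hcon
  have hf0 : ∀ x, 0 ≤ f x := fun x => by rcases hf x with h | h <;> rw [h] <;> norm_num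
  have hf1 : ∀ x, f x ≤ 1 := fun x => by rcases hf x with h | h <;> rw [h] <;> norm_num
  have hfb : ∀ x, |f x| ≤ 1 := fun x => by rw [abs_of_nonneg (hf0 x)]; exact hf1 x
  have hP0 : ∀ g : Fin (k + 1) → G, 0 ≤ ∏ j, f (g j) := fun g => prod_nonneg fun j _ => hf0 _
  have hP1 : ∀ g : Fin (k + 1) → G, ∏ j, f (g j) ≤ 1 := fun g =>
    prod_le_one (fun j _ => hf0 _) fun j _ => hf1 _
  have hPb : ∀ g : Fin (k + 1) → G, |∏ j, f (g j)| ≤ 1 := fun g => by
    rw [abs_of_nonneg (hP0 g)]; exact hP1 g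
  obtain ⟨C, hC⟩ : ∃ C : (Fin (k + 1) → G) → ℝ,
      ∀ t, C t = (M (fun x => ((∏ j, f (x + t j) : ℝ) : ℂ))).re := ⟨_, fun _ => rfl⟩
  have hC0 : ∀ t, 0 ≤ C t := fun t => by
    rw [hC]; exact hM.ge_const 1 0 (fun x => hPb _) fun x => hP0 _
  have hC1 : ∀ t, C t ≤ 1 := fun t => by
    rw [hC]; exact hM.le_const 1 1 (fun x => hPb _) fun x => hP1 _
  have hcon' : 2 ^ N * (L (fun s : S => (C s.1 : ℂ))).re < c0 := by
    have h1 : (L (fun s : S => (C s.1 : ℂ))).re < c0 / 2 ^ N := by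
      refine lt_of_le_of_lt (le_of_eq ?_) hcon
      congr 1
      exact M_congr L fun t => by rw [hC]
    rwa [lt_div_iff₀ (by positivity), mul_comm] at h1
  obtain ⟨t, ht⟩ := greedy hL hLI (fun s : S => C s.1) (fun s => hC0 _) (fun s => hC1 _) c0 N hcon'
    N le_rfl
  -- the points
  obtain ⟨pt, hpt⟩ : ∃ pt : (Fin N → Fin (k + 1)) → G,
      ∀ w, pt w = ∑ i : Fin N, (t (i : ℕ)).1 (w i) :=
    ⟨_, fun _ => rfl⟩
  -- the pointwise inequality
  have hpw : ∀ x, (∑ w : Fin N → Fin (k + 1), f (x + pt w)) /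
      Fintype.card (Fin N → Fin (k + 1)) ≤ δ / 2 +
      ∑ V ∈ univ.filter (fun V : Fin N → Fin (k + 1) ⊕ Unit => Pr V),
        ∏ j, f (x + pt (ap V (fun _ => j))) := by
    intro x
    have hsum0 : 0 ≤ ∑ V ∈ univ.filter (fun V : Fin N → Fin (k + 1) ⊕ Unit => Pr V),
        ∏ j, f (x + pt (ap V (fun _ => j))) := sum_nonneg fun V _ => hP0 _
    have hdn : (∑ w : Fin N → Fin (k + 1), f (x + pt w)) / Fintype.card (Fin N → Fin (k + 1)) =
        dn {w : Fin N → Fin (k + 1) | f (x + pt w) = 1} := by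
      unfold dn av
      congr 1
      refine sum_congr rfl fun w _ => ?_
      rcases hf (x + pt w) with h | h
      · rw [Set.indicator_of_notMem, h]
        intro hw
        have hw' : f (x + pt w) = 1 := hw
        rw [h] at hw'
        norm_num at hw'
      · rw [Set.indicator_of_mem (show w ∈ {w | f (x + pt w) = 1} from h), h]
    by_cases hline : ∃ V : Fin N → Fin (k + 1) ⊕ Unit, Pr V ∧ ∀ a, f (x + pt (ap V (fun _ => a))) = 1
    · obtain ⟨V, hV, hVa⟩ := hline
      have h1 := single_le_sum (f := fun V : Fin N → Fin (k + 1) ⊕ Unit =>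
        ∏ j, f (x + pt (ap V (fun _ => j)))) (fun V _ => hP0 _)
        (mem_filter.2 ⟨mem_univ V, hV⟩ : V ∈ univ.filter (fun V : Fin N → Fin (k + 1) ⊕ Unit => Pr V))
      have h2 : ∏ j, f (x + pt (ap V (fun _ => j))) = 1 := prod_eq_one fun j _ => hVa j
      have h1' : ∏ j, f (x + pt (ap V (fun _ => j))) ≤ _ := h1
      rw [h2] at h1'
      have h3 : (∑ w : Fin N → Fin (k + 1), f (x + pt w)) /
          Fintype.card (Fin N → Fin (k + 1)) ≤ 1 := by
        rw [div_le_one (by exact_mod_cast Fintype.card_pos)]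
        refine (sum_le_sum fun w _ => hf1 _).trans ?_
        rw [sum_const, card_univ, nsmul_eq_mul, mul_one]
      linarith
    · have h1 : dn {w : Fin N → Fin (k + 1) | f (x + pt w) = 1} < δ / 2 := by
        apply hN
        intro V hV
        by_contra hc
        push Not at hc
        exact hline ⟨V, hV, fun a => hc a⟩
      rw [hdn]
      linarith
  -- average over x
  have hcardpos : (0 : ℝ) < Fintype.card (Fin N → Fin (k + 1)) := by exact_mod_cast Fintype.card_pos
  have h1 : (M (fun x => (((∑ w : Fin N → Fin (k + 1), f (x + pt w)) /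
      Fintype.card (Fin N → Fin (k + 1)) : ℝ) : ℂ))).re = (M (fun x => (f x : ℂ))).re := by
    have e1 : ∀ x, (((∑ w : Fin N → Fin (k + 1), f (x + pt w)) /
        Fintype.card (Fin N → Fin (k + 1)) : ℝ) : ℂ) =
        (((Fintype.card (Fin N → Fin (k + 1)) : ℝ)⁻¹ : ℝ) : ℂ) *
          ∑ w : Fin N → Fin (k + 1), (f (x + pt w) : ℂ) := by
      intro x
      push_cast
      rw [div_eq_inv_mul]
    rw [M_congr M e1, M_cmul, M_sum]
    have e2 : ∀ w ∈ (univ : Finset (Fin N → Fin (k + 1))), M (fun x => (f (x + pt w) : ℂ)) =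
        M (fun x => (f x : ℂ)) := fun w _ => hMI (fun x => (f x : ℂ)) ⟨1, fun x => by
          rw [Complex.norm_real]; exact hfb x⟩ _
    rw [sum_congr rfl e2, sum_const, card_univ, nsmul_eq_mul, ← mul_assoc]
    have e3 : (((Fintype.card (Fin N → Fin (k + 1)) : ℝ)⁻¹ : ℝ) : ℂ) *
        (Fintype.card (Fin N → Fin (k + 1)) : ℂ) = 1 := by
      have : (Fintype.card (Fin N → Fin (k + 1)) : ℂ) ≠ 0 := by exact_mod_cast Fintype.card_ne_zero
      rw [Complex.ofReal_inv, Complex.ofReal_natCast]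
      exact inv_mul_cancel₀ this
    rw [e3, one_mul]
  have h2 := hM.mono (f := fun x => (∑ w : Fin N → Fin (k + 1), f (x + pt w)) /
      Fintype.card (Fin N → Fin (k + 1))) (g := fun x => δ / 2 +
      ∑ V ∈ univ.filter (fun V : Fin N → Fin (k + 1) ⊕ Unit => Pr V),
        ∏ j, f (x + pt (ap V (fun _ => j)))) (max 1 (δ / 2 + R)) (fun x => by
        refine le_trans ?_ (le_max_left _ _)
        rw [abs_of_nonneg (div_nonneg (sum_nonneg fun w _ => hf0 _) hcardpos.le),
          div_le_one hcardpos]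
        refine (sum_le_sum fun w _ => hf1 _).trans ?_
        rw [sum_const, card_univ, nsmul_eq_mul, mul_one]) (fun x => by
        refine le_trans ?_ (le_max_right _ _)
        rw [abs_of_nonneg (add_nonneg (by linarith) (sum_nonneg fun V _ => hP0 _))]
        refine add_le_add le_rfl ?_
        refine (sum_le_sum fun V _ => hP1 _).trans ?_
        rw [sum_const, nsmul_eq_mul, mul_one, hR]
        exact_mod_cast card_filter_le _ _) hpw
  rw [h1] at h2
  have h3 : (M (fun x => ((δ / 2 + ∑ V ∈ univ.filter (fun V : Fin N → Fin (k + 1) ⊕ Unit => Pr V),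
        ∏ j, f (x + pt (ap V (fun _ => j))) : ℝ) : ℂ))).re =
      δ / 2 + ∑ V ∈ univ.filter (fun V : Fin N → Fin (k + 1) ⊕ Unit => Pr V),
        (M (fun x => ((∏ j, f (x + pt (ap V (fun _ => j))) : ℝ) : ℂ))).re := by
    have e1 : ∀ x, ((δ / 2 + ∑ V ∈ univ.filter (fun V : Fin N → Fin (k + 1) ⊕ Unit => Pr V),
        ∏ j, f (x + pt (ap V (fun _ => j))) : ℝ) : ℂ) = ((δ / 2 : ℝ) : ℂ) +
        ∑ V ∈ univ.filter (fun V : Fin N → Fin (k + 1) ⊕ Unit => Pr V),
          ((∏ j, f (x + pt (ap V (fun _ => j))) : ℝ) : ℂ) := by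
      intro x
      push_cast
      rfl
    rw [M_congr M e1, M_add, hM.const, M_sum, Complex.add_re, Complex.ofReal_re, Complex.re_sum]
  rw [h3] at h2
  -- each term is small
  have h4 : ∀ V ∈ univ.filter (fun V : Fin N → Fin (k + 1) ⊕ Unit => Pr V),
      (M (fun x => ((∏ j, f (x + pt (ap V (fun _ => j))) : ℝ) : ℂ))).re < c0 := by
    intro V hV
    have hV' : Pr V := (mem_filter.1 hV).2
    set W : Finset (Fin N) := univ.filter (fun i => V i = Sum.inr ()) with hW
    set y : G := ∑ i ∈ univ.filter (fun i => ¬ V i = Sum.inr ()), (t i).1 (ap V (fun _ => 0) i) with hy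
    have e1 : ∀ j, pt (ap V (fun _ => j)) = y + (∑ i ∈ W, t i : S).1 j := by
      intro j
      rw [hpt, ← sum_filter_add_sum_filter_not univ (fun i => V i = Sum.inr ()), add_comm]
      congr 1
      · refine sum_congr rfl fun i hi => ?_
        have h := (mem_filter.1 hi).2
        congr 1
        unfold ap
        rcases hV : V i with b | u
        · rfl
        · exact absurd (by rw [hV]) h
      · rw [AddSubgroup.val_finsetSum, Finset.sum_apply]
        refine sum_congr rfl fun i hi => ?_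
        have h := (mem_filter.1 hi).2
        congr 1
        unfold ap
        rw [h]
        rfl
    have e2 : M (fun x => ((∏ j, f (x + pt (ap V (fun _ => j))) : ℝ) : ℂ)) =
        M (fun x => ((∏ j, f (x + (∑ i ∈ W, t i : S).1 j) : ℝ) : ℂ)) := by
      rw [← hMI (fun x => ((∏ j, f (x + (∑ i ∈ W, t i : S).1 j) : ℝ) : ℂ)) ⟨1, fun x => by
        rw [Complex.norm_real]; exact hPb _⟩ y]
      refine M_congr M fun x => ?_
      congr 1
      refine prod_congr rfl fun j _ => ?_
      rw [e1, add_assoc]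
    rw [e2, ← hC]
    have hsum : (∑ i ∈ W, t i : S) = ∑ i ∈ W.map Fin.valEmbedding, t i := by
      rw [sum_map]
      rfl
    rw [hsum]
    refine ht _ ?_ ?_
    · intro i hi
      obtain ⟨j, _, rfl⟩ := mem_map.1 hi
      exact Finset.mem_range.2 j.2
    · obtain ⟨i, hi⟩ := hV' ()
      exact ⟨i, mem_map.2 ⟨i, by simp [hW, hi], rfl⟩⟩
  -- conclusion
  have h5 : ∑ V ∈ univ.filter (fun V : Fin N → Fin (k + 1) ⊕ Unit => Pr V),
      (M (fun x => ((∏ j, f (x + pt (ap V (fun _ => j))) : ℝ) : ℂ))).re ≤ R * c0 := by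
    refine (sum_le_sum fun V hV => (h4 V hV).le).trans ?_
    rw [sum_const, nsmul_eq_mul]
    refine mul_le_mul_of_nonneg_right ?_ hc0pos.le
    rw [hR]
    exact_mod_cast card_filter_le _ _
  have h6 : R * c0 = δ / 2 := by
    rw [hc0]
    field_simp
  -- strictness
  rcases (univ.filter (fun V : Fin N → Fin (k + 1) ⊕ Unit => Pr V)).eq_empty_or_nonempty with h7 | h7
  · rw [h7, sum_empty] at h2
    linarith
  · have h8 : ∑ V ∈ univ.filter (fun V : Fin N → Fin (k + 1) ⊕ Unit => Pr V),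
        (M (fun x => ((∏ j, f (x + pt (ap V (fun _ => j))) : ℝ) : ℂ))).re < R * c0 := by
      refine lt_of_lt_of_le (sum_lt_sum_of_nonempty h7 h4) ?_
      rw [sum_const, nsmul_eq_mul]
      refine mul_le_mul_of_nonneg_right ?_ hc0pos.le
      rw [hR]
      exact_mod_cast card_filter_le _ _
    linarith

end

end Pool.Agent.V11180.BG
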