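import Pool.Agent.V11180.BG.Main
import Pool.Agent.V11180.BG.Pos

/-! The density theorem. -/

set_option autoImplicit false
open Filter Topology Finset

namespace Pool.Agent.V11180.BG

universe u

section
variable {S G : Type u} [AddCommGroup S] [AddCommGroup G]

/-- the real mean of a total functional -/
theorem toReal {M : (S → ℂ) →ₗ[ℂ] ℂ} (hM : IsMn M) (hMI : Inv M) : ∃ m : BR S →ₗ[ℝ] ℝ,
    IsInvMean m ∧ ∀ F : BR S, m F = (M (fun s => (F.1 s : ℂ))).re := by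
  have hb : ∀ F : BR S, Bd (fun s => (F.1 s : ℂ)) := fun F => by
    obtain ⟨C, hC⟩ := F.2
    exact ⟨C, fun x => by rw [Complex.norm_real]; exact hC x⟩
  refine ⟨{ toFun := fun F => (M (fun s => (F.1 s : ℂ))).re
            map_add' := ?_
            map_smul' := ?_ }, ⟨?_, ?_, ?_⟩, fun F => rfl⟩
  · intro F F'
    rw [← Complex.add_re, ← M_add]
    congr 1
    refine M_congr M fun s => ?_
    show ((F.1 s + F'.1 s : ℝ) : ℂ) = _
    push_cast
    rfl
  · intro c F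
    rw [RingHom.id_apply, smul_eq_mul, ← Complex.re_ofReal_mul, ← M_cmul]
    congr 1
    refine M_congr M fun s => ?_
    show ((c * F.1 s : ℝ) : ℂ) = _
    push_cast
    rfl
  · intro F hF
    obtain ⟨C, hC⟩ := F.2
    exact (hM.nn _ C hC hF).1
  · show (M (fun s => ((1 : ℝ) : ℂ))).re = 1
    rw [hM.const]
    simp
  · intro a F
    show (M (fun s => (F.1 (s + a) : ℂ))).re = (M (fun s => (F.1 s : ℂ))).re
    rw [hMI (fun s => (F.1 s : ℂ)) (hb F) a]

/-- push forward along a surjection -/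
theorem push_inv {T : Type u} [AddCommGroup T] {L : (T → ℂ) →ₗ[ℂ] ℂ} (hL : IsMn L) (hLI : Inv L)
    (k : T →+ S) (hk : Function.Surjective k) : Inv (push L k) := by
  intro f hf a
  obtain ⟨t, rfl⟩ := hk a
  exact (HI_push hL hLI k).inv f hf _ ⟨t, rfl⟩

/-- the indicator of a set as a bounded function -/
noncomputable def indB (A : Set G) : BR G := ⟨A.indicator (fun _ => (1 : ℝ)), 1, fun x => by
  by_cases hx : x ∈ A
  · rw [Set.indicator_of_mem hx]; norm_num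
  · rw [Set.indicator_of_notMem hx]; norm_num⟩

/-- upper Banach density -/
noncomputable def dstar (A : Set G) : ℝ :=
  sSup {r : ℝ | ∃ m : BR G →ₗ[ℝ] ℝ, IsInvMean m ∧ r = m (indB A)}

/-- a good mean for a set -/
theorem good_of_dstar (A : Set G) : ∃ M : (G → ℂ) →ₗ[ℂ] ℂ, IsMn M ∧ Inv M ∧
    dstar A ≤ (M (fun x => ((indB A).1 x : ℂ))).re := by
  obtain ⟨M, hM, hMI, -, hmax⟩ := exists_good (indB A)
  refine ⟨M, hM, hMI, ?_⟩
  obtain ⟨m, hm, -, -⟩ := ext (indB A)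
  refine csSup_le ⟨_, m, hm, rfl⟩ ?_
  rintro r ⟨m', hm', rfl⟩
  exact hmax m' hm'

end

/-- the diagonal -/
def dg {ι : Type} [Fintype ι] {G : Type u} [AddCommGroup G] (φ : ι → G →+ G) (h : ∑ j, φ j = 0) :
    G →+ S0 φ where
  toFun x := ⟨fun _ => x, by
    show ∑ j, φ j x = 0
    rw [← AddMonoidHom.finsetSum_apply, h]
    rfl⟩
  map_zero' := rfl
  map_add' _ _ := rfl

theorem density (k : ℕ) (δ : ℝ) (hδ : 0 < δ) (n : ℕ) : ∃ K : ℕ, ∃ η : ℝ, 0 < η ∧
    ∀ (G : Type u) [AddCommGroup G] (φ : Fin (k + 1) → G →+ G), ∑ j, φ j = 0 →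
      ∀ i j l : Fin (k + 1), i ≠ j → i ≠ l → j ≠ l →
      (∀ q, (q = i ∨ q = j ∨ q = l) → (φ q).range.index ≠ 0 ∧ (φ q).range.index ≤ n) →
      ∀ A : Set G, δ ≤ dstar A →
      ∃ X : Finset (AddChar G Circle), X.card ≤ K ∧
        ∀ g : G, (∀ χ ∈ X, ‖((χ g : Circle) : ℂ) - 1‖ < η) →
          ∃ a : Fin (k + 1) → G, (∀ l, a l ∈ A) ∧ ∑ l, φ l (a l) = g := by
  obtain ⟨c, hc, hpos⟩ := positivity_mean.{u} k δ hδ
  obtain ⟨K, η, hη, hmain⟩ := bohr_main.{u} c hc n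
  refine ⟨K, η, hη, ?_⟩
  intro G _ φ hφ i j l hij hil hjl hidx A hA
  obtain ⟨M, hM, hMI, hMA⟩ := good_of_dstar A
  obtain ⟨L, hL, hLI⟩ := exists_inv (S0 φ)
  set f : G → ℝ := A.indicator (fun _ => (1 : ℝ)) with hf
  have hf01 : ∀ x, f x = 0 ∨ f x = 1 := by
    intro x
    by_cases hx : x ∈ A
    · right; rw [hf, Set.indicator_of_mem hx]
    · left; rw [hf, Set.indicator_of_notMem hx]
  have h1 := hpos G (S0 φ) L M hL hLI hM hMI f hf01 (hA.trans hMA)
  set MM := push (pm L M) ((AddMonoidHom.id (S0 φ)).coprod (dg φ hφ)) with hMM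
  have hMM1 : IsMn MM := isMn_push (pm_mn hL hM) _
  have hMM2 : Inv MM := push_inv (pm_mn hL hM) (pm_inv hM hLI hMI) _ fun s => ⟨(s, 0), by simp⟩
  obtain ⟨m, hm, hmF⟩ := toReal hMM1 hMM2
  refine hmain (Fin (k + 1)) G φ i j l hij hil hjl hidx A m hm ?_
  rw [hmF]
  refine h1.trans (le_of_eq ?_)
  rw [hMM, push_apply, pm_apply]
  congr 1
  refine M_congr L fun t => ?_
  have h2 : M (fun x => ((∏ j, f (x + t.1 j) : ℝ) : ℂ)) =
      M (fun x => ((solF φ A).1 (((AddMonoidHom.id (S0 φ)).coprod (dg φ hφ)) (t, x)) : ℂ)) := by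
    refine M_congr M fun x => ?_
    congr 1
    show ∏ j, f (x + t.1 j) = ∏ j, f (t.1 j + x)
    exact prod_congr rfl fun j _ => by rw [add_comm]
  rw [← h2]
  apply Complex.ext
  · rw [Complex.ofReal_re]
  · rw [Complex.ofReal_im]
    refine (hM.im0 (fun x => ∏ j, f (x + t.1 j)) 1 fun x => ?_).symm
    have h0 : ∀ y, 0 ≤ f y := fun y => by rcases hf01 y with h | h <;> rw [h]; norm_num
    have h0' : ∀ y, f y ≤ 1 := fun y => by
      rcases hf01 y with h | h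
      · rw [h]; norm_num
      · rw [h]
    rw [abs_of_nonneg (prod_nonneg fun j _ => h0 _)]
    exact prod_le_one (fun j _ => h0 _) fun j _ => h0' _

end Pool.Agent.V11180.BG
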