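import Pool.Agent.V11180.BG.Part

/-! The partition theorem. -/

set_option autoImplicit false
open Finset

namespace Pool.Agent.V11180.BG

universe u

theorem partition (d : ℕ) (hd : 3 ≤ d) (r : ℕ) (hr : 0 < r) (n : ℕ) : ∃ K : ℕ, ∃ η : ℝ, 0 < η ∧
    ∀ (G : Type u) [AddCommGroup G] (φ : Fin d → G →+ G), (∀ j, Ix n (φ j).range) →
      ∀ S : Finset (Fin d), S.Nonempty → ∑ j ∈ S, φ j = 0 → ∀ χ : G → Fin r,
      ∃ i : Fin r, ∃ X : Finset (AddChar G Circle), X.card ≤ K ∧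
        ∀ g : G, (∀ ψ ∈ X, ‖((ψ g : Circle) : ℂ) - 1‖ < η) →
          ∃ a : Fin d → G, (∀ l, χ (a l) = i) ∧ ∑ l, φ l (a l) = g := by
  classical
  have hc : ∀ S : Finset (Fin d), ∃ c : ℝ, 0 < c ∧ (S.Nonempty →
      ∀ (G : Type u) [AddCommGroup G] (φ : Fin d → G →+ G), ∑ j ∈ S, φ j = 0 →
        (∀ j, Ix n (φ j).range) → ∀ χ : G → Fin r, ∃ (i : Fin r) (m : BR (S0 φ) →ₗ[ℝ] ℝ),
          IsInvMean m ∧ c ≤ m (solF φ {x | χ x = i})) := by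
    intro S
    by_cases hS : S.Nonempty
    · obtain ⟨c, hc, h⟩ := part_pos.{u} (Fin d) (by rw [Fintype.card_fin]; omega) S hS n r hr
      exact ⟨c, hc, fun _ => h⟩
    · exact ⟨1, one_pos, fun h => absurd h hS⟩
  choose c hc0 hc using hc
  obtain ⟨S0', -, hmin⟩ := exists_min_image (univ : Finset (Finset (Fin d))) c univ_nonempty
  obtain ⟨K, η, hη, hmain⟩ := bohr_main.{u} (c S0') (hc0 _) n
  refine ⟨K, η, hη, ?_⟩
  intro G _ φ hn S hS hSφ χ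
  obtain ⟨i, m, hm, hmc⟩ := hc S hS G φ hSφ hn χ
  obtain ⟨X, hX, hX2⟩ := hmain (Fin d) G φ ⟨0, by omega⟩ ⟨1, by omega⟩ ⟨2, by omega⟩ (by simp)
    (by simp) (by simp) (fun l _ => hn l) {x | χ x = i} m hm ((hmin S (mem_univ _)).trans hmc)
  exact ⟨i, X, hX, fun g hg => hX2 g hg⟩

end Pool.Agent.V11180.BG
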