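import Pool.Agent.V11180.BG.Dens

/-! Folner sequences and invariant means. -/

set_option autoImplicit false
open Filter Topology Finset

namespace Pool.Agent.V11180.BG

universe u

/-- Folner sequences of nonempty finite sets -/
def IsFolner {G : Type u} [AddCommGroup G] (F : ℕ → Finset G) : Prop :=
  (∀ N, (F N).Nonempty) ∧ ∀ g : G,
    Tendsto (fun N => ((symmDiff (F N : Set G) ((fun x => g + x) '' (F N : Set G))).ncard : ℝ) /
      (F N).card) atTop (𝓝 0)

/-- upper Banach density by Folner sequences -/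
noncomputable def folnerDensity {G : Type u} [AddCommGroup G] (A : Set G) : ℝ :=
  sSup {s : ℝ | ∃ F : ℕ → Finset G, IsFolner F ∧
    s = limsup (fun N => ((A ∩ (F N : Set G)).ncard : ℝ) / (F N).card) atTop}

section
variable {G : Type u} [AddCommGroup G]

theorem ex_limU (U : Ultrafilter ℕ) (f : ℕ → ℝ) (C : ℝ) (h : ∀ x, |f x| ≤ C) :
    ∃ y, Tendsto f U (𝓝 y) := by
  have hc : IsCompact (Set.Icc (-C) C) := isCompact_Icc
  have h1 : ((U.map f : Ultrafilter ℝ) : Filter ℝ) ≤ 𝓟 (Set.Icc (-C) C) := by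
    rw [Ultrafilter.coe_map, Filter.le_principal_iff, Filter.mem_map]
    exact Filter.univ_mem' fun x => abs_le.1 (h x)
  obtain ⟨y, hy, hy2⟩ := hc.ultrafilter_le_nhds _ h1
  exact ⟨y, hy2⟩

theorem folner_mean {F : ℕ → Finset G} (hF : IsFolner F) (U : Ultrafilter ℕ)
    (hU : (U : Filter ℕ) ≤ atTop) : ∃ m : BR G →ₗ[ℝ] ℝ, IsInvMean m ∧
      ∀ f : BR G, Tendsto (fun N => (∑ x ∈ F N, f.1 x) / (F N).card) U (𝓝 (m f)) := by
  classical
  obtain ⟨hne, hF⟩ := hF
  have hpos : ∀ N, (0 : ℝ) < (F N).card := fun N => by exact_mod_cast (hne N).card_pos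
  have hb : ∀ (f : BR G) (C : ℝ), (∀ x, |f.1 x| ≤ C) → ∀ N, |(∑ x ∈ F N, f.1 x) / (F N).card| ≤ C := by
    intro f C hC N
    rw [abs_div, abs_of_pos (hpos N), div_le_iff₀ (hpos N)]
    refine (abs_sum_le_sum_abs _ _).trans ((sum_le_sum fun x _ => hC x).trans ?_)
    rw [sum_const, nsmul_eq_mul, mul_comm]
  have hlim : ∀ f : BR G, ∃ y, Tendsto (fun N => (∑ x ∈ F N, f.1 x) / (F N).card) U (𝓝 y) :=
    fun f => ex_limU U _ _ (hb f _ f.2.choose_spec)
  choose φ hφ using hlim
  refine ⟨{ toFun := φ, map_add' := ?_, map_smul' := ?_ }, ⟨?_, ?_, ?_⟩, hφ⟩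
  · intro f g
    refine tendsto_nhds_unique (hφ (f + g)) (((hφ f).add (hφ g)).congr fun N => ?_)
    rw [← add_div, ← sum_add_distrib]
    rfl
  · intro c f
    refine tendsto_nhds_unique (hφ (c • f)) (((hφ f).const_mul c).congr fun N => ?_)
    rw [← mul_div_assoc, mul_sum]
    rfl
  · intro f hf
    exact ge_of_tendsto' (hφ f) fun N => div_nonneg (sum_nonneg fun x _ => hf x) (hpos N).le
  · refine tendsto_nhds_unique (hφ oneR) (tendsto_const_nhds.congr fun N => ?_)
    show (1 : ℝ) = (∑ x ∈ F N, (1 : ℝ)) / (F N).card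
    rw [sum_const, nsmul_eq_mul, mul_one, div_self (hpos N).ne']
  · intro a f
    obtain ⟨C, hC⟩ := f.2
    have h1 : Tendsto (fun N => (∑ x ∈ F N, (trR a f).1 x) / (F N).card -
        (∑ x ∈ F N, f.1 x) / (F N).card) U (𝓝 (φ (trR a f) - φ f)) := (hφ _).sub (hφ _)
    have h2 : Tendsto (fun N => (∑ x ∈ F N, (trR a f).1 x) / (F N).card -
        (∑ x ∈ F N, f.1 x) / (F N).card) atTop (𝓝 0) := by
      have h3 := (hF a).const_mul C
      rw [mul_zero] at h3
      refine squeeze_zero_norm (fun N => ?_) h3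
      have e1 : ∑ x ∈ F N, (trR a f).1 x = ∑ y ∈ (F N).image (fun x => a + x), f.1 y := by
        rw [sum_image fun x _ y _ h => add_left_cancel h]
        refine sum_congr rfl fun x _ => ?_
        show f.1 (x + a) = f.1 (a + x)
        rw [add_comm]
      have e2 : (symmDiff (F N : Set G) ((fun x => a + x) '' (F N : Set G))).ncard =
          ((F N).image (fun x => a + x) \ F N).card + (F N \ (F N).image (fun x => a + x)).card := by
        rw [← Finset.coe_image, ← Finset.coe_symmDiff, Set.ncard_coe_finset, symmDiff_def,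
          Finset.sup_eq_union, card_union_of_disjoint disjoint_sdiff_sdiff, add_comm]
      rw [e1, ← sub_div, ← sum_sdiff_sub_sum_sdiff, Real.norm_eq_abs, abs_div, abs_of_pos (hpos N),
        ← mul_div_assoc, e2]
      refine div_le_div_of_nonneg_right ?_ (hpos N).le
      refine (abs_sub _ _).trans ?_
      push_cast
      rw [mul_add]
      refine add_le_add ?_ ?_
      · refine (abs_sum_le_sum_abs _ _).trans ((sum_le_sum fun x _ => hC x).trans ?_)
        rw [sum_const, nsmul_eq_mul, mul_comm]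
      · refine (abs_sum_le_sum_abs _ _).trans ((sum_le_sum fun x _ => hC x).trans ?_)
        rw [sum_const, nsmul_eq_mul, mul_comm]
    have h3 := tendsto_nhds_unique h1 (h2.mono_left hU)
    show φ (trR a f) = φ f
    linarith

theorem ind_le_one (A : Set G) {m : BR G →ₗ[ℝ] ℝ} (hm : IsInvMean m) : m (indB A) ≤ 1 := by
  have h1 : 0 ≤ m (oneR - indB A) := hm.nonneg _ fun x => by
    show 0 ≤ (1 : ℝ) - A.indicator (fun _ => (1 : ℝ)) x
    by_cases hx : x ∈ A
    · rw [Set.indicator_of_mem hx]; norm_num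
    · rw [Set.indicator_of_notMem hx]; norm_num
  rw [map_sub, hm.one] at h1
  linarith

theorem folner_le_dstar {A : Set G} {F : ℕ → Finset G} (hF : IsFolner F) :
    limsup (fun N => ((A ∩ (F N : Set G)).ncard : ℝ) / (F N).card) atTop ≤ dstar A := by
  classical
  have hpos : ∀ N, (0 : ℝ) < (F N).card := fun N => by exact_mod_cast (hF.1 N).card_pos
  have hval : ∀ N, ((A ∩ (F N : Set G)).ncard : ℝ) / (F N).card =
      (∑ x ∈ F N, (indB A).1 x) / (F N).card := by
    intro N
    congr 1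
    have e1 : (A ∩ (F N : Set G)) = ((F N).filter (fun x => x ∈ A) : Finset G) := by
      ext x
      simp [and_comm]
    rw [e1, Set.ncard_coe_finset, card_filter]
    push_cast
    refine sum_congr rfl fun x _ => ?_
    show _ = A.indicator (fun _ => (1 : ℝ)) x
    rw [Set.indicator_apply]
  refine le_of_forall_pos_le_add fun ε hε => ?_
  set s := limsup (fun N => ((A ∩ (F N : Set G)).ncard : ℝ) / (F N).card) atTop with hs
  have hfreq : ∃ᶠ N in atTop, s - ε < ((A ∩ (F N : Set G)).ncard : ℝ) / (F N).card := by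
    apply frequently_lt_of_lt_limsup
    · exact isCoboundedUnder_le_of_le atTop (x := 0) fun N => by positivity
    · rw [← hs]
      linarith
  have hne : (atTop ⊓ 𝓟 {N | s - ε < ((A ∩ (F N : Set G)).ncard : ℝ) / (F N).card}).NeBot := by
    rw [inf_principal_neBot_iff]
    intro V hV
    obtain ⟨N, hN1, hN2⟩ := (hfreq.and_eventually hV).exists
    exact ⟨N, hN2, hN1⟩
  obtain ⟨U, hU⟩ := Ultrafilter.exists_le
    (atTop ⊓ 𝓟 {N | s - ε < ((A ∩ (F N : Set G)).ncard : ℝ) / (F N).card})
  obtain ⟨m, hm, hmF⟩ := folner_mean hF U (hU.trans inf_le_left)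
  have h1 : s - ε ≤ m (indB A) := by
    refine ge_of_tendsto (hmF (indB A)) ?_
    have h2 : {N | s - ε < ((A ∩ (F N : Set G)).ncard : ℝ) / (F N).card} ∈ (U : Filter ℕ) :=
      (hU.trans inf_le_right) (mem_principal_self _)
    filter_upwards [h2] with N hN
    rw [← hval]
    exact le_of_lt hN
  have h2 : m (indB A) ≤ dstar A := by
    refine le_csSup ⟨1, ?_⟩ ⟨m, hm, rfl⟩
    rintro r ⟨m', hm', rfl⟩
    exact ind_le_one A hm'
  linarith

theorem folnerDensity_le {A : Set G} {δ : ℝ} (hδ : 0 < δ) (h : δ ≤ folnerDensity A) : δ ≤ dstar A := by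
  refine h.trans ?_
  unfold folnerDensity at h ⊢
  rcases Set.eq_empty_or_nonempty {s : ℝ | ∃ F : ℕ → Finset G, IsFolner F ∧
    s = limsup (fun N => ((A ∩ (F N : Set G)).ncard : ℝ) / (F N).card) atTop} with h1 | h1
  · rw [h1, Real.sSup_empty] at h
    linarith
  · refine csSup_le h1 ?_
    rintro s ⟨F, hF, rfl⟩
    exact folner_le_dstar hF

end

end Pool.Agent.V11180.BG
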