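import Mathlib

/-! Means on bounded functions: basic facts. -/

set_option autoImplicit false
open Filter Topology Finset
open scoped ComplexConjugate

namespace Pool.Agent.V11180.BG

universe u v

/-- bounded functions -/
def Bd {X : Type u} (f : X → ℂ) : Prop := ∃ C : ℝ, ∀ x, ‖f x‖ ≤ C

section
variable {X : Type u} {Y : Type v} {f g : X → ℂ}

theorem Bd.add (hf : Bd f) (hg : Bd g) : Bd (fun x => f x + g x) := by
  obtain ⟨C, hC⟩ := hf
  obtain ⟨D, hD⟩ := hg
  exact ⟨C + D, fun x => (norm_add_le _ _).trans (add_le_add (hC x) (hD x))⟩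

theorem Bd.cmul (c : ℂ) (hf : Bd f) : Bd (fun x => c * f x) := by
  obtain ⟨C, hC⟩ := hf
  exact ⟨‖c‖ * C, fun x => by rw [norm_mul]; exact mul_le_mul_of_nonneg_left (hC x) (norm_nonneg _)⟩

theorem Bd.neg (hf : Bd f) : Bd (fun x => - f x) := by
  obtain ⟨C, hC⟩ := hf
  exact ⟨C, fun x => by rw [norm_neg]; exact hC x⟩

theorem Bd.sub (hf : Bd f) (hg : Bd g) : Bd (fun x => f x - g x) := by
  simpa [sub_eq_add_neg] using hf.add hg.neg

theorem Bd.mul (hf : Bd f) (hg : Bd g) : Bd (fun x => f x * g x) := by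
  obtain ⟨C, hC⟩ := hf
  obtain ⟨D, hD⟩ := hg
  exact ⟨C * D, fun x => by
    rw [norm_mul]
    exact mul_le_mul (hC x) (hD x) (norm_nonneg _) ((norm_nonneg _).trans (hC x))⟩

theorem Bd.conj (hf : Bd f) : Bd (fun x => conj (f x)) := by
  obtain ⟨C, hC⟩ := hf
  exact ⟨C, fun x => by rw [RCLike.norm_conj]; exact hC x⟩

theorem Bd.comp (hf : Bd f) (k : Y → X) : Bd (fun y => f (k y)) := by
  obtain ⟨C, hC⟩ := hf
  exact ⟨C, fun x => hC _⟩

theorem Bd.const (c : ℂ) : Bd (fun _ : X => c) := ⟨‖c‖, fun _ => le_rfl⟩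

theorem Bd.sum {ι : Type*} (s : Finset ι) {F : ι → X → ℂ} (hF : ∀ i ∈ s, Bd (F i)) :
    Bd (fun x => ∑ i ∈ s, F i x) := by
  classical
  induction s using Finset.induction_on with
  | empty => simpa using Bd.const (X := X) 0
  | insert a s ha ih =>
    simp only [Finset.sum_insert ha]
    exact (hF a (by simp)).add (ih fun i hi => hF i (by simp [hi]))

theorem Bd.nsq (hf : Bd f) : Bd (fun x => ((‖f x‖ ^ 2 : ℝ) : ℂ)) := by
  have h := hf.conj.mul hf
  refine (show (fun x => ((‖f x‖ ^ 2 : ℝ) : ℂ)) = fun x => (starRingEnd ℂ) (f x) * f x from ?_) ▸ h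
  funext x
  rw [RCLike.conj_mul]
  push_cast
  rfl

theorem Bd.of1 (h : ∀ x, ‖f x‖ ≤ 1) : Bd f := ⟨1, h⟩

end

/-- a mean, given by a linear functional on all functions whose values matter on the bounded ones -/
structure IsMn {X : Type u} (M : (X → ℂ) →ₗ[ℂ] ℂ) : Prop where
  nn : ∀ (f : X → ℝ) (C : ℝ), (∀ x, |f x| ≤ C) → (∀ x, 0 ≤ f x) →
    0 ≤ (M (fun x => (f x : ℂ))).re ∧ (M (fun x => (f x : ℂ))).im = 0
  one : M (fun _ => 1) = 1

section lin
variable {X : Type u} (M : (X → ℂ) →ₗ[ℂ] ℂ)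

theorem M_add (f g : X → ℂ) : M (fun x => f x + g x) = M f + M g := map_add M f g
theorem M_sub (f g : X → ℂ) : M (fun x => f x - g x) = M f - M g := map_sub M f g
theorem M_neg (f : X → ℂ) : M (fun x => - f x) = - M f := map_neg M f
theorem M_cmul (c : ℂ) (f : X → ℂ) : M (fun x => c * f x) = c * M f := map_smul M c f
theorem M_mulc (c : ℂ) (f : X → ℂ) : M (fun x => f x * c) = M f * c := by
  rw [mul_comm, ← M_cmul]
  congr 1
  funext x
  ring
theorem M_sum {ι : Type*} (s : Finset ι) (F : ι → X → ℂ) :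
    M (fun x => ∑ i ∈ s, F i x) = ∑ i ∈ s, M (F i) := by
  rw [← map_sum]
  congr 1
  funext x
  rw [Finset.sum_apply]
theorem M_congr {f g : X → ℂ} (h : ∀ x, f x = g x) : M f = M g := by
  rw [show f = g from funext h]

end lin

section mn
variable {X : Type u} {M : (X → ℂ) →ₗ[ℂ] ℂ} (hM : IsMn M)
include hM

theorem IsMn.const (c : ℂ) : M (fun _ => c) = c := by
  have := M_cmul M c (fun _ => 1)
  rw [hM.one] at this
  simpa using this

theorem IsMn.im0 (f : X → ℝ) (C : ℝ) (hf : ∀ x, |f x| ≤ C) :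
    (M (fun x => (f x : ℂ))).im = 0 := by
  have h1 := hM.nn (fun x => f x + C) (C + |C|) (fun x => (abs_add_le _ _).trans (by linarith [hf x]))
    (fun x => by linarith [neg_abs_le (f x), hf x])
  have h2 : M (fun x => ((f x + C : ℝ) : ℂ)) = M (fun x => (f x : ℂ)) + C := by
    rw [← hM.const (C : ℂ), ← M_add]
    exact M_congr M fun x => by push_cast; rfl
  have h3 := h1.2
  rw [h2] at h3
  simpa using h3

theorem IsMn.conj {f : X → ℂ} (hf : Bd f) : M (fun x => conj (f x)) = conj (M f) := by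
  obtain ⟨C, hC⟩ := hf
  have h1 := hM.im0 (fun x => (f x).re) C fun x => (Complex.abs_re_le_norm _).trans (hC x)
  have h2 := hM.im0 (fun x => (f x).im) C fun x => (Complex.abs_im_le_norm _).trans (hC x)
  have e1 : M f = M (fun x => ((f x).re : ℂ)) + Complex.I * M (fun x => ((f x).im : ℂ)) := by
    rw [← M_cmul, ← M_add]
    exact M_congr M fun x => by rw [mul_comm]; exact (Complex.re_add_im _).symm
  have e2 : M (fun x => (starRingEnd ℂ) (f x)) = M (fun x => ((f x).re : ℂ)) - Complex.I * M (fun x => ((f x).im : ℂ)) := by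
    rw [← M_cmul, ← M_sub]
    refine M_congr M fun x => ?_
    apply Complex.ext <;> simp
  rw [e1, e2]
  apply Complex.ext <;> simp [h1, h2]

theorem IsMn.mono {f g : X → ℝ} (C : ℝ) (hf : ∀ x, |f x| ≤ C) (hg : ∀ x, |g x| ≤ C) (h : ∀ x, f x ≤ g x) :
    (M (fun x => (f x : ℂ))).re ≤ (M (fun x => (g x : ℂ))).re := by
  have h1 := (hM.nn (fun x => g x - f x) (C + C) (fun x => (abs_sub _ _).trans (add_le_add (hg x) (hf x)))
    (fun x => sub_nonneg.2 (h x))).1
  have h2 : M (fun x => ((g x - f x : ℝ) : ℂ)) = M (fun x => (g x : ℂ)) - M (fun x => (f x : ℂ)) := by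
    rw [← M_sub]
    exact M_congr M fun x => by push_cast; rfl
  rw [h2, Complex.sub_re] at h1
  linarith

theorem IsMn.le_const {f : X → ℝ} (C c : ℝ) (hf : ∀ x, |f x| ≤ C) (h : ∀ x, f x ≤ c) :
    (M (fun x => (f x : ℂ))).re ≤ c := by
  have h1 := hM.mono (f := f) (g := fun _ => c) (max C |c|) (fun x => (hf x).trans (le_max_left _ _))
    (fun _ => le_max_right _ _) h
  rw [hM.const] at h1
  simpa using h1

theorem IsMn.ge_const {f : X → ℝ} (C c : ℝ) (hf : ∀ x, |f x| ≤ C) (h : ∀ x, c ≤ f x) :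
    c ≤ (M (fun x => (f x : ℂ))).re := by
  have h1 := hM.mono (g := f) (f := fun _ => c) (max C |c|) (fun _ => le_max_right _ _)
    (fun x => (hf x).trans (le_max_left _ _)) h
  rw [hM.const] at h1
  simpa using h1

theorem IsMn.re_eq {f : X → ℂ} (hf : Bd f) : (M f).re = (M (fun x => (((f x).re : ℝ) : ℂ))).re := by
  have h1 := hM.conj hf
  have h2 : M (fun x => (((f x).re : ℝ) : ℂ)) = (1 / 2) * (M f + (starRingEnd ℂ) (M f)) := by
    rw [← h1, ← M_add, ← M_cmul]
    refine M_congr M fun x => ?_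
    apply Complex.ext <;> simp <;> ring
  rw [h2]
  simp
  ring

theorem IsMn.norm_le {f : X → ℂ} (C : ℝ) (hf : ∀ x, ‖f x‖ ≤ C) : ‖M f‖ ≤ C := by
  by_cases h0 : M f = 0
  · rw [h0, norm_zero]
    by_contra hC
    push Not at hC
    have hX : IsEmpty X := ⟨fun x => absurd ((norm_nonneg _).trans (hf x)) (not_le.2 hC)⟩
    have h1 := hM.one
    have h2 : (fun _ : X => (1 : ℂ)) = fun x => (0 : ℂ) * 0 := by
      funext x
      exact hX.elim x
    rw [h2, M_cmul, zero_mul] at h1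
    exact zero_ne_one h1
  · obtain ⟨w, hw⟩ : ∃ w : ℂ, w = conj (M f) / ‖M f‖ := ⟨_, rfl⟩
    have hn : (‖M f‖ : ℂ) ≠ 0 := by simpa using h0
    have hw1 : ‖w‖ = 1 := by
      rw [hw, norm_div, RCLike.norm_conj, Complex.norm_real, norm_norm, div_self]
      simpa using h0
    have h1 : M (fun x => w * f x) = ‖M f‖ := by
      rw [M_cmul, hw, div_mul_eq_mul_div, RCLike.conj_mul]
      field_simp
      norm_cast
    have h2 : ‖M f‖ = (M (fun x => w * f x)).re := by rw [h1]; simp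
    have hb : Bd (fun x => w * f x) := ⟨C, fun x => by rw [norm_mul, hw1, one_mul]; exact hf x⟩
    rw [h2, hM.re_eq hb]
    refine hM.le_const C C (fun x => ?_) fun x => ?_
    · exact (Complex.abs_re_le_norm _).trans (by rw [norm_mul, hw1, one_mul]; exact hf x)
    · exact (Complex.re_le_norm _).trans (by rw [norm_mul, hw1, one_mul]; exact hf x)

theorem IsMn.bd2 {Y : Type v} {F : Y → X → ℂ} (C : ℝ) (hF : ∀ y x, ‖F y x‖ ≤ C) :
    Bd (fun y => M (F y)) := ⟨C, fun y => hM.norm_le C (hF y)⟩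

end mn

/-- translation invariance -/
def Inv {G : Type u} [AddCommGroup G] (M : (G → ℂ) →ₗ[ℂ] ℂ) : Prop :=
  ∀ (f : G → ℂ), Bd f → ∀ a, M (fun x => f (x + a)) = M f

/-- the push forward of a mean -/
noncomputable def push {X : Type u} {Y : Type v} (M : (X → ℂ) →ₗ[ℂ] ℂ) (k : X → Y) :
    (Y → ℂ) →ₗ[ℂ] ℂ where
  toFun f := M (fun x => f (k x))
  map_add' f g := M_add M _ _
  map_smul' c f := M_cmul M c _

theorem push_apply {X : Type u} {Y : Type v} (M : (X → ℂ) →ₗ[ℂ] ℂ) (k : X → Y) (f : Y → ℂ) :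
    push M k f = M (fun x => f (k x)) := rfl

theorem isMn_push {X : Type u} {Y : Type v} {M : (X → ℂ) →ₗ[ℂ] ℂ} (hM : IsMn M) (k : X → Y) :
    IsMn (push M k) := by
  constructor
  · intro f C hf h0
    exact hM.nn (fun x => f (k x)) C (fun x => hf _) fun x => h0 _
  · exact hM.one

end Pool.Agent.V11180.BG
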