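import Pool.Agent.V11180.BG.Base

/-! Cauchy-Schwarz and van der Corput for means. -/

set_option autoImplicit false
open Filter Topology Finset
open scoped ComplexConjugate

namespace Pool.Agent.V11180.BG

universe u v

theorem nsq_eq (z : ℂ) : ((‖z‖ ^ 2 : ℝ) : ℂ) = conj z * z := by
  rw [RCLike.conj_mul]
  push_cast
  rfl

section
variable {X : Type u} {M : (X → ℂ) →ₗ[ℂ] ℂ} (hM : IsMn M)
include hM

theorem IsMn.nsq_nonneg {f : X → ℂ} (hf : Bd f) : 0 ≤ (M (fun x => ((‖f x‖ ^ 2 : ℝ) : ℂ))).re := by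
  obtain ⟨C, hC⟩ := hf
  refine (hM.nn (fun x => ‖f x‖ ^ 2) (C ^ 2) (fun x => ?_) fun x => by positivity).1
  rw [abs_of_nonneg (by positivity)]
  exact pow_le_pow_left₀ (norm_nonneg _) (hC x) 2

theorem IsMn.nsq_im {f : X → ℂ} (hf : Bd f) : (M (fun x => ((‖f x‖ ^ 2 : ℝ) : ℂ))).im = 0 := by
  obtain ⟨C, hC⟩ := hf
  refine (hM.nn (fun x => ‖f x‖ ^ 2) (C ^ 2) (fun x => ?_) fun x => by positivity).2
  rw [abs_of_nonneg (by positivity)]
  exact pow_le_pow_left₀ (norm_nonneg _) (hC x) 2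

theorem IsMn.nsq_le {f : X → ℂ} (C : ℝ) (hC : ∀ x, ‖f x‖ ≤ C) :
    (M (fun x => ((‖f x‖ ^ 2 : ℝ) : ℂ))).re ≤ C ^ 2 := by
  refine hM.le_const (f := fun x => ‖f x‖ ^ 2) (C ^ 2) (C ^ 2) (fun x => ?_) fun x => ?_
  · rw [abs_of_nonneg (by positivity)]
    exact pow_le_pow_left₀ (norm_nonneg _) (hC x) 2
  · exact pow_le_pow_left₀ (norm_nonneg _) (hC x) 2

/-- the expansion of a square -/
theorem IsMn.sq_sub {f h : X → ℂ} (hf : Bd f) (hh : Bd h) (s : ℂ) :
    (M (fun x => ((‖f x - s * h x‖ ^ 2 : ℝ) : ℂ))).re =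
      (M (fun x => ((‖f x‖ ^ 2 : ℝ) : ℂ))).re - 2 * (conj s * M (fun x => f x * conj (h x))).re +
        ‖s‖ ^ 2 * (M (fun x => ((‖h x‖ ^ 2 : ℝ) : ℂ))).re := by
  have h1 : ∀ x, ((‖f x - s * h x‖ ^ 2 : ℝ) : ℂ) = ((‖f x‖ ^ 2 : ℝ) : ℂ) -
      conj s * (f x * conj (h x)) - s * conj (f x * conj (h x)) +
        ((‖s‖ ^ 2 : ℝ) : ℂ) * ((‖h x‖ ^ 2 : ℝ) : ℂ) := by
    intro x
    rw [nsq_eq, nsq_eq, nsq_eq, nsq_eq]
    simp only [map_sub, map_mul, Complex.conj_conj]
    ring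
  have h2 := hM.conj (hf.mul hh.conj)
  rw [M_congr M h1, M_add, M_sub, M_sub, M_cmul, M_cmul, M_cmul, h2]
  simp only [Complex.add_re, Complex.sub_re, Complex.re_ofReal_mul]
  have h3 : (s * conj (M fun x => f x * conj (h x))).re =
      (conj s * M fun x => f x * conj (h x)).re := by
    rw [← Complex.conj_re]
    simp
  rw [h3]
  ring

theorem IsMn.cs {f g : X → ℂ} (hf : Bd f) (hg : Bd g) :
    ‖M (fun x => f x * g x)‖ ^ 2 ≤
      (M (fun x => ((‖f x‖ ^ 2 : ℝ) : ℂ))).re * (M (fun x => ((‖g x‖ ^ 2 : ℝ) : ℂ))).re := by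
  set A := (M (fun x => ((‖f x‖ ^ 2 : ℝ) : ℂ))).re with hA
  set B := (M (fun x => ((‖g x‖ ^ 2 : ℝ) : ℂ))).re with hB
  set Z := M (fun x => f x * g x) with hZ
  have hA0 : 0 ≤ A := hM.nsq_nonneg hf
  have hB0 : 0 ≤ B := hM.nsq_nonneg hg
  have key : ∀ ε : ℝ, 0 < ε → ‖Z‖ ^ 2 ≤ A * (B + ε) := by
    intro ε hε
    have h1 := hM.sq_sub hf hg.conj (Z / ((B + ε : ℝ) : ℂ))
    have h2 : 0 ≤ (M (fun x => ((‖f x - (Z / ((B + ε : ℝ) : ℂ)) * conj (g x)‖ ^ 2 : ℝ) : ℂ))).re :=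
      hM.nsq_nonneg (hf.sub (hg.conj.cmul _))
    rw [h1] at h2
    simp only [Complex.conj_conj, RCLike.norm_conj] at h2
    have hBe : 0 < B + ε := by linarith
    have h3 : (conj (Z / ((B + ε : ℝ) : ℂ)) * Z).re = ‖Z‖ ^ 2 / (B + ε) := by
      rw [map_div₀, Complex.conj_ofReal, div_mul_eq_mul_div, RCLike.conj_mul, Complex.div_ofReal_re]
      norm_cast
    have h4 : ‖Z / ((B + ε : ℝ) : ℂ)‖ ^ 2 = ‖Z‖ ^ 2 / (B + ε) ^ 2 := by
      rw [norm_div, Complex.norm_real, Real.norm_eq_abs, abs_of_pos hBe, div_pow]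
    rw [← hZ, h3, h4, ← hA, ← hB] at h2
    have h5 : ‖Z‖ ^ 2 / (B + ε) ^ 2 * B ≤ ‖Z‖ ^ 2 / (B + ε) := by
      rw [div_mul_eq_mul_div, div_le_div_iff₀ (by positivity) hBe]
      have : 0 ≤ ‖Z‖ ^ 2 := by positivity
      nlinarith [mul_nonneg this (mul_nonneg hε.le hBe.le)]
    have h6 : ‖Z‖ ^ 2 / (B + ε) ≤ A := by linarith
    rwa [div_le_iff₀ hBe] at h6
  by_contra hcon
  push Not at hcon
  have h1 := key ((‖Z‖ ^ 2 - A * B) / (2 * (A + 1))) (by
    apply div_pos <;> nlinarith)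
  have h2 : A * (B + (‖Z‖ ^ 2 - A * B) / (2 * (A + 1))) ≤ A * B + (‖Z‖ ^ 2 - A * B) / 2 := by
    rw [mul_add]
    have h3 : A * ((‖Z‖ ^ 2 - A * B) / (2 * (A + 1))) = (‖Z‖ ^ 2 - A * B) / 2 * (A / (A + 1)) := by
      field_simp
    have h4 : A / (A + 1) ≤ 1 := by
      rw [div_le_one (by positivity)]
      linarith
    have h5 : 0 ≤ (‖Z‖ ^ 2 - A * B) / 2 := by linarith
    nlinarith
  linarith

theorem IsMn.cs1 {f g : X → ℂ} (hf : ∀ x, ‖f x‖ ≤ 1) (hg : Bd g) :
    ‖M (fun x => f x * g x)‖ ^ 2 ≤ (M (fun x => ((‖g x‖ ^ 2 : ℝ) : ℂ))).re := by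
  refine (hM.cs (Bd.of1 hf) hg).trans ?_
  have h1 := hM.nsq_le 1 hf
  have h2 := hM.nsq_nonneg hg
  nlinarith

end

/-- a mean on functions on an abelian group, with values below a number somewhere -/
theorem IsMn.exists_le {X : Type u} {L : (X → ℂ) →ₗ[ℂ] ℂ} (hL : IsMn L) (f : X → ℝ) (C : ℝ)
    (hf : ∀ x, |f x| ≤ C) (ε : ℝ) (hε : 0 < ε) : ∃ x, f x ≤ (L (fun x => (f x : ℂ))).re + ε := by
  by_contra hcon
  push Not at hcon
  have := hL.ge_const C _ hf fun x => (hcon x).le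
  linarith

theorem tsum_lem (x c d : ℝ) (h : ∀ n : ℕ, x * n ^ 2 ≤ n * d + (n : ℝ) * (n - 1) * c) : x ≤ c := by
  by_contra hcon
  push Not at hcon
  obtain ⟨n, hn⟩ := exists_nat_gt ((|d| + |c|) / (x - c))
  have h1 := h n
  have h2 : 0 < x - c := by linarith
  rw [div_lt_iff₀ h2] at hn
  have hn0 : (0 : ℝ) < n := by
    by_contra h3
    push Not at h3
    have : (n : ℝ) * (x - c) ≤ 0 := mul_nonpos_of_nonpos_of_nonneg h3 h2.le
    have h4 : 0 ≤ |d| + |c| := by positivity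
    linarith
  have h3 : (n : ℝ) * (x - c) ≤ d - c := by
    have : (n : ℝ) * ((n : ℝ) * (x - c)) ≤ n * (d - c) := by nlinarith
    exact le_of_mul_le_mul_left this hn0
  have h4 := le_abs_self d
  have h5 := neg_abs_le c
  linarith

/-- van der Corput -/
theorem vdc {X : Type u} {V : Type v} [AddCommGroup V] (act : V → X → X)
    (hact : ∀ v w x, act (v + w) x = act v (act w x))
    {M : (X → ℂ) →ₗ[ℂ] ℂ} (hM : IsMn M) (hMI : ∀ f : X → ℂ, Bd f → ∀ v, M (fun x => f (act v x)) = M f)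
    {L : (V → ℂ) →ₗ[ℂ] ℂ} (hL : IsMn L) (hLI : Inv L)
    {p q : X → ℂ} (hp : ∀ x, ‖p x‖ ≤ 1) (hpi : ∀ v x, p (act v x) = p x) (hq : Bd q) :
    ‖M (fun x => p x * q x)‖ ^ 2 ≤
      (L (fun v => M (fun x => conj (q x) * q (act v x)))).re := by
  obtain ⟨C, hC⟩ := hq
  have hC0 : ∀ x : X, 0 ≤ C := fun x => (norm_nonneg _).trans (hC x)
  have hqb : Bd q := ⟨C, hC⟩
  set γ : V → ℂ := fun v => M (fun x => conj (q x) * q (act v x)) with hγ
  have hγb : ∀ v, ‖γ v‖ ≤ C * C := fun v => hM.norm_le (C * C) fun x => by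
    rw [norm_mul, RCLike.norm_conj]
    exact mul_le_mul (hC _) (hC _) (norm_nonneg _) (hC0 x)
  set c := (L γ).re with hc
  have hprod : ∀ v w, M (fun x => conj (q (act v x)) * q (act w x)) = γ (w - v) := by
    intro v w
    rw [hγ]
    simp only
    rw [← hMI (fun x => conj (q x) * q (act (w - v) x)) (hqb.conj.mul (hqb.comp _)) v]
    refine M_congr M fun x => ?_
    rw [← hact, sub_add_cancel]
  -- the choice
  have hch : ∀ n : ℕ, ∃ t : ℕ → V, (∑ i ∈ range n, ∑ j ∈ range n, (γ (t j - t i)).re) ≤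
      n * (C * C + 2) + (n : ℝ) * (n - 1) * c := by
    intro n
    induction n with
    | zero => exact ⟨fun _ => 0, by simp⟩
    | succ n ih =>
      obtain ⟨t, ht⟩ := ih
      have h1 : ∀ w : V, (L (fun v => γ (v - w))).re = c := by
        intro w
        rw [hc]
        congr 1
        rw [← hLI γ ⟨C * C, hγb⟩ (-w)]
        refine M_congr L fun v => ?_
        rw [sub_eq_add_neg]
      have h2 : ∀ w : V, (γ w).re = (γ (-w)).re := by
        intro w
        have e1 := hprod w 0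
        have e2 := hprod 0 w
        rw [zero_sub] at e1
        rw [sub_zero] at e2
        rw [← e1, ← e2, ← Complex.conj_re, ← hM.conj ((hqb.comp _).conj.mul (hqb.comp _))]
        congr 1
        refine M_congr M fun x => ?_
        simp only [map_mul, Complex.conj_conj]
        ring
      obtain ⟨w, hw⟩ := hL.exists_le (fun v => ∑ i ∈ range n, (γ (v - t i)).re) (n * (C * C)) (by
        intro v
        refine (abs_sum_le_sum_abs _ _).trans ?_
        calc ∑ i ∈ range n, |(γ (v - t i)).re| ≤ ∑ i ∈ range n, (C * C) :=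
              sum_le_sum fun i _ => (Complex.abs_re_le_norm _).trans (hγb _)
          _ = n * (C * C) := by rw [sum_const, card_range, nsmul_eq_mul]) 1 one_pos
      have h3 : (L (fun v => ((∑ i ∈ range n, (γ (v - t i)).re : ℝ) : ℂ))).re = n * c := by
        have e1 : ∀ v, ((∑ i ∈ range n, (γ (v - t i)).re : ℝ) : ℂ) =
            ∑ i ∈ range n, (((γ (v - t i)).re : ℝ) : ℂ) := fun v => by push_cast; rfl
        rw [M_congr L e1, M_sum, Complex.re_sum]
        have e2 : ∀ i ∈ range n, (L (fun v => (((γ (v - t i)).re : ℝ) : ℂ))).re = c := by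
          intro i _
          rw [← h1 (t i), hL.re_eq ⟨C * C, fun v => hγb _⟩]
        rw [sum_congr rfl e2, sum_const, card_range, nsmul_eq_mul]
      rw [h3] at hw
      refine ⟨Function.update t n w, ?_⟩
      have e0 : ∀ i ∈ range n, Function.update t n w i = t i := by
        intro i hi
        rw [Function.update_of_ne]
        exact (Finset.mem_range.1 hi).ne
      rw [sum_range_succ, sum_range_succ]
      have e1 : ∑ i ∈ range n, ∑ j ∈ range (n + 1),
          (γ (Function.update t n w j - Function.update t n w i)).re =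
          ∑ i ∈ range n, ∑ j ∈ range n, (γ (t j - t i)).re + ∑ i ∈ range n, (γ (w - t i)).re := by
        rw [← sum_add_distrib]
        refine sum_congr rfl fun i hi => ?_
        rw [sum_range_succ, Function.update_self, e0 i hi]
        congr 1
        refine sum_congr rfl fun j hj => ?_
        rw [e0 j hj]
      have e2 : ∑ j ∈ range n, (γ (Function.update t n w j - Function.update t n w n)).re =
          ∑ i ∈ range n, (γ (w - t i)).re := by
        refine sum_congr rfl fun j hj => ?_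
        rw [Function.update_self, e0 j hj, h2, neg_sub]
      rw [e1, e2, sub_self]
      have e3 : (γ 0).re ≤ C * C := (Complex.re_le_norm _).trans (hγb _)
      push_cast
      nlinarith
  refine tsum_lem _ _ (C * C + 2) fun n => ?_
  obtain ⟨t, ht⟩ := hch n
  refine le_trans ?_ ht
  -- the average
  have h1 : (n : ℂ) * M (fun x => p x * q x) =
      M (fun x => p x * ∑ i ∈ range n, q (act (t i) x)) := by
    have e1 : ∀ x, p x * ∑ i ∈ range n, q (act (t i) x) = ∑ i ∈ range n, p x * q (act (t i) x) :=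
      fun x => mul_sum _ _ _
    rw [M_congr M e1, M_sum]
    have e2 : ∀ i ∈ range n, M (fun x => p x * q (act (t i) x)) = M (fun x => p x * q x) := by
      intro i _
      rw [← hMI (fun x => p x * q x) ((Bd.of1 hp).mul hqb) (t i)]
      refine M_congr M fun x => ?_
      rw [hpi]
    rw [sum_congr rfl e2, sum_const, card_range, nsmul_eq_mul]
  have hSb : Bd (fun x => ∑ i ∈ range n, q (act (t i) x)) := Bd.sum _ fun i _ => hqb.comp _
  have h2 := hM.cs1 hp hSb
  rw [← h1, norm_mul, mul_pow, Complex.norm_natCast] at h2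
  rw [mul_comm]
  refine h2.trans (le_of_eq ?_)
  have h3 : ∀ x, ((‖∑ i ∈ range n, q (act (t i) x)‖ ^ 2 : ℝ) : ℂ) =
      ∑ i ∈ range n, ∑ j ∈ range n, conj (q (act (t i) x)) * q (act (t j) x) := by
    intro x
    rw [nsq_eq, map_sum, sum_mul_sum]
  rw [M_congr M h3, M_sum, Complex.re_sum]
  refine sum_congr rfl fun i _ => ?_
  rw [M_sum, Complex.re_sum]
  refine sum_congr rfl fun j _ => ?_
  rw [hprod]

end Pool.Agent.V11180.BG
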