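import Pool.Agent.V11180.BG.Ext

/-! Complexified means and the ergodic identity of an extreme mean. -/

set_option autoImplicit false
open Filter Topology Finset

namespace Pool.Agent.V11180.BG

universe u

/-- the bounded complex functions -/
def BC (X : Type u) : Submodule ℂ (X → ℂ) where
  carrier := {f | Bd f}
  add_mem' := fun h1 h2 => Bd.add h1 h2
  zero_mem' := Bd.const 0
  smul_mem' := fun c _ h => Bd.cmul c h

section
variable {G : Type u}

/-- the real part -/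
def reB (f : BC G) : BR G := ⟨fun x => (f.1 x).re, by
  obtain ⟨C, hC⟩ := f.2
  exact ⟨C, fun x => (Complex.abs_re_le_norm _).trans (hC x)⟩⟩

/-- the imaginary part -/
def imB (f : BC G) : BR G := ⟨fun x => (f.1 x).im, by
  obtain ⟨C, hC⟩ := f.2
  exact ⟨C, fun x => (Complex.abs_im_le_norm _).trans (hC x)⟩⟩

/-- the complexified functional -/
noncomputable def mC (m : BR G →ₗ[ℝ] ℝ) : BC G →ₗ[ℂ] ℂ where
  toFun f := ((m (reB f) : ℝ) : ℂ) + ((m (imB f) : ℝ) : ℂ) * Complex.I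
  map_add' f g := by
    have h1 : reB (f + g) = reB f + reB g := by
      apply Subtype.ext; funext x; simp [reB]
    have h2 : imB (f + g) = imB f + imB g := by
      apply Subtype.ext; funext x; simp [imB]
    rw [h1, h2, map_add, map_add]
    push_cast
    ring
  map_smul' c f := by
    have h1 : reB (c • f) = c.re • reB f - c.im • imB f := by
      apply Subtype.ext; funext x; simp [reB, imB]
    have h2 : imB (c • f) = c.re • imB f + c.im • reB f := by
      apply Subtype.ext; funext x; simp [reB, imB]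
    rw [h1, h2, map_sub, map_add, map_smul, map_smul, map_smul, map_smul]
    simp only [smul_eq_mul, RingHom.id_apply]
    apply Complex.ext
    · simp
    · simp

variable [AddCommGroup G]

theorem total (m : BR G →ₗ[ℝ] ℝ) (hm : IsInvMean m) : ∃ M : (G → ℂ) →ₗ[ℂ] ℂ, IsMn M ∧ Inv M ∧
    ∀ f : BR G, M (fun x => (f.1 x : ℂ)) = (m f : ℂ) := by
  obtain ⟨M, hM⟩ := LinearMap.exists_extend (mC m)
  have hM' : ∀ f : BC G, M f.1 = mC m f := fun f => by rw [← hM]; rfl
  have hR : ∀ f : BR G, M (fun x => (f.1 x : ℂ)) = (m f : ℂ) := by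
    intro f
    have hb : Bd (fun x => (f.1 x : ℂ)) := by
      obtain ⟨C, hC⟩ := f.2
      exact ⟨C, fun x => by rw [Complex.norm_real]; exact hC x⟩
    rw [hM' ⟨_, hb⟩]
    show ((m (reB ⟨_, hb⟩) : ℝ) : ℂ) + ((m (imB ⟨_, hb⟩) : ℝ) : ℂ) * Complex.I = _
    have h1 : reB (⟨_, hb⟩ : BC G) = f := by
      apply Subtype.ext; funext x; simp [reB]
    have h2 : imB (⟨_, hb⟩ : BC G) = 0 := by
      apply Subtype.ext; funext x; simp [imB]
    rw [h1, h2, map_zero]
    simp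
  refine ⟨M, ⟨?_, ?_⟩, ?_, hR⟩
  · intro f C hf h0
    rw [hR ⟨f, C, hf⟩]
    exact ⟨by rw [Complex.ofReal_re]; exact hm.nonneg _ h0, Complex.ofReal_im _⟩
  · have := hR oneR
    rw [hm.one] at this
    simpa [oneR] using this
  · intro f hf a
    rw [hM' ⟨f, hf⟩, hM' ⟨fun x => f (x + a), hf.comp _⟩]
    show ((m (reB _) : ℝ) : ℂ) + ((m (imB _) : ℝ) : ℂ) * Complex.I =
      ((m (reB _) : ℝ) : ℂ) + ((m (imB _) : ℝ) : ℂ) * Complex.I
    have h1 : reB (⟨fun x => f (x + a), hf.comp _⟩ : BC G) = trR a (reB ⟨f, hf⟩) := rfl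
    have h2 : imB (⟨fun x => f (x + a), hf.comp _⟩ : BC G) = trR a (imB ⟨f, hf⟩) := rfl
    rw [h1, h2, hm.inv, hm.inv]

theorem exists_inv (G : Type u) [AddCommGroup G] : ∃ M : (G → ℂ) →ₗ[ℂ] ℂ, IsMn M ∧ Inv M := by
  obtain ⟨m, hm, -, -⟩ := ext (G := G) 0
  obtain ⟨M, h1, h2, -⟩ := total m hm
  exact ⟨M, h1, h2⟩

/-- the ergodic identity -/
def Ex (M : (G → ℂ) →ₗ[ℂ] ℂ) : Prop :=
  ∀ L : (G → ℂ) →ₗ[ℂ] ℂ, IsMn L → Inv L → ∀ B F : G → ℂ, Bd B → Bd F →
    L (fun a => M (fun x => B x * F (x + a))) = M B * M F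

theorem ex_real {m : BR G →ₗ[ℝ] ℝ} (he : Extr m) {M : (G → ℂ) →ₗ[ℂ] ℂ} (hM : IsMn M)
    (hI : Inv M) (hR : ∀ f : BR G, M (fun x => (f.1 x : ℂ)) = (m f : ℂ))
    {L : (G → ℂ) →ₗ[ℂ] ℂ} (hL : IsMn L) (hLI : Inv L) (B F : BR G)
    (hF : ∀ x, 0 ≤ F.1 x ∧ F.1 x ≤ 1) :
    L (fun a => M (fun x => (B.1 x : ℂ) * (F.1 (x + a) : ℂ))) =
      M (fun x => (B.1 x : ℂ)) * M (fun x => (F.1 x : ℂ)) := by
  let m' : BR G →ₗ[ℝ] ℝ :=
    { toFun := fun B => (L (fun a => M (fun x => (B.1 x : ℂ) * (F.1 (x + a) : ℂ)))).re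
      map_add' := by
        intro B B'
        rw [← Complex.add_re, ← M_add]
        congr 1
        refine M_congr L fun a => ?_
        rw [← M_add]
        refine M_congr M fun x => ?_
        show ((B.1 x + B'.1 x : ℝ) : ℂ) * _ = _
        push_cast
        ring
      map_smul' := by
        intro c B
        rw [RingHom.id_apply, smul_eq_mul, ← Complex.re_ofReal_mul, ← M_cmul]
        congr 1
        refine M_congr L fun a => ?_
        rw [← M_cmul]
        refine M_congr M fun x => ?_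
        show ((c * B.1 x : ℝ) : ℂ) * _ = _
        push_cast
        ring }
  have hm' : ∀ B : BR G, m' B = (L (fun a => M (fun x => (B.1 x : ℂ) * (F.1 (x + a) : ℂ)))).re :=
    fun B => rfl
  have hreal : ∀ (B : BR G) (a : G), ∃ r : ℝ, M (fun x => (B.1 x : ℂ) * (F.1 (x + a) : ℂ)) = (r : ℂ)
      ∧ r = m (⟨fun x => B.1 x * F.1 (x + a), by
        obtain ⟨C, hC⟩ := B.2
        exact ⟨C, fun x => by
          rw [abs_mul, abs_of_nonneg (hF _).1]
          exact (mul_le_of_le_one_right (abs_nonneg _) (hF _).2).trans (hC x)⟩⟩ : BR G) := by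
    intro B a
    refine ⟨_, ?_, rfl⟩
    rw [← hR]
    refine M_congr M fun x => ?_
    push_cast
    rfl
  choose r hr1 hr2 using hreal
  have hrb : ∀ (B : BR G) (C : ℝ), (∀ x, |B.1 x| ≤ C) → ∀ a, |r B a| ≤ C := by
    intro B C hC a
    have h1 : ‖M (fun x => (B.1 x : ℂ) * (F.1 (x + a) : ℂ))‖ ≤ C := hM.norm_le C fun x => by
      rw [norm_mul, Complex.norm_real, Complex.norm_real, Real.norm_eq_abs, Real.norm_eq_abs,
        abs_of_nonneg (hF _).1]
      exact (mul_le_of_le_one_right (abs_nonneg _) (hF _).2).trans (hC x)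
    rwa [hr1, Complex.norm_real, Real.norm_eq_abs] at h1
  have hm2 : ∀ B : BR G, m' B = (L (fun a => (r B a : ℂ))).re := fun B => by
    rw [hm']
    congr 1
    exact M_congr L fun a => hr1 B a
  have hm3 : ∀ B : BR G, L (fun a => M (fun x => (B.1 x : ℂ) * (F.1 (x + a) : ℂ))) = (m' B : ℂ) := by
    intro B
    obtain ⟨C, hC⟩ := B.2
    apply Complex.ext
    · rw [Complex.ofReal_re]
      rfl
    · rw [Complex.ofReal_im, M_congr L fun a => hr1 B a]
      exact hL.im0 (fun a => r B a) C (hrb B C hC)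
  have hE := he m' ?_ ?_
  · rw [hm3, hE, hR, hR]
    push_cast
    rw [mul_comm]
    congr 1
    rw [← hm3]
    have h1 : ∀ a, M (fun x => ((oneR : BR G).1 x : ℂ) * (F.1 (x + a) : ℂ)) = (m F : ℂ) := by
      intro a
      rw [← hR, ← hI (fun x => (F.1 x : ℂ)) ⟨1, fun x => by
        rw [Complex.norm_real, Real.norm_eq_abs, abs_of_nonneg (hF _).1]; exact (hF _).2⟩ a]
      refine M_congr M fun x => ?_
      simp [oneR]
    rw [M_congr L h1, hL.const]
  · intro B hB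
    obtain ⟨C, hC⟩ := B.2
    have h0 : ∀ a, 0 ≤ r B a := by
      intro a
      have h1 := (hM.nn (fun x => B.1 x * F.1 (x + a)) C (fun x => by
          rw [abs_mul, abs_of_nonneg (hF _).1]
          exact (mul_le_of_le_one_right (abs_nonneg _) (hF _).2).trans (hC x))
          fun x => mul_nonneg (hB x) (hF _).1).1
      have h2 := hr1 B a
      have h3 : M (fun x => ((B.1 x * F.1 (x + a) : ℝ) : ℂ)) = (r B a : ℂ) := by
        rw [← h2]
        refine M_congr M fun x => ?_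
        push_cast
        rfl
      rwa [h3, Complex.ofReal_re] at h1
    constructor
    · rw [hm2]
      exact (hL.nn (fun a => r B a) C (hrb B C hC) h0).1
    · rw [hm2]
      refine hL.le_const C _ (hrb B C hC) fun a => ?_
      have h1 := hM.mono (f := fun x => B.1 x * F.1 (x + a)) (g := fun x => B.1 x) C (fun x => by
          rw [abs_mul, abs_of_nonneg (hF _).1]
          exact (mul_le_of_le_one_right (abs_nonneg _) (hF _).2).trans (hC x)) hC
          fun x => mul_le_of_le_one_right (hB x) (hF _).2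
      rw [hR, Complex.ofReal_re] at h1
      have h2 := hr1 B a
      have h3 : M (fun x => ((B.1 x * F.1 (x + a) : ℝ) : ℂ)) = (r B a : ℂ) := by
        rw [← h2]
        refine M_congr M fun x => ?_
        push_cast
        rfl
      rwa [h3, Complex.ofReal_re] at h1
  · intro c B
    obtain ⟨C, hC⟩ := B.2
    rw [hm', hm']
    congr 1
    have h1 : ∀ a, M (fun x => ((trR c B).1 x : ℂ) * (F.1 (x + a) : ℂ)) =
        M (fun x => (B.1 x : ℂ) * (F.1 (x + (a + -c)) : ℂ)) := by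
      intro a
      rw [← hI (fun x => (B.1 x : ℂ) * (F.1 (x + (a + -c)) : ℂ)) ⟨C, fun x => by
        rw [norm_mul, Complex.norm_real, Complex.norm_real, Real.norm_eq_abs, Real.norm_eq_abs,
          abs_of_nonneg (hF _).1]
        exact (mul_le_of_le_one_right (abs_nonneg _) (hF _).2).trans (hC x)⟩ c]
      refine M_congr M fun x => ?_
      show (B.1 (x + c) : ℂ) * (F.1 (x + a) : ℂ) = (B.1 (x + c) : ℂ) * (F.1 (x + c + (a + -c)) : ℂ)
      congr 3
      abel_nf
    rw [M_congr L h1]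
    exact hLI (fun a => M (fun x => (B.1 x : ℂ) * (F.1 (x + a) : ℂ))) ⟨C, fun a => by
      show ‖M (fun x => (B.1 x : ℂ) * (F.1 (x + a) : ℂ))‖ ≤ C
      rw [hr1, Complex.norm_real]; exact hrb B C hC a⟩ (-c)

theorem ex_of_extr {m : BR G →ₗ[ℝ] ℝ} (he : Extr m) {M : (G → ℂ) →ₗ[ℂ] ℂ} (hM : IsMn M)
    (hI : Inv M) (hR : ∀ f : BR G, M (fun x => (f.1 x : ℂ)) = (m f : ℂ)) : Ex M := by
  intro L hL hLI
  -- real functions F
  have h1 : ∀ B F : BR G, L (fun a => M (fun x => (B.1 x : ℂ) * (F.1 (x + a) : ℂ))) =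
      M (fun x => (B.1 x : ℂ)) * M (fun x => (F.1 x : ℂ)) := by
    intro B F
    obtain ⟨C0, hC0⟩ := F.2
    obtain ⟨C, hC, hC1⟩ : ∃ C : ℝ, (∀ x, |F.1 x| ≤ C) ∧ 0 < C :=
      ⟨max C0 1, fun x => (hC0 x).trans (le_max_left _ _), lt_of_lt_of_le one_pos (le_max_right _ _)⟩
    have hF0 : ∀ x, 0 ≤ (2 * C)⁻¹ * (F.1 x + C) ∧ (2 * C)⁻¹ * (F.1 x + C) ≤ 1 := by
      intro x
      have h2 := abs_le.1 (hC x)
      constructor
      · apply mul_nonneg (by positivity)
        linarith [h2.1]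
      · rw [inv_mul_le_iff₀ (by positivity)]
        linarith [h2.2]
    let F0 : BR G := ⟨fun x => (2 * C)⁻¹ * (F.1 x + C), 1, fun x => by
      rw [abs_of_nonneg (hF0 x).1]; exact (hF0 x).2⟩
    have h3 := ex_real he hM hI hR hL hLI B F0 hF0
    have hCC : (C : ℂ) ≠ 0 := by exact_mod_cast hC1.ne'
    have e1 : ∀ x, (F.1 x : ℂ) = (2 * C : ℂ) * (F0.1 x : ℂ) - (C : ℂ) := by
      intro x
      show (F.1 x : ℂ) = (2 * C : ℂ) * (((2 * C)⁻¹ * (F.1 x + C) : ℝ) : ℂ) - (C : ℂ)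
      push_cast
      field_simp
      ring
    have e2 : M (fun x => (F.1 x : ℂ)) = (2 * C : ℂ) * M (fun x => (F0.1 x : ℂ)) - (C : ℂ) := by
      rw [M_congr M e1, M_sub, M_cmul, hM.const]
    have e3 : ∀ a, M (fun x => (B.1 x : ℂ) * (F.1 (x + a) : ℂ)) =
        (2 * C : ℂ) * M (fun x => (B.1 x : ℂ) * (F0.1 (x + a) : ℂ)) -
          (C : ℂ) * M (fun x => (B.1 x : ℂ)) := by
      intro a
      rw [← M_cmul, ← M_cmul, ← M_sub]
      refine M_congr M fun x => ?_
      rw [e1]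
      ring
    rw [M_congr L e3, M_sub, M_cmul, hL.const, h3, e2]
    ring
  intro B F hB hF
  obtain ⟨CB, hCB⟩ := hB
  obtain ⟨CF, hCF⟩ := hF
  let B1 : BR G := reB ⟨B, ⟨CB, hCB⟩⟩
  let B2 : BR G := imB ⟨B, ⟨CB, hCB⟩⟩
  let F1 : BR G := reB ⟨F, ⟨CF, hCF⟩⟩
  let F2 : BR G := imB ⟨F, ⟨CF, hCF⟩⟩
  have eB : ∀ x, B x = (B1.1 x : ℂ) + Complex.I * (B2.1 x : ℂ) := fun x => by
    rw [mul_comm]
    exact (Complex.re_add_im _).symm
  have eF : ∀ x, F x = (F1.1 x : ℂ) + Complex.I * (F2.1 x : ℂ) := fun x => by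
    rw [mul_comm]
    exact (Complex.re_add_im _).symm
  have e3 : ∀ a, M (fun x => B x * F (x + a)) =
      (M (fun x => (B1.1 x : ℂ) * (F1.1 (x + a) : ℂ)) +
        Complex.I * M (fun x => (B1.1 x : ℂ) * (F2.1 (x + a) : ℂ))) +
      (Complex.I * M (fun x => (B2.1 x : ℂ) * (F1.1 (x + a) : ℂ)) -
        M (fun x => (B2.1 x : ℂ) * (F2.1 (x + a) : ℂ))) := by
    intro a
    rw [← M_cmul, ← M_cmul, ← M_sub, ← M_add, ← M_add]
    refine M_congr M fun x => ?_
    rw [eB, eF]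
    ring_nf
    rw [Complex.I_sq]
    ring
  rw [M_congr L e3, M_add, M_add, M_sub, M_cmul, M_cmul, h1, h1, h1, h1, M_congr M eB,
    M_congr M eF, M_add, M_add, M_cmul, M_cmul]
  ring_nf
  rw [Complex.I_sq]
  ring

/-- there is an invariant mean with the ergodic identity giving `a0` at least what any other
invariant mean gives it -/
theorem exists_good (a0 : BR G) : ∃ M : (G → ℂ) →ₗ[ℂ] ℂ, IsMn M ∧ Inv M ∧ Ex M ∧
    ∀ m' : BR G →ₗ[ℝ] ℝ, IsInvMean m' → m' a0 ≤ (M (fun x => (a0.1 x : ℂ))).re := by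
  obtain ⟨m, hm, he, hmax⟩ := ext a0
  obtain ⟨M, hM, hI, hR⟩ := total m hm
  exact ⟨M, hM, hI, ex_of_extr he hM hI hR, fun m' hm' => by
    rw [hR, Complex.ofReal_re]; exact hmax m' hm'⟩

end

end Pool.Agent.V11180.BG
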