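import Pool.Agent.V11180.BG.Base

/-! Invariant means on abelian groups; extreme ones. -/

set_option autoImplicit false
open Filter Topology Finset

namespace Pool.Agent.V11180.BG

universe u

/-- the bounded real functions -/
def BR (X : Type u) : Submodule ℝ (X → ℝ) where
  carrier := {f | ∃ C : ℝ, ∀ x, |f x| ≤ C}
  add_mem' := by
    rintro f g ⟨C, hC⟩ ⟨D, hD⟩
    exact ⟨C + D, fun x => (abs_add_le _ _).trans (add_le_add (hC x) (hD x))⟩
  zero_mem' := ⟨0, fun x => by simp⟩
  smul_mem' := by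
    rintro c f ⟨C, hC⟩
    exact ⟨|c| * C, fun x => by
      rw [Pi.smul_apply, smul_eq_mul, abs_mul]
      exact mul_le_mul_of_nonneg_left (hC x) (abs_nonneg c)⟩

section
variable {G : Type u} [AddCommGroup G]

/-- translation of a bounded function -/
def trR (a : G) (f : BR G) : BR G :=
  ⟨fun x => f.1 (x + a), by obtain ⟨C, hC⟩ := f.2; exact ⟨C, fun x => hC _⟩⟩

/-- the constant function one -/
def oneR : BR G := ⟨fun _ => 1, 1, fun _ => by simp⟩

/-- translation invariant means on the bounded real functions -/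
structure IsInvMean (m : BR G →ₗ[ℝ] ℝ) : Prop where
  nonneg : ∀ f : BR G, (∀ x, 0 ≤ f.1 x) → 0 ≤ m f
  one : m oneR = 1
  inv : ∀ (a : G) (f : BR G), m (trR a f) = m f

theorem trR_add (a : G) (f g : BR G) : trR a (f + g) = trR a f + trR a g := rfl
theorem trR_smul (a : G) (c : ℝ) (f : BR G) : trR a (c • f) = c • trR a f := rfl
theorem trR_one (a : G) : trR a (oneR : BR G) = oneR := rfl
theorem trR_trR (a b : G) (f : BR G) : trR a (trR b f) = trR (a + b) f := by
  apply Subtype.ext
  funext x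
  show f.1 (x + a + b) = f.1 (x + (a + b))
  rw [add_assoc]
theorem trR_zero (f : BR G) : trR 0 f = f := by
  apply Subtype.ext
  funext x
  show f.1 (x + 0) = f.1 x
  rw [add_zero]

/-- the convex set -/
def PK (S : Set G) : Set (BR G → ℝ) :=
  {φ | (∀ f g, φ (f + g) = φ f + φ g) ∧ (∀ (c : ℝ) f, φ (c • f) = c * φ f) ∧
    (∀ f : BR G, (∀ n, 0 ≤ f.1 n) → 0 ≤ φ f) ∧ φ oneR = 1 ∧ ∀ a ∈ S, ∀ f, φ (trR a f) = φ f}

theorem pos_bound' (φ : BR G → ℝ) (ha : ∀ f g, φ (f + g) = φ f + φ g)
    (hs : ∀ (c : ℝ) f, φ (c • f) = c * φ f) (hp : ∀ f : BR G, (∀ n, 0 ≤ f.1 n) → 0 ≤ φ f)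
    (f : BR G) (C : ℝ) (hC : ∀ x, |f.1 x| ≤ C) : |φ f| ≤ C * φ oneR := by
  have h1 := hp (C • oneR + (-1 : ℝ) • f) (fun n => by
    have h2 := (abs_le.1 (hC n)).2
    show 0 ≤ C * 1 + (-1) * f.1 n
    linarith)
  have h2 := hp (C • oneR + (1 : ℝ) • f) (fun n => by
    have h2 := (abs_le.1 (hC n)).1
    show 0 ≤ C * 1 + 1 * f.1 n
    linarith)
  rw [ha, hs, hs] at h1 h2
  rw [abs_le]
  constructor <;> linarith

theorem PK_closed (S : Set G) : IsClosed (PK S) := by
  have e : PK S = {φ | ∀ f g, φ (f + g) = φ f + φ g} ∩ {φ | ∀ (c : ℝ) f, φ (c • f) = c * φ f} ∩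
    {φ | ∀ f : BR G, (∀ n, 0 ≤ f.1 n) → 0 ≤ φ f} ∩ {φ | φ oneR = 1} ∩
    {φ | ∀ a ∈ S, ∀ f, φ (trR a f) = φ f} := by
    ext φ
    simp only [PK, Set.mem_inter_iff, Set.mem_ofPred_eq, and_assoc]
  rw [e]
  have hc : ∀ f : BR G, Continuous fun φ : BR G → ℝ => φ f := fun f => continuous_apply f
  refine IsClosed.inter (IsClosed.inter (IsClosed.inter (IsClosed.inter ?_ ?_) ?_) ?_) ?_
  · simp only [Set.ofPred_forall]
    exact isClosed_iInter fun f => isClosed_iInter fun g =>
      isClosed_eq (hc _) ((hc _).add (hc _))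
  · simp only [Set.ofPred_forall]
    exact isClosed_iInter fun c => isClosed_iInter fun f =>
      isClosed_eq (hc _) (continuous_const.mul (hc _))
  · simp only [Set.ofPred_forall]
    exact isClosed_iInter fun f => isClosed_iInter fun _ => isClosed_le continuous_const (hc _)
  · exact isClosed_eq (hc _) continuous_const
  · simp only [Set.ofPred_forall]
    exact isClosed_iInter fun a => isClosed_iInter fun _ => isClosed_iInter fun f =>
      isClosed_eq (hc _) (hc _)

theorem PK_compact (S : Set G) : IsCompact (PK S) := by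
  have h1 : IsCompact (Set.univ.pi fun f : BR G => Set.Icc (-f.2.choose) f.2.choose) :=
    isCompact_univ_pi fun f => isCompact_Icc
  refine h1.of_isClosed_subset (PK_closed S) ?_
  intro φ hφ f _
  have h2 := pos_bound' φ hφ.1 hφ.2.1 hφ.2.2.1 f _ f.2.choose_spec
  rw [hφ.2.2.2.1, mul_one] at h2
  exact abs_le.1 h2

theorem ex_lim (f : ℕ → ℝ) (C : ℝ) (h : ∀ x, |f x| ≤ C) :
    ∃ y, Tendsto f (hyperfilter ℕ : Ultrafilter ℕ) (𝓝 y) := by
  have hc : IsCompact (Set.Icc (-C) C) := isCompact_Icc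
  have h1 : (((hyperfilter ℕ).map f : Ultrafilter ℝ) : Filter ℝ) ≤ 𝓟 (Set.Icc (-C) C) := by
    rw [Ultrafilter.coe_map, Filter.le_principal_iff, Filter.mem_map]
    exact Filter.univ_mem' fun x => abs_le.1 (h x)
  obtain ⟨y, hy, hy2⟩ := hc.ultrafilter_le_nhds _ h1
  exact ⟨y, hy2⟩

theorem PK_step {S : Set G} {ev : BR G → ℝ} (hev : ev ∈ PK S) (a : G) :
    ∃ φ, φ ∈ PK (insert a S) := by
  obtain ⟨ev_add, ev_smul, ev_pos, ev_one, ev_inv⟩ := hev
  have hevb : ∀ (f : BR G) (C : ℝ), (∀ x, |f.1 x| ≤ C) → |ev f| ≤ C := fun f C hC => by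
    have := pos_bound' ev ev_add ev_smul ev_pos f C hC
    rwa [ev_one, mul_one] at this
  obtain ⟨ψ, hψ⟩ : ∃ ψ : ℕ → BR G → ℝ, ∀ n f,
      ψ n f = (∑ k ∈ range (n + 1), ev (trR (k • a) f)) / (n + 1) := ⟨_, fun _ _ => rfl⟩
  have hψb : ∀ (f : BR G) (C : ℝ), (∀ x, |f.1 x| ≤ C) → ∀ n, |ψ n f| ≤ C := by
    intro f C hC n
    rw [hψ, abs_div, abs_of_pos (by positivity : (0 : ℝ) < (n : ℝ) + 1), div_le_iff₀ (by positivity)]
    refine (abs_sum_le_sum_abs _ _).trans ?_
    calc ∑ k ∈ range (n + 1), |ev (trR (k • a) f)| ≤ ∑ k ∈ range (n + 1), C :=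
          sum_le_sum fun k _ => hevb _ _ fun x => hC _
      _ = C * ((n : ℝ) + 1) := by
          rw [sum_const, card_range, nsmul_eq_mul]
          push_cast
          ring
  have hlim : ∀ f : BR G, ∃ y,
      Tendsto (fun n => ψ n f) (hyperfilter ℕ : Ultrafilter ℕ) (𝓝 y) := fun f =>
    ex_lim (fun n => ψ n f) _ (hψb f _ f.2.choose_spec)
  choose φ hφ2 using hlim
  have hle : ((hyperfilter ℕ : Ultrafilter ℕ) : Filter ℕ) ≤ atTop := Nat.hyperfilter_le_atTop
  refine ⟨φ, fun f g => ?_, fun c f => ?_, fun f hf => ?_, ?_, ?_⟩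
  · refine tendsto_nhds_unique (hφ2 (f + g)) (((hφ2 f).add (hφ2 g)).congr fun n => ?_)
    simp only [hψ, trR_add, ev_add, sum_add_distrib, add_div]
  · refine tendsto_nhds_unique (hφ2 (c • f)) (((hφ2 f).const_mul c).congr fun n => ?_)
    simp only [hψ, trR_smul, ev_smul, ← mul_sum, mul_div_assoc]
  · refine ge_of_tendsto' (hφ2 f) fun n => ?_
    rw [hψ]
    refine div_nonneg (sum_nonneg fun k _ => ev_pos _ fun m => ?_) (by positivity)
    exact hf _
  · refine tendsto_nhds_unique (hφ2 oneR) (tendsto_const_nhds.congr fun n => ?_)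
    simp only [hψ, trR_one, ev_one, sum_const, card_range, nsmul_eq_mul]
    push_cast
    field_simp
  · intro b hb f
    rcases Set.mem_insert_iff.1 hb with rfl | hb
    · obtain ⟨C, hC⟩ := f.2
      have h1 : Tendsto (fun n => ψ n (trR b f) - ψ n f) (hyperfilter ℕ : Ultrafilter ℕ)
          (𝓝 (φ (trR b f) - φ f)) := (hφ2 _).sub (hφ2 _)
      have h2 : Tendsto (fun n => ψ n (trR b f) - ψ n f) atTop (𝓝 0) := by
        apply squeeze_zero_norm (a := fun n : ℕ => (2 * C) * (1 / ((n : ℝ) + 1)))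
        · intro n
          have h3 : ψ n (trR b f) - ψ n f = (ev (trR ((n + 1) • b) f) - ev (trR (0 • b) f)) /
              (n + 1) := by
            have h4 : ∀ k : ℕ, trR (k • b) (trR b f) = trR ((k + 1) • b) f := by
              intro k
              rw [trR_trR, succ_nsmul]
            simp only [hψ, h4]
            rw [← sub_div, ← sum_sub_distrib,
              sum_range_sub (fun k : ℕ => ev (trR (k • b) f))]
          rw [h3, Real.norm_eq_abs, abs_div, abs_of_pos (by positivity : (0 : ℝ) < (n : ℝ) + 1),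
            div_le_iff₀ (by positivity)]
          have h5 : (2 * C) * (1 / ((n : ℝ) + 1)) * ((n : ℝ) + 1) = 2 * C := by
            field_simp
          rw [h5]
          refine (abs_sub _ _).trans ?_
          have h6 := hevb (trR ((n + 1) • b) f) C fun x => hC _
          have h7 := hevb (trR (0 • b) f) C fun x => hC _
          linarith
        · have h3 := (tendsto_one_div_add_atTop_nhds_zero_nat (𝕜 := ℝ)).const_mul (2 * C)
          rwa [mul_zero] at h3
      have h3 := tendsto_nhds_unique h1 (h2.mono_left hle)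
      linarith
    · refine tendsto_nhds_unique (hφ2 _) ((hφ2 f).congr fun n => ?_)
      simp only [hψ]
      congr 1
      refine sum_congr rfl fun k _ => ?_
      rw [trR_trR, add_comm, ← trR_trR, ev_inv b hb]

theorem PK_fin (S : Finset G) : (PK (S : Set G)).Nonempty := by
  classical
  induction S using Finset.induction_on with
  | empty =>
    refine ⟨fun f => f.1 0, fun f g => rfl, fun c f => rfl, fun f hf => hf 0, rfl, ?_⟩
    intro a ha
    simp at ha
  | insert a S _ ih =>
    obtain ⟨ev, hev⟩ := ih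
    obtain ⟨φ, hφ⟩ := PK_step hev a
    refine ⟨φ, ?_⟩
    rwa [Finset.coe_insert]

theorem PK_univ_nonempty : (PK (Set.univ : Set G)).Nonempty := by
  classical
  have h := IsCompact.nonempty_iInter_of_directed_nonempty_isCompact_isClosed
    (fun S : Finset G => PK (S : Set G)) (by
      intro S T
      refine ⟨S ∪ T, ?_, ?_⟩
      · rintro φ ⟨h1, h2, h3, h4, h5⟩
        exact ⟨h1, h2, h3, h4, fun a ha => h5 a (by simp at ha ⊢; exact Or.inl ha)⟩
      · rintro φ ⟨h1, h2, h3, h4, h5⟩
        exact ⟨h1, h2, h3, h4, fun a ha => h5 a (by simp at ha ⊢; exact Or.inr ha)⟩)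
    PK_fin (fun S => PK_compact _) (fun S => PK_closed _)
  obtain ⟨φ, hφ⟩ := h
  rw [Set.mem_iInter] at hφ
  obtain ⟨h1, h2, h3, h4, -⟩ := hφ ∅
  exact ⟨φ, h1, h2, h3, h4, fun a _ f => (hφ {a}).2.2.2.2 a (by simp) f⟩

/-- being extreme -/
def Extr (m : BR G →ₗ[ℝ] ℝ) : Prop :=
  ∀ m' : BR G →ₗ[ℝ] ℝ, (∀ f : BR G, (∀ x, 0 ≤ f.1 x) → 0 ≤ m' f ∧ m' f ≤ m f) →
    (∀ a f, m' (trR a f) = m' f) → ∀ f, m' f = m' oneR * m f

theorem ext (a0 : BR G) : ∃ m : BR G →ₗ[ℝ] ℝ, IsInvMean m ∧ Extr m ∧
    ∀ m' : BR G →ₗ[ℝ] ℝ, IsInvMean m' → m' a0 ≤ m a0 := by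
  obtain ⟨φ0, hφ0, hmax⟩ := (PK_compact (Set.univ : Set G)).exists_isMaxOn PK_univ_nonempty
    (f := fun φ => φ a0) (continuous_apply a0).continuousOn
  have hmax' : ∀ φ ∈ PK (Set.univ : Set G), φ a0 ≤ φ0 a0 := fun φ hφ => hmax hφ
  set F : Set (BR G → ℝ) := PK (Set.univ : Set G) ∩ {φ | φ a0 = φ0 a0} with hF
  have hFc : IsCompact F := (PK_compact _).inter_right
    (isClosed_eq (continuous_apply a0) continuous_const)
  obtain ⟨φ, hφ⟩ := hFc.extremePoints_nonempty ⟨φ0, hφ0, rfl⟩
  obtain ⟨⟨ha, hs, hp, h1, hi⟩, hv⟩ := hφ.1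
  have hv : φ a0 = φ0 a0 := hv
  let m : BR G →ₗ[ℝ] ℝ :=
    { toFun := φ
      map_add' := ha
      map_smul' := hs }
  have hm : ∀ f, m f = φ f := fun f => rfl
  refine ⟨m, ⟨hp, h1, fun a f => hi a trivial f⟩, ?_, ?_⟩
  · intro m' hm' hinv f
    obtain ⟨t, ht⟩ : ∃ t, t = m' oneR := ⟨_, rfl⟩
    have h10 : ∀ n : G, (0 : ℝ) ≤ (oneR : BR G).1 n := fun n => zero_le_one
    have ht0 : 0 ≤ t := by
      rw [ht]
      exact (hm' oneR h10).1
    have ht1 : t ≤ 1 := by
      rw [ht]
      have := (hm' oneR h10).2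
      rwa [hm, h1] at this
    obtain ⟨C, hC⟩ := f.2
    have hb1 : |m' f| ≤ C * m' oneR := pos_bound' m' (map_add m') (fun c g => by
      rw [map_smul, smul_eq_mul]) (fun g hg => (hm' g hg).1) f C hC
    have hb2 : |m f - m' f| ≤ C * (m oneR - m' oneR) :=
      pos_bound' (fun g => m g - m' g) (fun g h => by
        rw [map_add, map_add]
        ring) (fun c g => by
        rw [map_smul, map_smul, smul_eq_mul, smul_eq_mul]
        ring) (fun g hg => sub_nonneg.2 (hm' g hg).2) f C hC
    rw [← ht] at hb1 hb2 ⊢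
    have hm1 : m oneR = 1 := h1
    rw [hm1] at hb2
    rcases ht0.eq_or_lt with h0 | h0
    · rw [← h0, mul_zero] at hb1
      rw [← h0, zero_mul]
      exact abs_nonpos_iff.1 hb1
    · rcases ht1.eq_or_lt with h2 | h2
      · rw [h2, sub_self, mul_zero] at hb2
        have := abs_nonpos_iff.1 hb2
        rw [h2, one_mul]
        linarith
      · have h1t : 0 < 1 - t := by linarith
        have hmem1 : (fun g => m' g / t) ∈ PK (Set.univ : Set G) := by
          refine ⟨fun g h => ?_, fun c g => ?_, fun g hg => ?_, ?_, fun a _ g => ?_⟩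
          · change m' (g + h) / t = m' g / t + m' h / t
            rw [map_add, add_div]
          · change m' (c • g) / t = c * (m' g / t)
            rw [map_smul, smul_eq_mul, mul_div_assoc]
          · exact div_nonneg (hm' g hg).1 h0.le
          · change m' oneR / t = 1
            rw [← ht, div_self h0.ne']
          · change m' (trR a g) / t = m' g / t
            rw [hinv]
        have hmem2 : (fun g => (m g - m' g) / (1 - t)) ∈ PK (Set.univ : Set G) := by
          refine ⟨fun g h => ?_, fun c g => ?_, fun g hg => ?_, ?_, fun a _ g => ?_⟩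
          · change (m (g + h) - m' (g + h)) / (1 - t) =
              (m g - m' g) / (1 - t) + (m h - m' h) / (1 - t)
            rw [map_add, map_add]
            ring
          · change (m (c • g) - m' (c • g)) / (1 - t) = c * ((m g - m' g) / (1 - t))
            rw [map_smul, map_smul, smul_eq_mul, smul_eq_mul]
            ring
          · exact div_nonneg (sub_nonneg.2 (hm' g hg).2) h1t.le
          · change (m oneR - m' oneR) / (1 - t) = 1
            rw [← ht, hm1, div_self h1t.ne']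
          · change (m (trR a g) - m' (trR a g)) / (1 - t) = (m g - m' g) / (1 - t)
            rw [hinv, hm, hm, hi a trivial]
        have e1 := hmax' _ hmem1
        have e2 := hmax' _ hmem2
        rw [div_le_iff₀ h0] at e1
        rw [div_le_iff₀ h1t, hm, hv] at e2
        have e3 : m' a0 = φ0 a0 * t := le_antisymm e1 (by nlinarith)
        have hF1 : (fun g => m' g / t) ∈ F := ⟨hmem1, by
          show m' a0 / t = φ0 a0
          rw [e3, mul_div_assoc, div_self h0.ne', mul_one]⟩
        have hF2 : (fun g => (m g - m' g) / (1 - t)) ∈ F := ⟨hmem2, by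
          show (m a0 - m' a0) / (1 - t) = φ0 a0
          rw [e3, hm, hv]
          field_simp⟩
        have hseg : φ ∈ openSegment ℝ (fun g => m' g / t) (fun g => (m g - m' g) / (1 - t)) := by
          refine ⟨t, 1 - t, h0, h1t, by ring, ?_⟩
          funext g
          simp only [Pi.add_apply, Pi.smul_apply, smul_eq_mul]
          rw [hm g]
          field_simp
          ring
        have h3 := hφ.2 hF1 hF2 hseg
        have h4 : m' f / t = φ f := congrFun h3 f
        rw [hm f, ← h4]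
        field_simp
  · intro m' hm'
    rw [hm, hv]
    exact hmax' (fun f => m' f) ⟨map_add m', fun c f => map_smul m' c f, hm'.nonneg,
      hm'.one, fun a _ f => hm'.inv a f⟩

end

end Pool.Agent.V11180.BG
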