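import Pool.Agent.V11180.BG.Gns

/-! Means invariant under a subgroup of finite index. -/

set_option autoImplicit false
open Filter Topology Finset
open scoped ComplexConjugate

namespace Pool.Agent.V11180.BG

universe u

section
variable {G : Type u} [AddCommGroup G]

/-- a mean carried by and invariant under a subgroup -/
structure HI (H : AddSubgroup G) (Λ : (G → ℂ) →ₗ[ℂ] ℂ) : Prop where
  mn : IsMn Λ
  inv : ∀ f : G → ℂ, Bd f → ∀ s ∈ H, Λ (fun x => f (x + s)) = Λ f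
  sup : ∀ f g : G → ℂ, (∀ x ∈ H, f x = g x) → Λ f = Λ g

variable (H : AddSubgroup G) [Fintype (G ⧸ H)] (Λ : (G → ℂ) →ₗ[ℂ] ℂ)

/-- averaging over cosets -/
noncomputable def avg : (G → ℂ) →ₗ[ℂ] ℂ where
  toFun f := (Fintype.card (G ⧸ H) : ℂ)⁻¹ * ∑ q : G ⧸ H, Λ (fun x => f (x + q.out))
  map_add' f g := by
    rw [← mul_add, ← sum_add_distrib]
    congr 1
    refine sum_congr rfl fun q _ => ?_
    rw [← M_add]
    rfl
  map_smul' c f := by
    have h : ∀ q : G ⧸ H, Λ (fun x => (c • f) (x + q.out)) = c * Λ (fun x => f (x + q.out)) :=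
      fun q => by
        rw [← M_cmul]
        rfl
    rw [sum_congr rfl fun q _ => h q, ← mul_sum, RingHom.id_apply, smul_eq_mul]
    ring

theorem avg_apply (f : G → ℂ) :
    avg H Λ f = (Fintype.card (G ⧸ H) : ℂ)⁻¹ * ∑ q : G ⧸ H, Λ (fun x => f (x + q.out)) := rfl

variable {H Λ} (hΛ : HI H Λ)
include hΛ

theorem avg_mn : IsMn (avg H Λ) := by
  have hc : (Fintype.card (G ⧸ H) : ℂ) ≠ 0 := by exact_mod_cast Fintype.card_ne_zero
  constructor
  · intro f C hf h0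
    have h1 : ∀ q : G ⧸ H, 0 ≤ (Λ (fun x => (f (x + q.out) : ℂ))).re ∧
        (Λ (fun x => (f (x + q.out) : ℂ))).im = 0 := fun q =>
      hΛ.mn.nn (fun x => f (x + q.out)) C (fun x => hf _) fun x => h0 _
    have h2 : ((Fintype.card (G ⧸ H) : ℂ)⁻¹) = (((Fintype.card (G ⧸ H) : ℝ)⁻¹ : ℝ) : ℂ) := by
      push_cast
      rfl
    rw [avg_apply, h2]
    constructor
    · rw [Complex.re_ofReal_mul, Complex.re_sum]
      exact mul_nonneg (by positivity) (sum_nonneg fun q _ => (h1 q).1)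
    · rw [Complex.im_ofReal_mul, Complex.im_sum, sum_eq_zero fun q _ => (h1 q).2, mul_zero]
  · rw [avg_apply]
    simp only [hΛ.mn.one, sum_const, card_univ, nsmul_eq_mul, mul_one]
    exact inv_mul_cancel₀ hc

theorem avg_inv : Inv (avg H Λ) := by
  intro f hf g
  rw [avg_apply, avg_apply]
  congr 1
  refine Fintype.sum_equiv (Equiv.addRight (g : G ⧸ H)) _ _ fun q => ?_
  set q' : G ⧸ H := Equiv.addRight (g : G ⧸ H) q with hq'
  have h1 : (q.out + g) - q'.out ∈ H := by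
    rw [← QuotientAddGroup.eq_iff_sub_mem]
    rw [QuotientAddGroup.mk_add, QuotientAddGroup.out_eq', QuotientAddGroup.out_eq', hq']
    rfl
  rw [← hΛ.inv (fun x => f (x + q'.out)) (hf.comp _) _ h1]
  refine M_congr Λ fun x => ?_
  congr 1
  abel

/-- the value is controlled by the averaged mean -/
theorem le_avg {f : G → ℝ} (C : ℝ) (hf : ∀ x, |f x| ≤ C) (h0 : ∀ x, 0 ≤ f x) :
    (Λ (fun x => (f x : ℂ))).re ≤ Fintype.card (G ⧸ H) * (avg H Λ (fun x => (f x : ℂ))).re := by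
  have hc : (0 : ℝ) < (Fintype.card (G ⧸ H) : ℝ) := by exact_mod_cast Fintype.card_pos
  have h2 : ((Fintype.card (G ⧸ H) : ℂ)⁻¹) = (((Fintype.card (G ⧸ H) : ℝ)⁻¹ : ℝ) : ℂ) := by
    push_cast
    rfl
  rw [avg_apply, h2, Complex.re_ofReal_mul, ← mul_assoc, mul_inv_cancel₀ hc.ne', one_mul,
    Complex.re_sum]
  have h1 : (Λ (fun x => (f x : ℂ))).re = (Λ (fun x => (f (x + (0 : G ⧸ H).out) : ℂ))).re := by
    have h3 : (0 : G ⧸ H).out ∈ H := by
      rw [← QuotientAddGroup.eq_zero_iff, QuotientAddGroup.out_eq']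
    rw [hΛ.inv (fun x => (f x : ℂ)) ⟨C, fun x => by
      rw [Complex.norm_real]; exact hf x⟩ _ h3]
  rw [h1]
  exact single_le_sum (f := fun q : G ⧸ H => (Λ (fun x => (f (x + q.out) : ℂ))).re) (fun q _ =>
    (hΛ.mn.nn (fun x => f (x + q.out)) C (fun x => hf _) fun x => h0 _).1) (mem_univ 0)

omit hΛ in
/-- the characters of the quotient as functions on the group -/
theorem isCh_q (χ : AddChar (G ⧸ H) ℂ) : IsCh (fun x : G => χ (x : G ⧸ H)) := by
  constructor
  · intro a b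
    show χ ((a + b : G) : G ⧸ H) = χ (a : G ⧸ H) * χ (b : G ⧸ H)
    rw [QuotientAddGroup.mk_add, AddChar.map_add_eq_mul]
  · intro a
    exact AddChar.norm_apply χ _

/-- the finite index formula -/
theorem fin_formula {M : (G → ℂ) →ₗ[ℂ] ℂ} (hM : IsMn M) (hE : Ex M) {a b : G → ℂ} (ha : Bd a)
    (hb : Bd b) : Λ (fun s => M (fun x => a x * b (x + s))) =
      ∑ χ : AddChar (G ⧸ H) ℂ, M (fun x => conj (χ (x : G ⧸ H)) * a x) *
        M (fun x => χ (x : G ⧸ H) * b x) := by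
  classical
  have hc : (Fintype.card (G ⧸ H) : ℂ) ≠ 0 := by exact_mod_cast Fintype.card_ne_zero
  have hch : ∀ χ : AddChar (G ⧸ H) ℂ, Bd (fun x : G => χ (x : G ⧸ H)) := fun χ =>
    Bd.of1 fun x => ((isCh_q χ).2 x).le
  obtain ⟨Ca, hCa⟩ := ha
  obtain ⟨Cb, hCb⟩ := hb
  have hcb : Bd (fun s => M (fun x => a x * b (x + s))) := hM.bd2 (Ca * Cb) fun s x => by
    rw [norm_mul]
    exact mul_le_mul (hCa _) (hCb _) (norm_nonneg _) ((norm_nonneg _).trans (hCa x))
  have h1 : ∀ χ : AddChar (G ⧸ H) ℂ, M (fun x => conj (χ (x : G ⧸ H)) * a x) *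
        M (fun x => χ (x : G ⧸ H) * b x) =
      avg H Λ (fun s => χ (s : G ⧸ H) * M (fun x => a x * b (x + s))) := by
    intro χ
    rw [← hE (avg H Λ) (avg_mn hΛ) (avg_inv hΛ) (fun x => conj (χ (x : G ⧸ H)) * a x)
      (fun x => χ (x : G ⧸ H) * b x) ((hch χ).conj.mul ⟨Ca, hCa⟩) ((hch χ).mul ⟨Cb, hCb⟩)]
    refine M_congr _ fun s => ?_
    rw [← M_cmul]
    refine M_congr M fun x => ?_
    have h1 : χ ((x + s : G) : G ⧸ H) = χ (x : G ⧸ H) * χ (s : G ⧸ H) := (isCh_q χ).1 x s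
    have h2 : conj (χ (x : G ⧸ H)) * χ (x : G ⧸ H) = 1 := conj_mul_one ((isCh_q χ).2 x)
    rw [h1]
    linear_combination (χ (s : G ⧸ H) * a x * b (x + s)) * h2
  rw [sum_congr rfl fun χ _ => h1 χ, ← M_sum]
  have h3 : ∀ s : G, ∑ χ : AddChar (G ⧸ H) ℂ, χ (s : G ⧸ H) * M (fun x => a x * b (x + s)) =
      (if (s : G ⧸ H) = 0 then (Fintype.card (G ⧸ H) : ℂ) else 0) * M (fun x => a x * b (x + s)) := by
    intro s
    rw [← sum_mul, AddChar.sum_apply_eq_ite]
  rw [M_congr _ h3, avg_apply]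
  rw [sum_eq_single (0 : G ⧸ H)]
  · have h4 : (0 : G ⧸ H).out ∈ H := by
      rw [← QuotientAddGroup.eq_zero_iff, QuotientAddGroup.out_eq']
    have e1 : Λ (fun s : G => (if ((s + (0 : G ⧸ H).out : G) : G ⧸ H) = 0 then
        (Fintype.card (G ⧸ H) : ℂ) else 0) * M (fun x => a x * b (x + (s + (0 : G ⧸ H).out)))) =
        Λ (fun s => (Fintype.card (G ⧸ H) : ℂ) * M (fun x => a x * b (x + (s + (0 : G ⧸ H).out)))) := by
      refine hΛ.sup _ _ fun s hs => ?_
      rw [if_pos ((QuotientAddGroup.eq_zero_iff _).2 (H.add_mem hs h4))]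
    rw [e1, M_cmul, ← mul_assoc, inv_mul_cancel₀ hc, one_mul]
    exact (hΛ.inv _ hcb _ h4).symm
  · intro q _ hq
    rw [hΛ.sup _ (fun s => (0 : ℂ) * 0)]
    · rw [M_cmul, zero_mul]
    · intro s hs
      rw [if_neg]
      · ring
      · rw [QuotientAddGroup.mk_add, QuotientAddGroup.out_eq', (QuotientAddGroup.eq_zero_iff _).2 hs,
          zero_add]
        exact hq
  · intro h
    exact absurd (mem_univ _) h

omit hΛ [Fintype (G ⧸ H)] in
/-- push forward along a homomorphism -/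
theorem HI_push {S : Type u} [AddCommGroup S] {L : (S → ℂ) →ₗ[ℂ] ℂ} (hL : IsMn L) (hLI : Inv L)
    (k : S →+ G) : HI k.range (push L k) := by
  refine ⟨isMn_push hL _, ?_, ?_⟩
  · rintro f hf s ⟨t, rfl⟩
    rw [push_apply, push_apply, ← hLI (fun x => f (k x)) (hf.comp _) t]
    refine M_congr L fun x => ?_
    rw [map_add]
  · intro f g h
    rw [push_apply, push_apply]
    exact M_congr L fun x => h _ ⟨x, rfl⟩

end

end Pool.Agent.V11180.BG
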