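import Pool.Agent.V11180.BG.CS

/-! A common eigenvector for commuting unitaries from a non-vanishing mean correlation. -/

set_option autoImplicit false
open Filter Topology Finset
open scoped ComplexConjugate InnerProductSpace

namespace Pool.Agent.V11180.BG

universe u v

/-- common eigenvector of an arbitrary family of commuting operators -/
theorem common_eigen {ι M : Type*} [AddCommGroup M] [Module ℂ M] (T : ι → M →ₗ[ℂ] M)
    (hcomm : ∀ i j v, T i (T j v) = T j (T i v)) (n : ℕ) :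
    ∀ (V : Submodule ℂ M), V ≠ ⊥ → FiniteDimensional ℂ V → Module.finrank ℂ V ≤ n →
      (∀ i, ∀ v ∈ V, T i v ∈ V) →
      ∃ v ∈ V, v ≠ 0 ∧ ∀ i, ∃ ν : ℂ, T i v = ν • v := by
  classical
  induction n with
  | zero =>
    intro V hV hfd hn _
    exact absurd (Submodule.finrank_eq_zero.mp (Nat.le_zero.mp hn)) hV
  | succ n IH =>
    intro V hV hfd hn hst
    have hNt : Nontrivial V := Submodule.nontrivial_iff_ne_bot.mpr hV
    by_cases hall : ∀ i, ∃ ν : ℂ, ∀ v ∈ V, T i v = ν • v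
    · obtain ⟨v, hv, hv0⟩ := Submodule.exists_mem_ne_zero_of_ne_bot hV
      refine ⟨v, hv, hv0, ?_⟩
      intro i
      obtain ⟨ν, hν⟩ := hall i
      exact ⟨ν, hν v hv⟩
    · push Not at hall
      obtain ⟨i, hi⟩ := hall
      have hmaps : ∀ v ∈ V, T i v ∈ V := hst i
      obtain ⟨ν, hν⟩ := Module.End.exists_eigenvalue ((T i).restrict hmaps)
      obtain ⟨w, hw⟩ := hν.exists_hasEigenvector
      have hw1 : T i (w : M) = ν • (w : M) := by
        have := hw.apply_eq_smul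
        have h2 := congrArg (Subtype.val) this
        simpa using h2
      have hw0 : (w : M) ≠ 0 := by
        intro h
        exact hw.2 (Subtype.ext h)
      let V' : Submodule ℂ M := V ⊓ LinearMap.ker (T i - ν • LinearMap.id)
      have hV'mem : ∀ v, v ∈ V' ↔ v ∈ V ∧ T i v = ν • v := by
        intro v
        simp only [V', Submodule.mem_inf, LinearMap.mem_ker, LinearMap.sub_apply,
          LinearMap.smul_apply, LinearMap.id_apply, sub_eq_zero]
      have hV'0 : V' ≠ ⊥ := by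
        intro h
        have : (w : M) ∈ V' := (hV'mem _).mpr ⟨w.2, hw1⟩
        rw [h] at this
        exact hw0 (by simpa using this)
      have hfd' : FiniteDimensional ℂ V' :=
        Submodule.finiteDimensional_of_le (inf_le_left : V' ≤ V)
      have hlt : V' < V := by
        refine lt_of_le_of_ne inf_le_left ?_
        intro h
        obtain ⟨v, hv, hvne⟩ := hi ν
        rw [← h] at hv
        exact hvne ((hV'mem _).mp hv).2
      have hrank : Module.finrank ℂ V' ≤ n := by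
        have := Submodule.finrank_lt_finrank_of_lt hlt
        omega
      have hst' : ∀ j, ∀ v ∈ V', T j v ∈ V' := by
        intro j v hv
        rw [hV'mem] at hv ⊢
        refine ⟨hst j v hv.1, ?_⟩
        rw [hcomm i j v, hv.2, map_smul]
      obtain ⟨v, hv, hv0, hvs⟩ := IH V' hV'0 hfd' hrank hst'
      rw [hV'mem] at hv
      exact ⟨v, hv.1, hv0, hvs⟩

section
variable {G : Type u} [AddCommGroup G] {H : Type v} [NormedAddCommGroup H] [InnerProductSpace ℂ H]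
  (T : G → H ≃ₗᵢ[ℂ] H) (L : (G → ℂ) →ₗ[ℂ] ℂ) (b : H)

/-- the sesquilinear form -/
noncomputable def BB (v w : H) : ℂ := L (fun a => ⟪v, T a b⟫_ℂ * ⟪T a b, w⟫_ℂ)

theorem BB_bd (v w : H) (a : G) : ‖⟪v, T a b⟫_ℂ * ⟪T a b, w⟫_ℂ‖ ≤ ‖b‖ ^ 2 * ‖v‖ * ‖w‖ := by
  rw [norm_mul]
  have h1 : ‖⟪v, T a b⟫_ℂ‖ ≤ ‖v‖ * ‖b‖ := by
    have := norm_inner_le_norm (𝕜 := ℂ) v (T a b)
    rwa [(T a).norm_map] at this
  have h2 : ‖⟪T a b, w⟫_ℂ‖ ≤ ‖b‖ * ‖w‖ := by
    have := norm_inner_le_norm (𝕜 := ℂ) (T a b) w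
    rwa [(T a).norm_map] at this
  calc ‖⟪v, T a b⟫_ℂ‖ * ‖⟪T a b, w⟫_ℂ‖ ≤ (‖v‖ * ‖b‖) * (‖b‖ * ‖w‖) :=
        mul_le_mul h1 h2 (norm_nonneg _) (by positivity)
    _ = ‖b‖ ^ 2 * ‖v‖ * ‖w‖ := by ring

theorem BB_self (v : H) : BB T L b v v = L (fun a => ((‖⟪v, T a b⟫_ℂ‖ ^ 2 : ℝ) : ℂ)) := by
  refine M_congr L fun a => ?_
  rw [nsq_eq, inner_conj_symm, mul_comm]

variable {L} (hL : IsMn L)
include hL

theorem BB_conj (v w : H) : conj (BB T L b v w) = BB T L b w v := by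
  unfold BB
  rw [← hL.conj ⟨_, BB_bd T b v w⟩]
  refine M_congr L fun a => ?_
  rw [map_mul, inner_conj_symm, inner_conj_symm, mul_comm]

theorem BB_nn (v : H) : 0 ≤ (BB T L b v v).re := by
  rw [BB_self]
  exact hL.nsq_nonneg (f := fun a => ⟪v, T a b⟫_ℂ) ⟨‖v‖ * ‖b‖, fun a => by
    have := norm_inner_le_norm (𝕜 := ℂ) v (T a b)
    rwa [(T a).norm_map] at this⟩

theorem BB_le (v : H) : (BB T L b v v).re ≤ ‖b‖ ^ 2 * ‖v‖ ^ 2 := by
  rw [BB_self]
  refine (hL.nsq_le (f := fun a => ⟪v, T a b⟫_ℂ) (‖v‖ * ‖b‖) fun a => ?_).trans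
    (le_of_eq (by ring))
  have := norm_inner_le_norm (𝕜 := ℂ) v (T a b)
  rwa [(T a).norm_map] at this

theorem BB_cs (v w : H) : ‖BB T L b v w‖ ^ 2 ≤ (BB T L b v v).re * (BB T L b w w).re := by
  have hb : ∀ v : H, Bd (fun a => ⟪v, T a b⟫_ℂ) := fun v => ⟨‖v‖ * ‖b‖, fun a => by
    have := norm_inner_le_norm (𝕜 := ℂ) v (T a b)
    rwa [(T a).norm_map] at this⟩
  have hb' : ∀ v : H, Bd (fun a => ⟪T a b, v⟫_ℂ) := fun v => ⟨‖b‖ * ‖v‖, fun a => by
    have := norm_inner_le_norm (𝕜 := ℂ) (T a b) v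
    rwa [(T a).norm_map] at this⟩
  have h := hL.cs (hb v) (hb' w)
  rw [BB_self, BB_self]
  refine h.trans (le_of_eq ?_)
  congr 2
  refine M_congr L fun a => ?_
  rw [← inner_conj_symm, RCLike.norm_conj]

theorem BB_tr {n : ℕ} {e : Fin n → H} (he : Orthonormal ℂ e) :
    ∑ i, (BB T L b (e i) (e i)).re ≤ ‖b‖ ^ 2 := by
  have h1 : ∀ i, BB T L b (e i) (e i) = L (fun a => ((‖⟪e i, T a b⟫_ℂ‖ ^ 2 : ℝ) : ℂ)) :=
    fun i => BB_self T L b _
  rw [← Complex.re_sum, Finset.sum_congr rfl fun i _ => h1 i, ← M_sum]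
  have h2 : ∀ a, ∑ i, ((‖⟪e i, T a b⟫_ℂ‖ ^ 2 : ℝ) : ℂ) = ((∑ i, ‖⟪e i, T a b⟫_ℂ‖ ^ 2 : ℝ) : ℂ) := by
    intro a
    push_cast
    rfl
  rw [M_congr L h2]
  have h3 : ∀ a, ∑ i, ‖⟪e i, T a b⟫_ℂ‖ ^ 2 ≤ ‖b‖ ^ 2 := by
    intro a
    have := he.sum_inner_products_le (s := Finset.univ) (T a b)
    rwa [(T a).norm_map] at this
  refine hL.le_const (‖b‖ ^ 2) _ (fun a => ?_) h3
  rw [abs_of_nonneg (by positivity)]
  exact h3 a

/-- off a finite dimensional space the form is small -/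
theorem exists_fd (ρ : ℝ) (hρ : 0 < ρ) : ∃ V : Submodule ℂ H, FiniteDimensional ℂ V ∧
    ∀ x ∈ Vᗮ, (BB T L b x x).re ≤ ρ * ‖x‖ ^ 2 := by
  classical
  by_contra hcon
  push Not at hcon
  have key : ∀ n : ℕ, ∃ e : Fin n → H, Orthonormal ℂ e ∧ ∀ i, ρ ≤ (BB T L b (e i) (e i)).re := by
    intro n
    induction n with
    | zero => exact ⟨fun i => i.elim0, ⟨fun i => i.elim0, fun i => i.elim0⟩, fun i => i.elim0⟩
    | succ n ih =>
      obtain ⟨e, he, hr⟩ := ih
      obtain ⟨x, hx, hx2⟩ := hcon (Submodule.span ℂ (Set.range e)) (FiniteDimensional.span_of_finite ℂ (Set.finite_range e))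
      have hx0 : x ≠ 0 := by
        rintro rfl
        have h1 := BB_le T b hL (0 : H)
        simp at h1 hx2
        linarith
      have hnx : (‖x‖ : ℂ) ≠ 0 := by simpa using hx0
      set y : H := ((‖x‖⁻¹ : ℝ) : ℂ) • x with hy
      have hy1 : ‖y‖ = 1 := by
        rw [hy, norm_smul, Complex.norm_real, norm_inv, norm_norm, inv_mul_cancel₀ (norm_ne_zero_iff.2 hx0)]
      have hyo : ∀ i, ⟪e i, y⟫_ℂ = 0 := by
        intro i
        rw [hy, inner_smul_right, (Submodule.mem_orthogonal _ _).1 hx (e i) (Submodule.subset_span ⟨i, rfl⟩),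
          mul_zero]
      have hyB : ρ ≤ (BB T L b y y).re := by
        have h1 : (BB T L b y y).re = (‖x‖⁻¹) ^ 2 * (BB T L b x x).re := by
          rw [BB_self, BB_self, ← Complex.re_ofReal_mul, ← M_cmul]
          congr 1
          refine M_congr L fun a => ?_
          rw [hy, inner_smul_left, norm_mul, RCLike.norm_conj, Complex.norm_real, norm_inv, norm_norm,
            mul_pow]
          push_cast
          rfl
        rw [h1]
        have h2 : 0 < ‖x‖ := norm_pos_iff.2 hx0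
        rw [inv_pow, le_inv_mul_iff₀ (by positivity)]
        linarith
      refine ⟨Fin.cons y e, ?_, ?_⟩
      · constructor
        · intro i
          refine Fin.cases ?_ (fun i => ?_) i
          · simpa using hy1
          · simpa using he.1 i
        · intro i j hij
          revert hij
          refine Fin.cases ?_ (fun i => ?_) i
          · refine Fin.cases (fun h => absurd rfl h) (fun j _ => ?_) j
            simp only [Fin.cons_zero, Fin.cons_succ]
            rw [← inner_conj_symm, hyo, map_zero]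
          · refine Fin.cases (fun _ => ?_) (fun j hij => ?_) j
            · simp only [Fin.cons_zero, Fin.cons_succ]
              exact hyo i
            · simp only [Fin.cons_succ]
              exact he.2 fun h => hij (by rw [h])
      · intro i
        refine Fin.cases ?_ (fun i => ?_) i
        · simpa using hyB
        · simpa using hr i
  obtain ⟨n, hn⟩ := exists_nat_gt (‖b‖ ^ 2 / ρ)
  obtain ⟨e, he, hr⟩ := key n
  have h1 := BB_tr T b hL he
  have h2 : ∑ i : Fin n, ρ ≤ ∑ i, (BB T L b (e i) (e i)).re := sum_le_sum fun i _ => hr i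
  rw [sum_const, card_univ, Fintype.card_fin, nsmul_eq_mul] at h2
  rw [div_lt_iff₀ hρ] at hn
  linarith

variable [CompleteSpace H]

/-- the operator of the form -/
theorem exists_K : ∃ K : H →L[ℂ] H, ∀ v w, ⟪K v, w⟫_ℂ = BB T L b v w := by
  let B0 : H →ₗ⋆[ℂ] H →ₗ[ℂ] ℂ := LinearMap.mk₂'ₛₗ (starRingEnd ℂ) (RingHom.id ℂ) (fun v w => BB T L b v w)
    (fun v v' w => by
      unfold BB
      rw [← M_add]
      refine M_congr L fun a => ?_
      rw [inner_add_left, add_mul])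
    (fun c v w => by
      unfold BB
      rw [smul_eq_mul, ← M_cmul]
      refine M_congr L fun a => ?_
      rw [inner_smul_left, mul_assoc])
    (fun v w w' => by
      unfold BB
      rw [← M_add]
      refine M_congr L fun a => ?_
      rw [inner_add_right, mul_add])
    (fun c v w => by
      unfold BB
      rw [RingHom.id_apply, smul_eq_mul, ← M_cmul]
      refine M_congr L fun a => ?_
      rw [inner_smul_right]
      ring)
  let B1 : H →L⋆[ℂ] H →L[ℂ] ℂ := B0.mkContinuous₂ (‖b‖ ^ 2) fun v w =>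
    hL.norm_le _ (BB_bd T b v w)
  exact ⟨InnerProductSpace.continuousLinearMapOfBilin B1, fun v w => by
    rw [InnerProductSpace.continuousLinearMapOfBilin_apply]
    rfl⟩

theorem K_compact {K : H →L[ℂ] H} (hK : ∀ v w, ⟪K v, w⟫_ℂ = BB T L b v w) : IsCompactOperator K := by
  have hcl := isClosed_setOfPred_isCompactOperator (𝕜₁ := ℂ) (𝕜₂ := ℂ) (σ₁₂ := RingHom.id ℂ)
    (M₁ := H) (M₂ := H)
  have hmem : K ∈ closure {f : H →L[ℂ] H | IsCompactOperator f} := by
    rw [Metric.mem_closure_iff]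
    intro ε hε
    obtain ⟨ρ, hρ, hρ2⟩ : ∃ ρ : ℝ, 0 < ρ ∧ ρ * ‖b‖ ^ 2 < ε ^ 2 := by
      refine ⟨ε ^ 2 / (‖b‖ ^ 2 + 1), by positivity, ?_⟩
      rw [div_mul_eq_mul_div, div_lt_iff₀ (by positivity)]
      nlinarith [sq_nonneg ‖b‖, sq_pos_of_pos hε]
    obtain ⟨V, hV, hVs⟩ := exists_fd T b hL ρ hρ
    refine ⟨K ∘L (V.subtypeL ∘L V.orthogonalProjectionOnto), ?_, ?_⟩
    · have h1 : IsCompactOperator (V.subtypeL ∘L V.orthogonalProjectionOnto) := by
        have h0 : IsCompactOperator (ContinuousLinearMap.id ℂ V) :=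
          isCompactOperator_id_iff_finiteDimensional.2 hV
        exact (h0.comp_clm V.orthogonalProjectionOnto).clm_comp V.subtypeL
      exact h1.clm_comp K
    · rw [dist_eq_norm]
      have h1 : ∀ x : H, ‖(K - K ∘L (V.subtypeL ∘L V.orthogonalProjectionOnto)) x‖ ≤
          √(ρ * ‖b‖ ^ 2) * ‖x‖ := by
        intro x
        set y := x - V.subtypeL (V.orthogonalProjectionOnto x) with hy
        have hy1 : (K - K ∘L (V.subtypeL ∘L V.orthogonalProjectionOnto)) x = K y := by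
          rw [hy, map_sub]
          rfl
        have hyV : y ∈ Vᗮ := V.sub_starProjection_mem_orthogonal x
        have hyn : ‖y‖ ≤ ‖x‖ := by
          have h2 : ‖x‖ ^ 2 = ‖V.subtypeL (V.orthogonalProjectionOnto x)‖ ^ 2 + ‖y‖ ^ 2 := by
            have h3 : x = V.subtypeL (V.orthogonalProjectionOnto x) + y := by rw [hy]; abel
            have h4 : ⟪V.subtypeL (V.orthogonalProjectionOnto x), y⟫_ℂ = 0 :=
              (Submodule.mem_orthogonal _ _).1 hyV _ (V.orthogonalProjectionOnto x).2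
            have h5 := norm_add_sq_eq_norm_sq_add_norm_sq_of_inner_eq_zero _ _ h4
            rw [← h3] at h5
            nlinarith [h5]
          nlinarith [norm_nonneg x, norm_nonneg y, sq_nonneg ‖V.subtypeL (V.orthogonalProjectionOnto x)‖]
        rw [hy1]
        have h2 : ‖K y‖ ^ 2 = ‖BB T L b y (K y)‖ := by
          rw [← hK, inner_self_eq_norm_sq_to_K, norm_pow]
          simp
        have h3 := BB_cs T b hL y (K y)
        rw [← h2] at h3
        have h4 := hVs y hyV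
        have h5 := BB_le T b hL (K y)
        have h6 : (‖K y‖ ^ 2) ^ 2 ≤ (ρ * ‖y‖ ^ 2) * (‖b‖ ^ 2 * ‖K y‖ ^ 2) :=
          h3.trans (mul_le_mul h4 h5 (BB_nn T b hL _) (by positivity))
        have h7 : ‖K y‖ ^ 2 ≤ ρ * ‖b‖ ^ 2 * ‖y‖ ^ 2 := by
          rcases (norm_nonneg (K y)).eq_or_lt with h8 | h8
          · rw [← h8, zero_pow two_ne_zero]
            positivity
          · have h9 : 0 < ‖K y‖ ^ 2 := by positivity
            have h10 : ‖K y‖ ^ 2 * ‖K y‖ ^ 2 ≤ (ρ * ‖b‖ ^ 2 * ‖y‖ ^ 2) * ‖K y‖ ^ 2 := by nlinarith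
            exact le_of_mul_le_mul_right h10 h9
        have h8 : ‖K y‖ ≤ √(ρ * ‖b‖ ^ 2) * ‖y‖ := by
          rw [← Real.sqrt_sq (norm_nonneg (K y)), ← Real.sqrt_sq (norm_nonneg y),
            ← Real.sqrt_mul (by positivity)]
          exact Real.sqrt_le_sqrt h7
        exact h8.trans (mul_le_mul_of_nonneg_left hyn (Real.sqrt_nonneg _))
      refine lt_of_le_of_lt (ContinuousLinearMap.opNorm_le_bound _ (Real.sqrt_nonneg _) h1) ?_
      rw [← Real.sqrt_sq hε.le]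
      exact Real.sqrt_lt_sqrt (by positivity) hρ2
  rw [hcl.closure_eq] at hmem
  exact hmem

theorem opW (hLI : Inv L) (hT : ∀ a c x, T (a + c) x = T a (T c x)) (b1 : H) (hb1 : b1 ≠ 0) (κ : ℝ)
    (hκ : 0 < κ) (h : κ * ‖b1‖ ^ 2 ≤ (L (fun a => ((‖⟪b1, T a b⟫_ℂ‖ ^ 2 : ℝ) : ℂ))).re) :
    ∃ v : H, ‖v‖ = 1 ∧ (∀ a, ∃ c : ℂ, T a v = c • v) ∧ κ ≤ ‖⟪v, b⟫_ℂ‖ ^ 2 := by
  obtain ⟨K, hK⟩ := exists_K T b hL
  have hKc := K_compact T b hL hK
  have hT0 : ∀ x, T 0 x = x := by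
    intro x
    apply (T 0).injective
    rw [← hT, add_zero]
  have hsym : (K : H →ₗ[ℂ] H).IsSymmetric := by
    intro v w
    show ⟪K v, w⟫_ℂ = ⟪v, K w⟫_ℂ
    rw [← inner_conj_symm v (K w), hK, hK, BB_conj T b hL]
  have hsa : IsSelfAdjoint K := ContinuousLinearMap.isSelfAdjoint_iff_isSymmetric.2 hsym
  have hcomm : ∀ c x, K (T c x) = T c (K x) := by
    intro c x
    refine ext_inner_right ℂ fun w => ?_
    have h1 : ⟪T c (K x), w⟫_ℂ = ⟪K x, T (-c) w⟫_ℂ := by
      rw [← (T (-c)).inner_map_map (T c (K x)) w, ← hT, neg_add_cancel, hT0]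
    rw [h1, hK, hK]
    unfold BB
    rw [← hLI (fun a => ⟪T c x, T a b⟫_ℂ * ⟪T a b, w⟫_ℂ) ⟨_, BB_bd T b _ _⟩ c]
    refine M_congr L fun a => ?_
    rw [add_comm, hT, (T c).inner_map_map]
    congr 1
    rw [← (T (-c)).inner_map_map (T c (T a b)) w, ← hT, neg_add_cancel, hT0]
  have hnt : Nontrivial H := ⟨b1, 0, hb1⟩
  have hb1' : 0 < ‖b1‖ := norm_pos_iff.2 hb1
  have hKn : κ ≤ ‖K‖ := by
    have h1 : (BB T L b b1 b1).re ≤ ‖K‖ * ‖b1‖ ^ 2 := by
      rw [← hK]
      calc (⟪K b1, b1⟫_ℂ).re ≤ ‖⟪K b1, b1⟫_ℂ‖ := Complex.re_le_norm _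
        _ ≤ ‖K b1‖ * ‖b1‖ := norm_inner_le_norm _ _
        _ ≤ (‖K‖ * ‖b1‖) * ‖b1‖ := mul_le_mul_of_nonneg_right (K.le_opNorm _) (norm_nonneg _)
        _ = ‖K‖ * ‖b1‖ ^ 2 := by ring
    rw [BB_self] at h1
    have h2 := h.trans h1
    exact le_of_mul_le_mul_right h2 (by positivity)
  have hK0 : 0 < ‖K‖ := lt_of_lt_of_le hκ hKn
  obtain ⟨μ, hμ, hμn⟩ := spectrum.exists_nnnorm_eq_spectralRadius (A := H →L[ℂ] H) K
  have hμ1 : ‖μ‖ = ‖K‖ := by
    rw [hsa.spectralRadius_eq_nnnorm] at hμn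
    have := ENNReal.coe_inj.1 hμn
    exact congrArg NNReal.toReal this
  have hμ0 : μ ≠ 0 := by
    intro h0
    rw [h0, norm_zero] at hμ1
    linarith
  have heig := (hKc.hasEigenvalue_iff_mem_spectrum hμ0).2 hμ
  have hfd := ContinuousLinearMap.finite_dimensional_eigenspace hKc μ hμ0
  obtain ⟨v, hv, hv0, hve⟩ := common_eigen (ι := G) (M := H)
    (fun a => ((T a).toLinearEquiv : H →ₗ[ℂ] H)) (fun a c x => by
      show T a (T c x) = T c (T a x)
      rw [← hT, ← hT, add_comm]) _ (Module.End.eigenspace (K : H →ₗ[ℂ] H) μ)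
    heig hfd le_rfl (by
      intro a x hx
      rw [Module.End.mem_eigenspace_iff] at hx ⊢
      show K (T a x) = μ • T a x
      have hx' : K x = μ • x := hx
      rw [hcomm, hx', map_smul])
  have hve' : ∀ a, ∃ c : ℂ, T a v = c • v := hve
  have hKv : K v = μ • v := Module.End.mem_eigenspace_iff.1 hv
  have hvn : 0 < ‖v‖ := norm_pos_iff.2 hv0
  refine ⟨((‖v‖⁻¹ : ℝ) : ℂ) • v, ?_, ?_, ?_⟩
  · rw [norm_smul, Complex.norm_real, norm_inv, norm_norm, inv_mul_cancel₀ hvn.ne']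
  · intro a
    obtain ⟨c, hc⟩ := hve' a
    refine ⟨c, ?_⟩
    rw [map_smul, hc, smul_comm]
  · have h1 : ∀ a, ‖⟪v, T a b⟫_ℂ‖ ^ 2 = ‖⟪v, b⟫_ℂ‖ ^ 2 := by
      intro a
      obtain ⟨c, hc⟩ := hve' (-a)
      have hc1 : ‖c‖ = 1 := by
        have h2 : ‖T (-a) v‖ = ‖v‖ := (T (-a)).norm_map v
        rw [hc, norm_smul] at h2
        exact mul_right_cancel₀ hvn.ne' (by rw [h2, one_mul])
      rw [← (T (-a)).inner_map_map v (T a b), ← hT, neg_add_cancel, hT0, hc, inner_smul_left, norm_mul,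
        RCLike.norm_conj, hc1, one_mul]
    have h2 : BB T L b v v = ((‖⟪v, b⟫_ℂ‖ ^ 2 : ℝ) : ℂ) := by
      rw [BB_self, M_congr L (fun a => by rw [h1 a]), hL.const]
    rw [← hK, hKv, inner_smul_left, inner_self_eq_norm_sq_to_K] at h2
    have h3 := congrArg norm h2
    rw [norm_mul, RCLike.norm_conj, hμ1, Complex.norm_real, Real.norm_eq_abs,
      abs_of_nonneg (by positivity)] at h3
    have h4 : ‖((‖v‖ : ℂ)) ^ 2‖ = ‖v‖ ^ 2 := by
      rw [norm_pow, Complex.norm_real, norm_norm]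
    have h5 : ‖K‖ * ‖v‖ ^ 2 = ‖⟪v, b⟫_ℂ‖ ^ 2 := by
      rw [← h3]
      congr 1
      exact h4.symm
    rw [inner_smul_left, norm_mul, RCLike.norm_conj, Complex.norm_real, norm_inv, norm_norm, mul_pow,
      inv_pow, ← h5]
    field_simp
    exact hKn

end

end Pool.Agent.V11180.BG
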