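import Pool.Agent.V11180.BG.Ex
import Pool.Agent.V11180.BG.W

/-! The Hilbert space of an invariant mean, and the inverse theorem. -/

set_option autoImplicit false
open Filter Topology Finset
open scoped ComplexConjugate InnerProductSpace

namespace Pool.Agent.V11180.BG

universe u

/-- invariant means, bundled -/
abbrev MG (G : Type u) [AddCommGroup G] : Type u := {M : (G → ℂ) →ₗ[ℂ] ℂ // IsMn M ∧ Inv M}

section
variable {G : Type u} [AddCommGroup G]

set_option linter.unusedVariables false in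
/-- the pre-Hilbert space of a mean -/
def PreV (M : MG G) : Type u := BC G

variable (M : MG G)

noncomputable instance : AddCommGroup (PreV M) := inferInstanceAs (AddCommGroup (BC G))
noncomputable instance : Module ℂ (PreV M) := inferInstanceAs (Module ℂ (BC G))

/-- the identity map to the pre-Hilbert space -/
noncomputable def toV : (BC G) ≃ₗ[ℂ] PreV M := LinearEquiv.refl ℂ _

/-- the inner product of functions -/
noncomputable def ip (f g : BC G) : ℂ := M.1 (fun x => conj (f.1 x) * g.1 x)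

theorem ip_self (f : BC G) : ip M f f = M.1 (fun x => ((‖f.1 x‖ ^ 2 : ℝ) : ℂ)) :=
  M_congr M.1 fun x => (nsq_eq _).symm

/-- the inner product -/
noncomputable abbrev preCore : PreInnerProductSpace.Core ℂ (PreV M) where
  inner a b := ip M ((toV M).symm a) ((toV M).symm b)
  conj_inner_symm a b := by
    unfold ip
    rw [← M.2.1.conj (Bd.mul (Bd.conj (Subtype.prop _)) (Subtype.prop _))]
    refine M_congr M.1 fun x => ?_
    rw [map_mul, Complex.conj_conj, mul_comm]
  re_inner_nonneg a := by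
    rw [ip_self]
    exact M.2.1.nsq_nonneg (Subtype.prop _)
  add_left a b c := by
    rw [map_add]
    unfold ip
    rw [← M_add]
    refine M_congr M.1 fun x => ?_
    show conj (((toV M).symm a).1 x + ((toV M).symm b).1 x) * _ = _
    rw [map_add, add_mul]
  smul_left a b r := by
    rw [map_smul]
    unfold ip
    rw [← M_cmul]
    refine M_congr M.1 fun x => ?_
    show conj (r * ((toV M).symm a).1 x) * _ = _
    rw [map_mul, mul_assoc]

noncomputable instance : SeminormedAddCommGroup (PreV M) :=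
  InnerProductSpace.Core.toSeminormedAddCommGroup (c := preCore M)
noncomputable instance : InnerProductSpace ℂ (PreV M) :=
  InnerProductSpace.ofCore (preCore M)

theorem inner_toV (f g : BC G) : ⟪toV M f, toV M g⟫_ℂ = ip M f g := rfl

/-- the Hilbert space -/
abbrev HH : Type u := UniformSpace.Completion (PreV M)

/-- the canonical map -/
noncomputable def io : (BC G) →ₗ[ℂ] HH M :=
  (UniformSpace.Completion.toComplL (𝕜 := ℂ) (E := PreV M)).toLinearMap ∘ₗ (toV M).toLinearMap

theorem io_apply (f : BC G) : io M f = ((toV M f : PreV M) : HH M) := rfl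

theorem io_dense : DenseRange (io M) := by
  have h : DenseRange ((↑) : PreV M → HH M) := UniformSpace.Completion.denseRange_coe
  exact h.comp (toV M).surjective.denseRange (UniformSpace.Completion.continuous_coe _)

theorem inner_io (f g : BC G) : ⟪io M f, io M g⟫_ℂ = ip M f g := by
  rw [io_apply, io_apply, UniformSpace.Completion.inner_coe, inner_toV]

theorem norm_io_sq (f : BC G) : ‖io M f‖ ^ 2 = (M.1 (fun x => ((‖f.1 x‖ ^ 2 : ℝ) : ℂ))).re := by
  rw [← inner_self_eq_norm_sq (𝕜 := ℂ), inner_io, ip_self]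
  rfl

theorem norm_io_eq (f g : BC G) (h : ip M f f = ip M g g) :
    ‖io M f‖ = ‖io M g‖ := by
  have h1 : ‖io M f‖ ^ 2 = ‖io M g‖ ^ 2 := by
    rw [← inner_self_eq_norm_sq (𝕜 := ℂ), ← inner_self_eq_norm_sq (𝕜 := ℂ), inner_io, inner_io, h]
  exact (pow_left_inj₀ (norm_nonneg _) (norm_nonneg _) (by norm_num)).1 h1

/-- translation -/
noncomputable def shE (a : G) : (BC G) ≃ₗ[ℂ] (BC G) where
  toFun f := ⟨fun x => f.1 (x + a), Bd.comp f.2 _⟩
  invFun f := ⟨fun x => f.1 (x + -a), Bd.comp f.2 _⟩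
  map_add' f g := rfl
  map_smul' c f := rfl
  left_inv f := by
    apply Subtype.ext
    funext x
    show f.1 (x + -a + a) = f.1 x
    rw [neg_add_cancel_right]
  right_inv f := by
    apply Subtype.ext
    funext x
    show f.1 (x + a + -a) = f.1 x
    rw [add_neg_cancel_right]

/-- the Koopman operators -/
noncomputable def UU (a : G) : HH M ≃ₗᵢ[ℂ] HH M :=
  (shE a).extendOfIsometry (io M) (io M) (io_dense M) (io_dense M) (by
    intro f
    apply norm_io_eq
    exact M.2.2 (fun x => conj (f.1 x) * f.1 x) (Bd.mul (Bd.conj f.2) f.2) a)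

theorem UU_io (a : G) (f : BC G) : UU M a (io M f) = io M (shE a f) :=
  LinearEquiv.extendOfIsometry_eq _ _ _ _ _ _ _

theorem UU_add (a c : G) (x : HH M) : UU M (a + c) x = UU M a (UU M c x) := by
  refine (io_dense M).induction_on (p := fun x => UU M (a + c) x = UU M a (UU M c x)) x ?_ ?_
  · exact isClosed_eq (UU M (a + c)).continuous ((UU M a).continuous.comp (UU M c).continuous)
  · intro f
    rw [UU_io, UU_io, UU_io]
    congr 1
    apply Subtype.ext
    funext x
    show f.1 (x + (a + c)) = f.1 (x + a + c)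
    rw [add_assoc]

/-- characters -/
def IsCh (ψ : G → ℂ) : Prop := (∀ a b, ψ (a + b) = ψ a * ψ b) ∧ ∀ a, ‖ψ a‖ = 1

omit [AddCommGroup G] in
theorem conj_mul_one {z : ℂ} (h : ‖z‖ = 1) : conj z * z = 1 := by
  rw [← nsq_eq, h]
  norm_num

/-- the inverse theorem -/
theorem inv2 {N : (G → ℂ) →ₗ[ℂ] ℂ} (hN : IsMn N) (hNI : Inv N) (hE : Ex N)
    {L : (G → ℂ) →ₗ[ℂ] ℂ} (hL : IsMn L) (hLI : Inv L) {b b1 : G → ℂ} (hb : Bd b) (hb1 : Bd b1)
    (ε : ℝ) (hε : 0 ≤ ε) (h : ∀ ψ : G → ℂ, IsCh ψ → ‖N (fun x => conj (ψ x) * b x)‖ ≤ ε) :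
    (L (fun a => ((‖N (fun x => conj (b1 x) * b (x + a))‖ ^ 2 : ℝ) : ℂ))).re ≤
      ε ^ 2 * (N (fun x => ((‖b1 x‖ ^ 2 : ℝ) : ℂ))).re := by
  by_contra hcon
  push Not at hcon
  set S := (L (fun a => ((‖N (fun x => conj (b1 x) * b (x + a))‖ ^ 2 : ℝ) : ℂ))).re with hS
  set β := (N (fun x => ((‖b1 x‖ ^ 2 : ℝ) : ℂ))).re with hβ
  have hβ0 : 0 ≤ β := hN.nsq_nonneg hb1
  have hS0 : 0 < S := lt_of_le_of_lt (by positivity) hcon
  have hβpos : 0 < β := by
    rcases hβ0.eq_or_lt with h0 | h0
    · exfalso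
      have h1 : ∀ a, ‖N (fun x => conj (b1 x) * b (x + a))‖ ^ 2 = 0 := by
        intro a
        have h2 := hN.cs hb1.conj (hb.comp (fun x => x + a))
        have h3 : (N (fun x => ((‖conj (b1 x)‖ ^ 2 : ℝ) : ℂ))).re = 0 := by
          rw [h0, hβ]
          congr 1
          refine M_congr N fun x => ?_
          rw [RCLike.norm_conj]
        rw [h3, zero_mul] at h2
        exact le_antisymm h2 (by positivity)
      have h2 : S = 0 := by
        rw [hS, M_congr L (fun a => by rw [h1 a]), hL.const]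
        simp
      linarith
    · exact h0
  let M : MG G := ⟨N, hN, hNI⟩
  let bb : BC G := ⟨b, hb⟩
  let bb1 : BC G := ⟨b1, hb1⟩
  have hn1 : ‖io M bb1‖ ^ 2 = β := norm_io_sq M bb1
  have hne : io M bb1 ≠ 0 := by
    intro h0
    rw [h0, norm_zero] at hn1
    norm_num at hn1
    linarith
  obtain ⟨v, hv1, hve, hvb⟩ := opW (UU M) (io M bb) hL hLI (UU_add M) (io M bb1) hne (S / β)
    (by positivity) (by
      rw [hn1, div_mul_cancel₀ _ hβpos.ne']
      refine le_of_eq ?_
      rw [hS]
      congr 1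
      refine M_congr L fun a => ?_
      rw [UU_io, inner_io]
      rfl)
  choose c hc using hve
  have hv0 : v ≠ 0 := by
    rintro rfl
    simp at hv1
  have hcch : IsCh c := by
    constructor
    · intro a a'
      have h1 := UU_add M a a' v
      rw [hc, hc, map_smul, hc, smul_smul] at h1
      rw [mul_comm]
      exact smul_left_injective ℂ hv0 h1
    · intro a
      have h2 : ‖UU M a v‖ = ‖v‖ := (UU M a).norm_map v
      rw [hc, norm_smul, hv1, mul_one] at h2
      exact h2
  have hkey : ∀ ρ : ℝ, 0 < ρ → ‖⟪v, io M bb⟫_ℂ‖ ≤ ρ * ‖io M bb‖ + ε * (1 + ρ) := by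
    intro ρ hρ
    obtain ⟨w, hw⟩ := Metric.mem_closure_iff.1 ((io_dense M) v) ρ hρ
    obtain ⟨⟨f, rfl⟩, hw⟩ := hw
    rw [dist_eq_norm] at hw
    have h1 : ∀ a, ‖⟪v, io M bb⟫_ℂ - c a * N (fun x => conj (f.1 (x + a)) * b x)‖ ≤
        ρ * ‖io M bb‖ := by
      intro a
      have e1 : v = conj (c a) • UU M a v := by
        rw [hc, smul_smul, conj_mul_one (hcch.2 a), one_smul]
      have e2 : ⟪v, io M bb⟫_ℂ = c a * ⟪UU M a v, io M bb⟫_ℂ := by
        conv_lhs => rw [e1]
        rw [inner_smul_left, Complex.conj_conj]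
      have e3 : N (fun x => conj (f.1 (x + a)) * b x) = ⟪UU M a (io M f), io M bb⟫_ℂ := by
        rw [UU_io, inner_io]
        rfl
      rw [e2, e3, ← mul_sub, norm_mul, hcch.2, one_mul, ← inner_sub_left, ← map_sub]
      refine (norm_inner_le_norm _ _).trans ?_
      rw [(UU M a).norm_map]
      exact mul_le_mul_of_nonneg_right hw.le (norm_nonneg _)
    have h2 : L (fun a => c a * N (fun x => conj (f.1 (x + a)) * b x)) =
        N (fun x => conj (c x) * b x) * N (fun x => c x * conj (f.1 x)) := by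
      rw [← hE L hL hLI (fun x => conj (c x) * b x) (fun x => c x * conj (f.1 x))
        ((Bd.of1 fun x => (hcch.2 x).le).conj.mul hb) ((Bd.of1 fun x => (hcch.2 x).le).mul (Bd.conj f.2))]
      refine M_congr L fun a => ?_
      rw [← M_cmul]
      refine M_congr N fun x => ?_
      rw [hcch.1 x a]
      have := conj_mul_one (hcch.2 x)
      linear_combination (-(c a * conj (f.1 (x + a)) * b x)) * this
    have h3 : ‖L (fun a => ⟪v, io M bb⟫_ℂ - c a * N (fun x => conj (f.1 (x + a)) * b x))‖ ≤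
        ρ * ‖io M bb‖ := hL.norm_le _ h1
    rw [M_sub, hL.const, h2] at h3
    have h4 : ‖N (fun x => c x * conj (f.1 x))‖ ^ 2 ≤ ‖io M f‖ ^ 2 := by
      have := hN.cs1 (fun x => (hcch.2 x).le) (Bd.conj f.2)
      rw [norm_io_sq]
      refine this.trans (le_of_eq ?_)
      congr 1
      refine M_congr N fun x => ?_
      rw [RCLike.norm_conj]
    have h5 : ‖N (fun x => c x * conj (f.1 x))‖ ≤ ‖io M f‖ := by
      exact le_of_sq_le_sq h4 (norm_nonneg _)
    have h6 : ‖io M f‖ ≤ 1 + ρ := by
      have : io M f = v - (v - io M f) := by abel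
      rw [this]
      refine (norm_sub_le _ _).trans ?_
      rw [hv1]
      linarith
    have h7 := h c hcch
    calc ‖⟪v, io M bb⟫_ℂ‖ = ‖(⟪v, io M bb⟫_ℂ - N (fun x => conj (c x) * b x) *
          N (fun x => c x * conj (f.1 x))) + N (fun x => conj (c x) * b x) *
          N (fun x => c x * conj (f.1 x))‖ := by congr 1; ring
      _ ≤ _ := norm_add_le _ _
      _ ≤ ρ * ‖io M bb‖ + ε * (1 + ρ) := by
        refine add_le_add h3 ?_
        rw [norm_mul]
        exact mul_le_mul h7 (h5.trans h6) (norm_nonneg _) hε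
  have hfin : ‖⟪v, io M bb⟫_ℂ‖ ≤ ε := by
    refine le_of_forall_pos_le_add fun η hη => ?_
    have h1 := hkey (η / (‖io M bb‖ + ε + 1)) (by positivity)
    refine h1.trans ?_
    have h2 : η / (‖io M bb‖ + ε + 1) * (‖io M bb‖ + ε) ≤ η := by
      rw [div_mul_eq_mul_div, div_le_iff₀ (by positivity)]
      nlinarith
    linarith
  have h1 : ‖⟪v, io M bb⟫_ℂ‖ ^ 2 ≤ ε ^ 2 := pow_le_pow_left₀ (norm_nonneg _) hfin 2
  have h2 := hvb.trans h1
  rw [div_le_iff₀ hβpos] at h2
  linarith

end

end Pool.Agent.V11180.BG
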