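import Pool.Agent.V11180.BG.Gns

/-! The structured part of a function. -/

set_option autoImplicit false
open Filter Topology Finset
open scoped ComplexConjugate

namespace Pool.Agent.V11180.BG

universe u

section
variable {G : Type u} [AddCommGroup G] {M : (G → ℂ) →ₗ[ℂ] ℂ} (hM : IsMn M) (hMI : Inv M)

theorem IsCh.bd {ψ : G → ℂ} (h : IsCh ψ) : Bd ψ := Bd.of1 fun x => (h.2 x).le

include hMI in
theorem ch_orth {ψ ψ' : G → ℂ} (h : IsCh ψ) (h' : IsCh ψ') (hne : ψ ≠ ψ') :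
    M (fun x => conj (ψ x) * ψ' x) = 0 := by
  obtain ⟨a, ha⟩ := Function.ne_iff.1 hne
  have h1 := hMI (fun x => conj (ψ x) * ψ' x) (h.bd.conj.mul h'.bd) a
  have h2 : M (fun x => conj (ψ (x + a)) * ψ' (x + a)) =
      (conj (ψ a) * ψ' a) * M (fun x => conj (ψ x) * ψ' x) := by
    rw [← M_cmul]
    refine M_congr M fun x => ?_
    rw [h.1, h'.1, map_mul]
    ring
  rw [h2] at h1
  by_contra h0
  have h3 : conj (ψ a) * ψ' a = 1 := mul_right_cancel₀ h0 (by rw [h1, one_mul])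
  have h4 := conj_mul_one (h.2 a)
  apply ha
  calc ψ a = ψ a * (conj (ψ a) * ψ' a) := by rw [h3, mul_one]
    _ = (conj (ψ a) * ψ a) * ψ' a := by ring
    _ = ψ' a := by rw [h4, one_mul]

/-- the coefficient -/
noncomputable def cf (M : (G → ℂ) →ₗ[ℂ] ℂ) (f ψ : G → ℂ) : ℂ := M (fun x => conj (ψ x) * f x)

/-- the projection -/
noncomputable def fS (M : (G → ℂ) →ₗ[ℂ] ℂ) (f : G → ℂ) (Q : Finset (G → ℂ)) (x : G) : ℂ :=
  ∑ ψ ∈ Q, cf M f ψ * ψ x

theorem fS_bd (f : G → ℂ) (Q : Finset (G → ℂ)) (hQ : ∀ ψ ∈ Q, IsCh ψ) : Bd (fS M f Q) :=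
  Bd.sum Q fun ψ hψ => (hQ ψ hψ).bd.cmul _

include hM hMI in
open Classical in
theorem cf_sub (f : G → ℂ) (Q : Finset (G → ℂ)) (hQ : ∀ ψ ∈ Q, IsCh ψ) {ψ : G → ℂ} (hψ : IsCh ψ) :
    cf M (fun x => f x - fS M f Q x) ψ = if ψ ∈ Q then 0 else cf M f ψ := by
  have h1 : cf M (fun x => f x - fS M f Q x) ψ =
      cf M f ψ - ∑ ψ' ∈ Q, cf M f ψ' * M (fun x => conj (ψ x) * ψ' x) := by
    unfold cf
    rw [← sum_congr rfl fun ψ' _ => M_cmul M _ _, ← M_sum, ← M_sub]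
    refine M_congr M fun x => ?_
    rw [mul_sub]
    congr 1
    unfold fS
    rw [mul_sum]
    refine sum_congr rfl fun ψ' _ => ?_
    unfold cf
    ring
  rw [h1]
  have h2 : M (fun x => conj (ψ x) * ψ x) = 1 := by
    rw [← hM.one]
    refine M_congr M fun x => conj_mul_one (hψ.2 x)
  split_ifs with hin
  · rw [sum_eq_single ψ, h2, mul_one, sub_self]
    · intro ψ' hψ' hne
      rw [ch_orth hMI hψ (hQ ψ' hψ') hne.symm, mul_zero]
    · intro h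
      exact absurd hin h
  · rw [sum_eq_zero, sub_zero]
    intro ψ' hψ'
    rw [ch_orth hMI hψ (hQ ψ' hψ') (fun h => hin (h ▸ hψ')), mul_zero]

include hM hMI in
theorem bessel {f : G → ℂ} (hf : Bd f) (Q : Finset (G → ℂ)) (hQ : ∀ ψ ∈ Q, IsCh ψ) :
    (M (fun x => ((‖f x - fS M f Q x‖ ^ 2 : ℝ) : ℂ))).re =
      (M (fun x => ((‖f x‖ ^ 2 : ℝ) : ℂ))).re - ∑ ψ ∈ Q, ‖cf M f ψ‖ ^ 2 := by
  classical
  induction Q using Finset.induction_on with
  | empty => simp [fS]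
  | insert ψ Q hψQ ih =>
    have hQ' : ∀ ψ ∈ Q, IsCh ψ := fun ψ' h => hQ ψ' (mem_insert_of_mem h)
    have hψ : IsCh ψ := hQ ψ (mem_insert_self _ _)
    have e1 : ∀ x, ((‖f x - fS M f (insert ψ Q) x‖ ^ 2 : ℝ) : ℂ) =
        ((‖(f x - fS M f Q x) - cf M f ψ * ψ x‖ ^ 2 : ℝ) : ℂ) := by
      intro x
      congr 3
      unfold fS
      rw [sum_insert hψQ]
      ring
    rw [M_congr M e1, hM.sq_sub (f := fun x => f x - fS M f Q x) (hf.sub (fS_bd f Q hQ')) hψ.bd,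
      ih hQ', sum_insert hψQ]
    have e2 : M (fun x => (f x - fS M f Q x) * conj (ψ x)) = cf M f ψ := by
      have := cf_sub hM hMI f Q hQ' hψ
      rw [if_neg hψQ] at this
      rw [← this]
      unfold cf
      refine M_congr M fun x => ?_
      rw [mul_comm]
    have e3 : (M (fun x => ((‖ψ x‖ ^ 2 : ℝ) : ℂ))).re = 1 := by
      have : ∀ x, ((‖ψ x‖ ^ 2 : ℝ) : ℂ) = 1 := fun x => by rw [hψ.2]; norm_num
      rw [M_congr M this, hM.one, Complex.one_re]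
    have e4 : (conj (cf M f ψ) * cf M f ψ).re = ‖cf M f ψ‖ ^ 2 := by
      rw [← nsq_eq, Complex.ofReal_re]
    rw [e2, e3, e4]
    ring

include hM hMI in
theorem exists_Q {f : G → ℂ} (hf : Bd f) (h1 : (M (fun x => ((‖f x‖ ^ 2 : ℝ) : ℂ))).re ≤ 1)
    (ε : ℝ) (hε : 0 < ε) : ∃ Q : Finset (G → ℂ), (∀ ψ ∈ Q, IsCh ψ) ∧
      (∀ ψ ∈ Q, cf M f ψ ≠ 0) ∧ Q.card * ε ^ 2 ≤ 1 ∧
      (∀ ψ, IsCh ψ → ‖cf M (fun x => f x - fS M f Q x) ψ‖ ≤ ε) ∧
      (M (fun x => ((‖f x - fS M f Q x‖ ^ 2 : ℝ) : ℂ))).re ≤ 1 := by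
  classical
  have hcard : ∀ Q : Finset (G → ℂ), (∀ ψ ∈ Q, IsCh ψ ∧ ε ≤ ‖cf M f ψ‖) → Q.card * ε ^ 2 ≤ 1 := by
    intro Q hQ
    have h2 := bessel hM hMI hf Q fun ψ hψ => (hQ ψ hψ).1
    have h3 := hM.nsq_nonneg (hf.sub (fS_bd (M := M) f Q fun ψ hψ => (hQ ψ hψ).1))
    rw [h2] at h3
    have h4 : ∑ ψ ∈ Q, ε ^ 2 ≤ ∑ ψ ∈ Q, ‖cf M f ψ‖ ^ 2 :=
      sum_le_sum fun ψ hψ => pow_le_pow_left₀ hε.le (hQ ψ hψ).2 2
    rw [sum_const, nsmul_eq_mul] at h4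
    linarith
  have hfin : {ψ : G → ℂ | IsCh ψ ∧ ε ≤ ‖cf M f ψ‖}.Finite := by
    by_contra hinf
    obtain ⟨n, hn⟩ := exists_nat_gt (1 / ε ^ 2)
    obtain ⟨Q, hQ, hQc⟩ := Set.Infinite.exists_subset_card_eq hinf n
    have h2 := hcard Q fun ψ hψ => hQ hψ
    rw [hQc] at h2
    rw [div_lt_iff₀ (by positivity)] at hn
    linarith
  have hmem : ∀ ψ, ψ ∈ hfin.toFinset ↔ (IsCh ψ ∧ ε ≤ ‖cf M f ψ‖) := fun ψ => by
    rw [Set.Finite.mem_toFinset]
    rfl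
  refine ⟨hfin.toFinset, fun ψ hψ => ((hmem ψ).1 hψ).1, fun ψ hψ h0 => ?_,
    hcard _ fun ψ hψ => (hmem ψ).1 hψ, ?_, ?_⟩
  · have h2 := ((hmem ψ).1 hψ).2
    rw [h0, norm_zero] at h2
    linarith
  · intro ψ hψ
    rw [cf_sub hM hMI f _ (fun ψ hψ => ((hmem ψ).1 hψ).1) hψ]
    split_ifs with hin
    · rw [norm_zero]
      exact hε.le
    · by_contra hlt
      push Not at hlt
      exact hin ((hmem ψ).2 ⟨hψ, hlt.le⟩)
  · rw [bessel hM hMI hf _ fun ψ hψ => ((hmem ψ).1 hψ).1]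
    have : 0 ≤ ∑ ψ ∈ hfin.toFinset, ‖cf M f ψ‖ ^ 2 := by positivity
    linarith

/-- divisibility of the circle -/
noncomputable instance : DivisibleBy (Additive Circle) ℤ :=
  divisibleByOfSMulRightSurj (Additive Circle) ℤ fun {n} hn z => by
    refine ⟨Circle.expHom (Complex.arg ((Additive.toMul z : Circle) : ℂ) / n), ?_⟩
    show n • Circle.expHom (Complex.arg ((Additive.toMul z : Circle) : ℂ) / n) = z
    have hn' : (n : ℝ) ≠ 0 := by exact_mod_cast hn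
    rw [← map_zsmul, zsmul_eq_mul, mul_div_cancel₀ _ hn']
    exact congrArg Additive.ofMul (Circle.exp_arg (Additive.toMul z))

/-- extension of characters -/
theorem ext_ch {S : Type u} [AddCommGroup S] (p : S →+ G) {ψ : S → ℂ} (hψ : IsCh ψ)
    (h : ∀ x, p x = 0 → ψ x = 1) :
    ∃ θ : G → ℂ, IsCh θ ∧ ∀ x, θ (p x) = ψ x := by
  let ψ' : S →+ Additive Circle := AddMonoidHom.mk'
    (fun x => Additive.ofMul (⟨ψ x, mem_sphere_zero_iff_norm.2 (hψ.2 x)⟩ : Circle)) (by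
      intro a b
      apply Additive.toMul.injective
      apply Circle.ext
      exact hψ.1 a b)
  have hψ' : ∀ x, ((Additive.toMul (ψ' x) : Circle) : ℂ) = ψ x := fun x => rfl
  have hker : p.ker ≤ ψ'.ker := by
    intro x hx
    rw [AddMonoidHom.mem_ker]
    apply Additive.toMul.injective
    apply Circle.ext
    exact h x hx
  let g : p.range →+ Additive Circle :=
    (QuotientAddGroup.lift p.ker ψ' hker).comp
      (QuotientAddGroup.quotientKerEquivRange p).symm.toAddMonoidHom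
  have hg : ∀ x, g ⟨p x, x, rfl⟩ = ψ' x := by
    intro x
    have h1 : (QuotientAddGroup.quotientKerEquivRange p) (x : S ⧸ p.ker) = ⟨p x, x, rfl⟩ := rfl
    show (QuotientAddGroup.lift p.ker ψ' hker) ((QuotientAddGroup.quotientKerEquivRange p).symm _) = _
    rw [← h1, AddEquiv.symm_apply_apply]
    rfl
  obtain ⟨θ, hθ⟩ := (Module.Baer.of_divisible (Additive Circle)).extension_property_addMonoidHom
    p.range.subtype Subtype.val_injective g
  refine ⟨fun x => ((Additive.toMul (θ x) : Circle) : ℂ), ⟨fun a b => ?_, fun a => ?_⟩, fun x => ?_⟩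
  · show ((Additive.toMul (θ (a + b)) : Circle) : ℂ) =
      ((Additive.toMul (θ a) : Circle) : ℂ) * ((Additive.toMul (θ b) : Circle) : ℂ)
    rw [map_add, toMul_add, Circle.coe_mul]
  · exact Circle.norm_coe _
  · have h1 : θ (p x) = g ⟨p x, x, rfl⟩ := by
      rw [← hθ]
      rfl
    show ((Additive.toMul (θ (p x)) : Circle) : ℂ) = ψ x
    rw [h1, hg, hψ']

end

end Pool.Agent.V11180.BG
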