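import Pool.Agent.V11180.BG.Fin
import Pool.Agent.V11180.BG.Str

/-! The control by characters of an extreme mean on the kernel of a sum of endomorphisms. -/

set_option autoImplicit false
open Filter Topology Finset
open scoped ComplexConjugate

namespace Pool.Agent.V11180.BG

universe u v

section prodmean
variable {A : Type u} {B : Type v}

/-- the iterated mean -/
noncomputable def pm (L : (A → ℂ) →ₗ[ℂ] ℂ) (L' : (B → ℂ) →ₗ[ℂ] ℂ) : (A × B → ℂ) →ₗ[ℂ] ℂ where
  toFun f := L (fun a => L' (fun b => f (a, b)))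
  map_add' f g := by
    rw [← M_add]
    refine M_congr L fun a => ?_
    rw [← M_add]
    rfl
  map_smul' c f := by
    rw [RingHom.id_apply, smul_eq_mul, ← M_cmul]
    refine M_congr L fun a => ?_
    rw [← M_cmul]
    rfl

theorem pm_apply (L : (A → ℂ) →ₗ[ℂ] ℂ) (L' : (B → ℂ) →ₗ[ℂ] ℂ) (f : A × B → ℂ) :
    pm L L' f = L (fun a => L' (fun b => f (a, b))) := rfl

variable {L : (A → ℂ) →ₗ[ℂ] ℂ} {L' : (B → ℂ) →ₗ[ℂ] ℂ} (hL : IsMn L) (hL' : IsMn L')
include hL hL'

theorem pm_mn : IsMn (pm L L') := by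
  constructor
  · intro f C hf h0
    have h1 : ∀ a, L' (fun b => (f (a, b) : ℂ)) = (((L' (fun b => (f (a, b) : ℂ))).re : ℝ) : ℂ) := by
      intro a
      apply Complex.ext
      · rw [Complex.ofReal_re]
      · rw [Complex.ofReal_im]
        exact (hL'.nn (fun b => f (a, b)) C (fun x => hf _) fun x => h0 _).2
    rw [pm_apply, M_congr L h1]
    refine hL.nn (fun a => (L' (fun b => (f (a, b) : ℂ))).re) C (fun t => ?_) fun t => ?_
    · exact (Complex.abs_re_le_norm _).trans (hL'.norm_le C fun x => by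
        rw [Complex.norm_real]; exact hf _)
    · exact (hL'.nn (fun b => f (t, b)) C (fun x => hf _) fun x => h0 _).1
  · rw [pm_apply]
    simp only [hL'.one, hL.one]

omit hL in
theorem pm_inv [AddCommGroup A] [AddCommGroup B] (hLI : Inv L) (hLI' : Inv L') : Inv (pm L L') := by
  rintro f ⟨C, hC⟩ ⟨a0, b0⟩
  rw [pm_apply, pm_apply, ← hLI (fun a => L' (fun b => f (a, b))) (hL'.bd2 C fun a b => hC _) a0]
  refine M_congr L fun a => ?_
  rw [← hLI' (fun b => f (a + a0, b)) ⟨C, fun b => hC _⟩ b0]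
  rfl

end prodmean

section fin2
variable {S : Type u} [AddCommGroup S] {M : (S → ℂ) →ₗ[ℂ] ℂ} (hM : IsMn M) (hMI : Inv M) (hE : Ex M)
include hM hMI hE

/-- the finite index formula -/
theorem fin2 {Ka Kb N : AddSubgroup S} (hN : N ≤ Ka ⊔ Kb) [Fintype (S ⧸ N)] {a b : S → ℂ}
    (ha : Bd a) (hb : Bd b) (hai : ∀ s ∈ Ka, ∀ x, a (x + s) = a x)
    (hbi : ∀ s ∈ Kb, ∀ x, b (x + s) = b x) : M (fun x => a x * b x) =
      ∑ χ : AddChar (S ⧸ N) ℂ, M (fun x => conj (χ (x : S ⧸ N)) * a x) *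
        M (fun x => χ (x : S ⧸ N) * b x) := by
  classical
  obtain ⟨L, hL, hLI⟩ := exists_inv S
  have hch : ∀ χ : AddChar (S ⧸ N) ℂ, Bd (fun x : S => χ (x : S ⧸ N)) := fun χ => (isCh_q χ).bd
  have h1 : ∀ χ : AddChar (S ⧸ N) ℂ, M (fun x => conj (χ (x : S ⧸ N)) * a x) *
        M (fun x => χ (x : S ⧸ N) * b x) =
      L (fun s => χ (s : S ⧸ N) * M (fun x => a x * b (x + s))) := by
    intro χ
    rw [← hE L hL hLI (fun x => conj (χ (x : S ⧸ N)) * a x)
      (fun x => χ (x : S ⧸ N) * b x) ((hch χ).conj.mul ha) ((hch χ).mul hb)]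
    refine M_congr _ fun s => ?_
    rw [← M_cmul]
    refine M_congr M fun x => ?_
    have h1 : χ ((x + s : S) : S ⧸ N) = χ (x : S ⧸ N) * χ (s : S ⧸ N) := (isCh_q χ).1 x s
    have h2 : conj (χ (x : S ⧸ N)) * χ (x : S ⧸ N) = 1 := conj_mul_one ((isCh_q χ).2 x)
    rw [h1]
    linear_combination (χ (s : S ⧸ N) * a x * b (x + s)) * h2
  rw [sum_congr rfl fun χ _ => h1 χ, ← M_sum]
  have h3 : ∀ s : S, ∑ χ : AddChar (S ⧸ N) ℂ, χ (s : S ⧸ N) * M (fun x => a x * b (x + s)) =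
      (∑ χ : AddChar (S ⧸ N) ℂ, χ (s : S ⧸ N)) * M (fun x => a x * b x) := by
    intro s
    rw [← sum_mul, AddChar.sum_apply_eq_ite]
    split_ifs with hs
    · congr 1
      have hs' : s ∈ N := (QuotientAddGroup.eq_zero_iff _).1 hs
      obtain ⟨s1, hs1, s2, hs2, rfl⟩ := AddSubgroup.mem_sup.1 (hN hs')
      rw [← hMI (fun x => a x * b x) (ha.mul hb) s1]
      refine M_congr M fun x => ?_
      rw [hai s1 hs1, ← add_assoc, hbi s2 hs2]
    · rw [zero_mul, zero_mul]
  rw [M_congr _ h3, M_mulc, M_sum]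
  have h4 : ∑ χ : AddChar (S ⧸ N) ℂ, L (fun s => χ (s : S ⧸ N)) = 1 := by
    rw [sum_eq_single 0]
    · rw [← hL.one]
      exact M_congr L fun s => rfl
    · intro χ _ hχ
      have h5 : IsCh (fun _ : S => (1 : ℂ)) := ⟨fun _ _ => (mul_one _).symm, fun _ => norm_one⟩
      have h6 := ch_orth hLI h5 (isCh_q χ) (by
        intro h
        apply hχ
        ext q
        obtain ⟨s, rfl⟩ := QuotientAddGroup.mk_surjective q
        have := congrFun h s
        simpa using this.symm)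
      rw [← h6]
      refine M_congr L fun s => ?_
      rw [map_one, one_mul]
    · intro h
      exact absurd (mem_univ _) h
  rw [h4, one_mul]

end fin2

section
variable {ι : Type} [Fintype ι] [DecidableEq ι] {G : Type u} [AddCommGroup G] (φ : ι → G →+ G)

/-- the sum of the endomorphisms -/
def sg : (ι → G) →+ G where
  toFun t := ∑ j, φ j (t j)
  map_zero' := by simp
  map_add' a b := by
    rw [← sum_add_distrib]
    exact sum_congr rfl fun j _ => map_add _ _ _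

/-- its kernel -/
abbrev S0 : AddSubgroup (ι → G) := (sg φ).ker

omit [DecidableEq ι] in
theorem mem_S0 (t : ι → G) : t ∈ S0 φ ↔ ∑ j, φ j (t j) = 0 := Iff.rfl

/-- a coordinate of the kernel -/
def co (i : ι) : S0 φ →+ G := (Pi.evalAddMonoidHom (fun _ => G) i).comp (S0 φ).subtype

omit [DecidableEq ι] in
theorem co_apply (i : ι) (s : S0 φ) : co φ i s = s.1 i := rfl

theorem two_mem {i k : ι} (hik : i ≠ k) {a b : G} (h : φ i a + φ k b = 0) :
    (Pi.single i a + Pi.single k b : ι → G) ∈ S0 φ := by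
  rw [mem_S0]
  have h1 : ∀ j, φ j ((Pi.single i a + Pi.single k b : ι → G) j) = φ j ((Pi.single i a : ι → G) j) +
      φ j ((Pi.single k b : ι → G) j) := fun j => map_add _ _ _
  rw [sum_congr rfl fun j _ => h1 j, sum_add_distrib]
  have h2 : ∀ (i : ι) (g : G), ∑ j, φ j ((Pi.single i g : ι → G) j) = φ i g := by
    intro i g
    rw [Fintype.sum_eq_single i]
    · rw [Pi.single_eq_same]
    · intro j hj
      rw [Pi.single_eq_of_ne hj, map_zero]
  rw [h2, h2]
  exact h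

/-- the element of the kernel with two given coordinates -/
def two {i k : ι} (hik : i ≠ k) {a b : G} (h : φ i a + φ k b = 0) : S0 φ :=
  ⟨Pi.single i a + Pi.single k b, two_mem φ hik h⟩

theorem two_i {i k : ι} (hik : i ≠ k) {a b : G} (h : φ i a + φ k b = 0) :
    (two φ hik h).1 i = a := by
  show (Pi.single i a + Pi.single k b : ι → G) i = a
  rw [Pi.add_apply, Pi.single_eq_same, Pi.single_eq_of_ne hik, add_zero]

theorem two_k {i k : ι} (hik : i ≠ k) {a b : G} (h : φ i a + φ k b = 0) :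
    (two φ hik h).1 k = b := by
  show (Pi.single i a + Pi.single k b : ι → G) k = b
  rw [Pi.add_apply, Pi.single_eq_same, Pi.single_eq_of_ne hik.symm, zero_add]

theorem two_j {i k : ι} (hik : i ≠ k) {a b : G} (h : φ i a + φ k b = 0) {j : ι} (hji : j ≠ i)
    (hjk : j ≠ k) : (two φ hik h).1 j = 0 := by
  show (Pi.single i a + Pi.single k b : ι → G) j = 0
  rw [Pi.add_apply, Pi.single_eq_of_ne hji, Pi.single_eq_of_ne hjk, zero_add]

/-- pairs killed by two of the endomorphisms -/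
abbrev K2 (i k : ι) : AddSubgroup (G × G) := ((φ i).coprod (φ k)).ker

/-- the displacement -/
def dsS {i k : ι} (hik : i ≠ k) : K2 φ i k →+ S0 φ where
  toFun v := two φ hik (a := v.1.1) (b := v.1.2) v.2
  map_zero' := by
    apply Subtype.ext
    show (Pi.single i (0 : G) + Pi.single k (0 : G) : ι → G) = 0
    rw [Pi.single_zero, Pi.single_zero, add_zero]
  map_add' v w := by
    apply Subtype.ext
    show (Pi.single i (v.1.1 + w.1.1) + Pi.single k (v.1.2 + w.1.2) : ι → G) =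
      (Pi.single i v.1.1 + Pi.single k v.1.2) + (Pi.single i w.1.1 + Pi.single k w.1.2)
    rw [Pi.single_add, Pi.single_add]
    abel

/-- displacements together with the kernel of a coordinate -/
def dsK {i k : ι} (hik : i ≠ k) : K2 φ i k × (co φ i).ker →+ S0 φ :=
  (dsS φ hik).coprod ((co φ i).ker).subtype

variable {φ} {M : (S0 φ → ℂ) →ₗ[ℂ] ℂ} (hM : IsMn M) (hMI : Inv M) (hE : Ex M)

include hM hMI hE in
theorem ker_bound {i k : ι} (hik : i ≠ k) {N : AddSubgroup (S0 φ)}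
    (hN : N ≤ (co φ i).ker ⊔ (co φ k).ker) [Fintype (S0 φ ⧸ N)] [Fintype (S0 φ ⧸ (dsK φ hik).range)]
    (F : S0 φ → ℂ) (hF : Bd F) (hFi : ∀ s : S0 φ, s.1 i = 0 → ∀ x, F (x + s) = F x)
    (h : ι → G → ℂ) (hj : ∀ j x, ‖h j x‖ ≤ 1) (ε : ℝ) (hε : 0 ≤ ε)
    (hψ : ∀ ψ : S0 φ → ℂ, IsCh ψ → ‖M (fun x => conj (ψ x) * F x)‖ ≤ ε)
    (h1 : (M (fun x => ((‖F x‖ ^ 2 : ℝ) : ℂ))).re ≤ 1) :
    ‖M (fun x => F x * ∏ j ∈ univ.erase i, h j (x.1 j))‖ ^ 2 ≤ Fintype.card (S0 φ ⧸ N) *
      (√(Fintype.card (S0 φ ⧸ (dsK φ hik).range)) * ε) := by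
  classical
  obtain ⟨Λ, hΛ, hΛI⟩ := exists_inv (K2 φ i k)
  obtain ⟨Λ', hΛ', hΛI'⟩ := exists_inv ((co φ i).ker)
  have hki : k ≠ i := hik.symm
  -- splitting the product
  have hsplit : ∀ x : S0 φ, F x * ∏ j ∈ univ.erase i, h j (x.1 j) =
      (∏ j ∈ (univ.erase i).erase k, h j (x.1 j)) * (F x * h k (x.1 k)) := by
    intro x
    rw [← mul_prod_erase (univ.erase i) (fun j => h j (x.1 j)) (mem_erase.2 ⟨hki, mem_univ k⟩)]
    ring
  have hv := vdc (fun (v : K2 φ i k) (x : S0 φ) => x + dsS φ hik v) (fun v w x => by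
      rw [map_add]
      abel) hM (fun f hf v => hMI f hf _) hΛ hΛI
    (p := fun x => ∏ j ∈ (univ.erase i).erase k, h j (x.1 j))
    (q := fun x => F x * h k (x.1 k))
    (fun x => by
      rw [norm_prod]
      exact prod_le_one (fun j _ => norm_nonneg _) fun j _ => hj j _)
    (fun v x => by
      refine prod_congr rfl fun j hj' => ?_
      congr 1
      show x.1 j + (two φ hik v.2).1 j = x.1 j
      rw [two_j φ hik v.2 (mem_erase.1 (mem_erase.1 hj').2).1 (mem_erase.1 hj').1, add_zero])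
    (hF.mul ((Bd.of1 (hj k)).comp _))
  rw [M_congr M hsplit]
  refine hv.trans ?_
  clear hv
  set nD := Fintype.card (S0 φ ⧸ N) with hnD
  set nP := Fintype.card (S0 φ ⧸ (dsK φ hik).range) with hnP
  have hkb : ∀ x, ‖h k x‖ ≤ 1 := hj k
  -- the inner means
  set A : AddChar (S0 φ ⧸ N) ℂ → S0 φ → ℂ := fun χ s =>
    M (fun x => conj (χ (x : S0 φ ⧸ N)) * (conj (F x) * F (x + s))) with hA
  set B : AddChar (S0 φ ⧸ N) ℂ → K2 φ i k → ℂ := fun χ v =>
    M (fun x => χ (x : S0 φ ⧸ N) * (conj (h k (x.1 k)) * h k ((x + dsS φ hik v).1 k))) with hB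
  have hin : ∀ v : K2 φ i k, M (fun x => conj (F x * h k (x.1 k)) *
      (F (x + dsS φ hik v) * h k ((x + dsS φ hik v).1 k))) = ∑ χ, B χ v * A χ (dsS φ hik v) := by
    intro v
    have e1 : ∀ x : S0 φ, conj (F x * h k (x.1 k)) *
        (F (x + dsS φ hik v) * h k ((x + dsS φ hik v).1 k)) =
        (conj (F x) * F (x + dsS φ hik v)) * (conj (h k (x.1 k)) * h k ((x + dsS φ hik v).1 k)) := by
      intro x
      rw [map_mul]
      ring
    rw [M_congr _ e1, fin2 hM hMI hE hN (a := fun x => conj (F x) * F (x + dsS φ hik v))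
      (b := fun x => conj (h k (x.1 k)) * h k ((x + dsS φ hik v).1 k))
      (hF.conj.mul (hF.comp _)) (((Bd.of1 hkb).comp _).conj.mul ((Bd.of1 hkb).comp _)) ?_ ?_]
    · refine sum_congr rfl fun χ _ => ?_
      rw [mul_comm]
    · intro s hs x
      have hs' : s.1 i = 0 := hs
      rw [hFi s hs', show x + s + dsS φ hik v = (x + dsS φ hik v) + s by abel, hFi s hs']
    · intro s hs x
      have hs' : s.1 k = 0 := hs
      have e2 : (x + s).1 k = x.1 k := by
        show x.1 k + s.1 k = x.1 k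
        rw [hs', add_zero]
      have e3 : (x + s + dsS φ hik v).1 k = (x + dsS φ hik v).1 k := by
        show x.1 k + s.1 k + (dsS φ hik v).1 k = x.1 k + (dsS φ hik v).1 k
        rw [hs', add_zero]
      rw [e2, e3]
  rw [M_congr Λ hin, M_sum]
  refine (Complex.re_le_norm _).trans ((norm_sum_le _ _).trans ?_)
  obtain ⟨Ci, hCi⟩ := hF
  have hχ1 : ∀ (χ : AddChar (S0 φ ⧸ N) ℂ) (x : S0 φ), ‖χ (x : S0 φ ⧸ N)‖ = 1 :=
    fun χ x => (isCh_q χ).2 x
  have hterm : ∀ χ, ‖Λ (fun v => B χ v * A χ (dsS φ hik v))‖ ≤ √nP * ε := by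
    intro χ
    have hB1 : ∀ v, ‖B χ v‖ ≤ 1 := by
      intro v
      refine hM.norm_le 1 fun x => ?_
      rw [norm_mul, norm_mul, RCLike.norm_conj, hχ1, one_mul]
      exact mul_le_one₀ (hkb _) (norm_nonneg _) (hkb _)
    have hAb : ∀ s : S0 φ, ‖A χ s‖ ≤ Ci * Ci := by
      intro s
      refine hM.norm_le _ fun x => ?_
      rw [norm_mul, norm_mul, RCLike.norm_conj, RCLike.norm_conj, hχ1, one_mul]
      exact mul_le_mul (hCi _) (hCi _) (norm_nonneg _) ((norm_nonneg _).trans (hCi x))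
    have hAk : ∀ (s : S0 φ) (κ : (co φ i).ker), A χ (s + κ.1) = A χ s := by
      intro s κ
      refine M_congr M fun x => ?_
      rw [← add_assoc, hFi κ.1 κ.2]
    have e1 := hΛ.cs1 hB1 (g := fun v => A χ (dsS φ hik v)) ⟨Ci * Ci, fun v => hAb _⟩
    have e2 : (Λ (fun v => ((‖A χ (dsS φ hik v)‖ ^ 2 : ℝ) : ℂ))).re =
        (push (pm Λ Λ') (dsK φ hik) (fun s => ((‖A χ s‖ ^ 2 : ℝ) : ℂ))).re := by
      rw [push_apply, pm_apply]
      congr 1
      refine M_congr Λ fun v => ?_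
      have e3 : ∀ κ : (co φ i).ker, ((‖A χ (dsK φ hik (v, κ))‖ ^ 2 : ℝ) : ℂ) =
          ((‖A χ (dsS φ hik v)‖ ^ 2 : ℝ) : ℂ) := by
        intro κ
        have : dsK φ hik (v, κ) = dsS φ hik v + κ.1 := rfl
        rw [this, hAk]
      rw [M_congr Λ' e3, hΛ'.const]
    have hHI := HI_push (pm_mn hΛ hΛ') (pm_inv hΛ' hΛI hΛI') (dsK φ hik)
    have e3 := le_avg hHI (f := fun s => ‖A χ s‖ ^ 2) ((Ci * Ci) ^ 2)
      (fun s => by
        rw [abs_of_nonneg (by positivity)]
        exact pow_le_pow_left₀ (norm_nonneg _) (hAb s) 2) (fun s => by positivity)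
    have e4 := inv2 hM hMI hE (avg_mn hHI) (avg_inv hHI)
      (b := F) (b1 := fun x => χ (x : S0 φ ⧸ N) * F x) ⟨Ci, hCi⟩
      ((isCh_q χ).bd.mul ⟨Ci, hCi⟩) ε hε hψ
    have e5 : (avg (dsK φ hik).range (push (pm Λ Λ') (dsK φ hik)) (fun s => ((‖A χ s‖ ^ 2 : ℝ) : ℂ))).re =
        (avg (dsK φ hik).range (push (pm Λ Λ') (dsK φ hik)) (fun a => ((‖M (fun x =>
          conj (χ (x : S0 φ ⧸ N) * F x) * F (x + a))‖ ^ 2 : ℝ) : ℂ))).re := by
      congr 1
      refine M_congr _ fun s => ?_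
      congr 3
      refine M_congr M fun x => ?_
      rw [map_mul]
      ring
    have e6 : (M (fun x => ((‖χ (x : S0 φ ⧸ N) * F x‖ ^ 2 : ℝ) : ℂ))).re ≤ 1 := by
      refine le_trans (le_of_eq ?_) h1
      congr 1
      refine M_congr M fun x => ?_
      rw [norm_mul, hχ1, one_mul]
    have e7 : ‖Λ (fun v => B χ v * A χ (dsS φ hik v))‖ ^ 2 ≤ nP * ε ^ 2 := by
      refine e1.trans ?_
      rw [e2]
      refine e3.trans ?_
      rw [e5]
      refine mul_le_mul_of_nonneg_left (e4.trans ?_) (Nat.cast_nonneg _)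
      exact mul_le_of_le_one_right (by positivity) e6
    have e8 : ‖Λ (fun v => B χ v * A χ (dsS φ hik v))‖ ^ 2 ≤ (√nP * ε) ^ 2 := by
      rw [mul_pow, Real.sq_sqrt (Nat.cast_nonneg _)]
      exact e7
    exact le_of_sq_le_sq e8 (by positivity)
  refine (sum_le_sum fun χ _ => hterm χ).trans ?_
  rw [sum_const, card_univ, nsmul_eq_mul, AddChar.card_eq]

end

end Pool.Agent.V11180.BG
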