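import Pool.Agent.V11180.BG.Ker

/-! A Bohr set in a sum of endomorphic images, from a positive mean of solutions. -/

set_option autoImplicit false
open Filter Topology Finset
open scoped ComplexConjugate

namespace Pool.Agent.V11180.BG

universe u

section idx
variable {S G : Type u} [AddCommGroup S] [AddCommGroup G]

theorem idx_comap (f : S →+ G) {H : AddSubgroup G} (hH : H.index ≠ 0) {K : AddSubgroup S}
    (hK : H.comap f ≤ K) : K.index ≠ 0 ∧ K.index ≤ H.index := by
  have h1 : (H.comap f).index ≠ 0 ∧ (H.comap f).index ≤ H.index := by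
    rw [AddSubgroup.index_comap]
    rw [← AddSubgroup.relIndex_top_right] at hH ⊢
    exact ⟨fun h => hH (AddSubgroup.relIndex_eq_zero_of_le_right le_top h),
      AddSubgroup.relIndex_le_of_le_right le_top hH⟩
  have h2 := AddSubgroup.index_dvd_of_le hK
  exact ⟨fun h => h1.1 (Nat.eq_zero_of_zero_dvd (h ▸ h2)),
    (Nat.le_of_dvd (Nat.pos_of_ne_zero h1.1) h2).trans h1.2⟩

theorem idx_le {H K : AddSubgroup G} (hH : H.index ≠ 0) (hK : H ≤ K) :
    K.index ≠ 0 ∧ K.index ≤ H.index := by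
  have h2 := AddSubgroup.index_dvd_of_le hK
  exact ⟨fun h => hH (Nat.eq_zero_of_zero_dvd (h ▸ h2)), Nat.le_of_dvd (Nat.pos_of_ne_zero hH) h2⟩

/-- characters with values in the circle -/
theorem toAC {θ : G → ℂ} (h : IsCh θ) : ∃ χ : AddChar G Circle, ∀ x, ((χ x : Circle) : ℂ) = θ x := by
  have h0 : θ 0 = 1 := by
    have h1 := h.1 0 0
    rw [add_zero] at h1
    have h2 : θ 0 ≠ 0 := fun h3 => by
      have := h.2 0
      rw [h3, norm_zero] at this
      norm_num at this
    exact mul_left_cancel₀ h2 (by rw [← h1, mul_one])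
  refine ⟨⟨fun x => (⟨θ x, mem_sphere_zero_iff_norm.2 (h.2 x)⟩ : Circle), ?_, ?_⟩, fun x => rfl⟩
  · apply Circle.ext
    exact h0
  · intro a b
    apply Circle.ext
    exact h.1 a b

/-- membership in a subgroup of finite index by characters -/
theorem mem_of_ch {H : AddSubgroup G} [Fintype (G ⧸ H)] (g : G)
    (h : ∀ χ : AddChar (G ⧸ H) ℂ, ‖χ (g : G ⧸ H) - 1‖ < 1) : g ∈ H := by
  classical
  rw [← QuotientAddGroup.eq_zero_iff, ← AddChar.sum_apply_ne_zero_iff_eq_zero]
  intro h0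
  have h1 : ‖∑ χ : AddChar (G ⧸ H) ℂ, (χ (g : G ⧸ H) - 1)‖ < Fintype.card (AddChar (G ⧸ H) ℂ) := by
    calc ‖∑ χ : AddChar (G ⧸ H) ℂ, (χ (g : G ⧸ H) - 1)‖ ≤
          ∑ χ : AddChar (G ⧸ H) ℂ, ‖χ (g : G ⧸ H) - 1‖ := norm_sum_le _ _
      _ < ∑ χ : AddChar (G ⧸ H) ℂ, (1 : ℝ) :=
          sum_lt_sum_of_nonempty ⟨1, mem_univ _⟩ fun χ _ => h χ
      _ = _ := by rw [sum_const, card_univ, nsmul_eq_mul, mul_one]
  rw [sum_sub_distrib, h0, zero_sub, norm_neg, sum_const, card_univ, nsmul_eq_mul, mul_one,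
    Complex.norm_natCast] at h1
  exact lt_irrefl _ h1

end idx

/-- the product of the values of a set indicator along a solution -/
noncomputable def solF {ι : Type} [Fintype ι] {G : Type u} [AddCommGroup G] (φ : ι → G →+ G)
    (A : Set G) : BR (S0 φ) :=
  ⟨fun s => ∏ l, A.indicator (fun _ => (1 : ℝ)) (s.1 l), 1, fun s => by
    have h : ∀ x : G, 0 ≤ A.indicator (fun _ => (1 : ℝ)) x ∧ A.indicator (fun _ => (1 : ℝ)) x ≤ 1 := by
      intro x
      by_cases hx : x ∈ A
      · rw [Set.indicator_of_mem hx]; norm_num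
      · rw [Set.indicator_of_notMem hx]; norm_num
    rw [abs_of_nonneg (prod_nonneg fun l _ => (h _).1)]
    exact prod_le_one (fun l _ => (h _).1) fun l _ => (h _).2⟩

theorem bohr_main (c : ℝ) (hc : 0 < c) (n : ℕ) : ∃ K : ℕ, ∃ η : ℝ, 0 < η ∧
    ∀ (ι : Type) [Fintype ι] [DecidableEq ι] (G : Type u) [AddCommGroup G] (φ : ι → G →+ G)
      (i j k : ι), i ≠ j → i ≠ k → j ≠ k →
      (∀ l, (l = i ∨ l = j ∨ l = k) → (φ l).range.index ≠ 0 ∧ (φ l).range.index ≤ n) →
      ∀ (A : Set G) (m : BR (S0 φ) →ₗ[ℝ] ℝ), IsInvMean m → c ≤ m (solF φ A) →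
      ∃ X : Finset (AddChar G Circle), X.card ≤ K ∧
        ∀ g : G, (∀ χ ∈ X, ‖((χ g : Circle) : ℂ) - 1‖ < η) →
          ∃ a : ι → G, (∀ l, a l ∈ A) ∧ ∑ l, φ l (a l) = g := by
  classical
  obtain ⟨ε, hεd⟩ : ∃ ε : ℝ, ε = (c / (8 * (n + 1))) ^ 2 := ⟨_, rfl⟩
  have hn0 : (0 : ℝ) ≤ n := Nat.cast_nonneg n
  have hε : 0 < ε := by rw [hεd]; positivity
  refine ⟨n * n + ⌈1 / ε ^ 2⌉₊, min 1 (c * ε ^ 2 / 4), by positivity, ?_⟩
  intro ι _ _ G _ φ i j k hij hik hjk hidx A m0 hm0 hcm
  obtain ⟨M, hM, hMI, hE, hmax⟩ := exists_good (solF φ A)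
  have hMc := hcm.trans (hmax m0 hm0)
  -- notation
  set f : G → ℝ := A.indicator (fun _ => (1 : ℝ)) with hf
  have hf01 : ∀ x, 0 ≤ f x ∧ f x ≤ 1 := by
    intro x
    by_cases hx : x ∈ A
    · rw [hf, Set.indicator_of_mem hx]; norm_num
    · rw [hf, Set.indicator_of_notMem hx]; norm_num
  have hfn : ∀ x, ‖(f x : ℂ)‖ ≤ 1 := fun x => by
    rw [Complex.norm_real, Real.norm_eq_abs, abs_of_nonneg (hf01 x).1]; exact (hf01 x).2
  obtain ⟨F1, hF1⟩ : ∃ F1 : S0 φ → ℂ, ∀ x, F1 x = (f (x.1 i) : ℂ) := ⟨_, fun _ => rfl⟩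
  obtain ⟨R, hR⟩ : ∃ R : S0 φ → ℂ, ∀ x, R x = ∏ l ∈ univ.erase i, (f (x.1 l) : ℂ) :=
    ⟨_, fun _ => rfl⟩
  have hF1n : ∀ x, ‖F1 x‖ ≤ 1 := fun x => by rw [hF1]; exact hfn _
  have hRn : ∀ x, ‖R x‖ ≤ 1 := fun x => by
    rw [hR, norm_prod]
    exact prod_le_one (fun l _ => norm_nonneg _) fun l _ => hfn _
  have hF1b : Bd F1 := Bd.of1 hF1n
  have hRb : Bd R := Bd.of1 hRn
  have hF1i : ∀ s : S0 φ, s.1 i = 0 → ∀ x, F1 (x + s) = F1 x := by
    intro s hs x
    rw [hF1, hF1]
    congr 2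
    show x.1 i + s.1 i = x.1 i
    rw [hs, add_zero]
  have hM0 : c ≤ (M (fun x => F1 x * R x)).re := by
    refine hMc.trans (le_of_eq ?_)
    congr 1
    refine M_congr M fun x => ?_
    rw [hF1, hR, mul_prod_erase univ (fun l => (f (x.1 l) : ℂ)) (mem_univ i)]
    show ((∏ l, f (x.1 l) : ℝ) : ℂ) = _
    push_cast
    rfl
  -- the spectrum
  have hF1sq : (M (fun x => ((‖F1 x‖ ^ 2 : ℝ) : ℂ))).re ≤ 1 := by
    have := hM.nsq_le 1 hF1n
    simpa using this
  obtain ⟨Q, hQch, hQ0, hQc, hQs, hQn⟩ := exists_Q hM hMI hF1b hF1sq ε hε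
  have hQtriv : ∀ ψ ∈ Q, ∀ s : S0 φ, s.1 i = 0 → ψ s = 1 := by
    intro ψ hψ s hs
    have h1 := hMI (fun x => conj (ψ x) * F1 x) ((hQch ψ hψ).bd.conj.mul hF1b) s
    have h2 : M (fun x => conj (ψ (x + s)) * F1 (x + s)) = conj (ψ s) * M (fun x => conj (ψ x) * F1 x) := by
      rw [← M_cmul]
      refine M_congr M fun x => ?_
      rw [hF1i s hs, (hQch ψ hψ).1, map_mul]
      ring
    rw [h2] at h1
    have h3 : conj (ψ s) = 1 := mul_right_cancel₀ (hQ0 ψ hψ) (by
      rw [one_mul]; exact h1)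
    rw [← Complex.conj_conj (ψ s), h3, map_one]
  obtain ⟨Fu, hFu⟩ : ∃ Fu : S0 φ → ℂ, ∀ x, Fu x = F1 x - fS M F1 Q x := ⟨_, fun _ => rfl⟩
  have hFub : Bd Fu := by
    have := hF1b.sub (fS_bd (M := M) F1 Q hQch)
    refine (show (fun x => F1 x - fS M F1 Q x) = Fu from funext fun x => (hFu x).symm) ▸ this
  have hFui : ∀ s : S0 φ, s.1 i = 0 → ∀ x, Fu (x + s) = Fu x := by
    intro s hs x
    rw [hFu, hFu, hF1i s hs]
    congr 1
    unfold fS
    refine sum_congr rfl fun ψ hψ => ?_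
    rw [(hQch ψ hψ).1, hQtriv ψ hψ s hs, mul_one]
  have hFuψ : ∀ ψ : S0 φ → ℂ, IsCh ψ → ‖M (fun x => conj (ψ x) * Fu x)‖ ≤ ε := by
    intro ψ hψ
    refine le_trans (le_of_eq ?_) (hQs ψ hψ)
    unfold cf
    congr 1
    exact M_congr M fun x => by rw [hFu]
  have hFun : (M (fun x => ((‖Fu x‖ ^ 2 : ℝ) : ℂ))).re ≤ 1 := by
    refine le_trans (le_of_eq ?_) hQn
    congr 1
    exact M_congr M fun x => by rw [hFu]
  -- the subgroups
  obtain ⟨hi0, hin⟩ := hidx i (Or.inl rfl)
  obtain ⟨hj0, hjn⟩ := hidx j (Or.inr (Or.inl rfl))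
  obtain ⟨hk0, hkn⟩ := hidx k (Or.inr (Or.inr rfl))
  have hNle : (φ j).range.comap ((φ k).comp (co φ k)) ≤ (co φ i).ker ⊔ (co φ k).ker := by
    rintro s ⟨u, hu⟩
    have hu' : φ k (s.1 k) + φ j (-u) = 0 := by
      have : φ j u = φ k (s.1 k) := hu
      rw [map_neg, this, add_neg_cancel]
    rw [AddSubgroup.mem_sup]
    refine ⟨two φ hjk.symm hu', two_j φ hjk.symm hu' hik hij, s - two φ hjk.symm hu', ?_, by abel⟩
    show s.1 k - (two φ hjk.symm hu').1 k = 0
    rw [two_i, sub_self]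
  obtain ⟨hN1, hN2⟩ := idx_comap ((φ k).comp (co φ k)) hj0 (le_refl ((φ j).range.comap ((φ k).comp (co φ k))))
  have hPle : (φ k).range.comap ((φ i).comp (co φ i)) ≤ (dsK φ hik).range := by
    rintro s ⟨u, hu⟩
    have hu' : φ i (s.1 i) + φ k (-u) = 0 := by
      have : φ k u = φ i (s.1 i) := hu
      rw [map_neg, this, add_neg_cancel]
    have hmem : (s.1 i, -u) ∈ K2 φ i k := hu'
    refine ⟨(⟨(s.1 i, -u), hmem⟩, ⟨s - two φ hik hu', ?_⟩), ?_⟩
    · show s.1 i - (two φ hik hu').1 i = 0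
      rw [two_i, sub_self]
    · show two φ hik hu' + (s - two φ hik hu') = s
      abel
  obtain ⟨hP1, hP2⟩ := idx_comap ((φ i).comp (co φ i)) hk0 hPle
  set H : AddSubgroup G := ((φ i).comp (co φ i)).range with hH
  have hHle : (φ i).range ⊓ (φ j).range ≤ H := by
    rintro g ⟨⟨a, ha⟩, ⟨b, hb⟩⟩
    have hu' : φ i a + φ j (-b) = 0 := by
      rw [map_neg, ha, hb, add_neg_cancel]
    refine ⟨two φ hij hu', ?_⟩
    show φ i ((two φ hij hu').1 i) = g
    rw [two_i, ha]
  obtain ⟨hH1, hH2⟩ := idx_le (AddSubgroup.index_inf_ne_zero hi0 hj0) hHle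
  have hH3 : H.index ≤ n * n := hH2.trans ((AddSubgroup.index_inf_le).trans (Nat.mul_le_mul hin hjn))
  let fN := AddSubgroup.fintypeOfIndexNeZero hN1
  let fP := AddSubgroup.fintypeOfIndexNeZero hP1
  let fH := AddSubgroup.fintypeOfIndexNeZero hH1
  have hcN : Fintype.card (S0 φ ⧸ ((φ j).range.comap ((φ k).comp (co φ k)))) ≤ n := by
    rw [← Nat.card_eq_fintype_card]
    exact hN2.trans hjn
  have hcP : Fintype.card (S0 φ ⧸ (dsK φ hik).range) ≤ n := by
    rw [← Nat.card_eq_fintype_card]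
    exact hP2.trans hkn
  have hcH : Fintype.card (G ⧸ H) ≤ n * n := by
    rw [← Nat.card_eq_fintype_card]
    exact hH3
  -- the uniform part is small
  have hsmall : ∀ s : S0 φ, ‖M (fun x => Fu (x + s) * R x)‖ ≤ c / 8 := by
    intro s
    have h1 := ker_bound hM hMI hE hik hNle (fun x => Fu (x + s)) (hFub.comp _) (fun t ht x => by
        rw [show x + t + s = (x + s) + t by abel, hFui t ht]) (fun _ x => (f x : ℂ))
      (fun _ x => hfn x) ε hε.le (fun ψ hψ => by
        have h2 : M (fun x => conj (ψ x) * Fu (x + s)) = ψ s * M (fun x => conj (ψ x) * Fu x) := by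
          rw [← hMI (fun x => conj (ψ x) * Fu x) (hψ.bd.conj.mul hFub) s, ← M_cmul]
          refine M_congr M fun x => ?_
          rw [hψ.1, map_mul]
          have := conj_mul_one (hψ.2 s)
          linear_combination (-(conj (ψ x) * Fu (x + s))) * this
        rw [h2, norm_mul, hψ.2, one_mul]
        exact hFuψ ψ hψ) (by
        rw [hMI (fun x => ((‖Fu x‖ ^ 2 : ℝ) : ℂ)) hFub.nsq s]
        exact hFun)
    have h2 : M (fun x => Fu (x + s) * ∏ l ∈ univ.erase i, (f (x.1 l) : ℂ)) =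
        M (fun x => Fu (x + s) * R x) := M_congr M fun x => by rw [hR]
    rw [h2] at h1
    have h3 : ‖M (fun x => Fu (x + s) * R x)‖ ^ 2 ≤ (c / 8) ^ 2 := by
      refine h1.trans ?_
      have h4 : √(Fintype.card (S0 φ ⧸ (dsK φ hik).range) : ℝ) ≤ n + 1 := by
        rw [Real.sqrt_le_left (by positivity)]
        have : (Fintype.card (S0 φ ⧸ (dsK φ hik).range) : ℝ) ≤ n := by exact_mod_cast hcP
        nlinarith
      have h5 : (Fintype.card (S0 φ ⧸ ((φ j).range.comap ((φ k).comp (co φ k)))) : ℝ) ≤ n + 1 := by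
        have : (Fintype.card (S0 φ ⧸ ((φ j).range.comap ((φ k).comp (co φ k)))) : ℝ) ≤ n := by
          exact_mod_cast hcN
        linarith
      calc (Fintype.card (S0 φ ⧸ ((φ j).range.comap ((φ k).comp (co φ k)))) : ℝ) *
            (√(Fintype.card (S0 φ ⧸ (dsK φ hik).range)) * ε) ≤ (n + 1) * ((n + 1) * ε) :=
            mul_le_mul h5 (mul_le_mul_of_nonneg_right h4 hε.le) (by positivity) (by positivity)
        _ = (c / 8) ^ 2 := by
            rw [hεd]
            field_simp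
    exact le_of_sq_le_sq h3 (by positivity)
  -- the characters
  have hT : ∀ ψ : S0 φ → ℂ, ∃ χ : AddChar G Circle, ψ ∈ Q → (M (fun x => ψ x * R x) = 0 ∨
      ∀ s : S0 φ, ((χ (φ i (s.1 i)) : Circle) : ℂ) = ψ s) := by
    intro ψ
    by_cases hψ : ψ ∈ Q
    · by_cases h0 : M (fun x => ψ x * R x) = 0
      · exact ⟨1, fun _ => Or.inl h0⟩
      · have hch := hQch ψ hψ
        have h1 : ∀ s : S0 φ, (∀ l, l ≠ i → s.1 l = 0) → ψ s = 1 := by
          intro s hs
          have h2 := hMI (fun x => ψ x * R x) (hch.bd.mul hRb) s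
          have h3 : M (fun x => ψ (x + s) * R (x + s)) = ψ s * M (fun x => ψ x * R x) := by
            rw [← M_cmul]
            refine M_congr M fun x => ?_
            have h4 : R (x + s) = R x := by
              rw [hR, hR]
              refine prod_congr rfl fun l hl => ?_
              congr 2
              show x.1 l + s.1 l = x.1 l
              rw [hs l (ne_of_mem_erase hl), add_zero]
            rw [h4, hch.1]
            ring
          rw [h3] at h2
          exact mul_right_cancel₀ h0 (by rw [h2, one_mul])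
        obtain ⟨θ, hθ, hθ2⟩ := ext_ch ((φ i).comp (co φ i)) hch (by
          intro s hs
          have hs' : φ i (s.1 i) + φ j 0 = 0 := by
            rw [map_zero, add_zero]
            exact hs
          have h5 : s = two φ hij hs' + (s - two φ hij hs') := by abel
          rw [h5, hch.1, h1 (two φ hij hs') ?_, one_mul]
          · apply hQtriv ψ hψ
            show s.1 i - (two φ hij hs').1 i = 0
            rw [two_i, sub_self]
          · intro l hl
            by_cases hlj : l = j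
            · rw [hlj, two_k]
            · exact two_j φ hij hs' hl hlj)
        obtain ⟨χ, hχ⟩ := toAC hθ
        exact ⟨χ, fun _ => Or.inr fun s => by
          rw [hχ]
          exact hθ2 s⟩
    · exact ⟨1, fun h => absurd h hψ⟩
  choose T hT using hT
  have hU : ∀ χ : AddChar (G ⧸ H) ℂ, ∃ χ' : AddChar G Circle, ∀ x, ((χ' x : Circle) : ℂ) = χ (x : G ⧸ H) :=
    fun χ => toAC (isCh_q χ)
  choose U hU using hU
  refine ⟨univ.image U ∪ Q.image T, ?_, ?_⟩
  · refine (card_union_le _ _).trans (add_le_add ?_ ?_)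
    · refine card_image_le.trans ?_
      rw [card_univ, AddChar.card_eq]
      exact hcH
    · refine card_image_le.trans ?_
      have h1 : (Q.card : ℝ) ≤ ⌈1 / ε ^ 2⌉₊ := by
        refine le_trans ?_ (Nat.le_ceil _)
        rw [le_div_iff₀ (by positivity)]
        exact hQc
      exact_mod_cast h1
  · intro g hg
    have hgH : g ∈ H := by
      apply mem_of_ch
      intro χ
      rw [← hU]
      exact lt_of_lt_of_le (hg _ (mem_union_left _ (mem_image_of_mem _ (mem_univ χ)))) (min_le_left _ _)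
    obtain ⟨s, hs⟩ := hgH
    have hs' : φ i (s.1 i) = g := hs
    -- the main computation
    have hterm : ∀ ψ ∈ Q, ‖cf M F1 ψ * (ψ s - 1) * M (fun x => ψ x * R x)‖ ≤ c * ε ^ 2 / 4 := by
      intro ψ hψ
      rcases hT ψ hψ with h0 | h1
      · rw [h0, mul_zero, norm_zero]
        positivity
      · have h2 := hg (T ψ) (mem_union_right _ (mem_image_of_mem _ hψ))
        rw [← hs', h1 s] at h2
        have h3 : ‖cf M F1 ψ‖ ≤ 1 := by
          unfold cf
          refine hM.norm_le 1 fun x => ?_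
          rw [norm_mul, RCLike.norm_conj, (hQch ψ hψ).2, one_mul]
          exact hF1n x
        have h4 : ‖M (fun x => ψ x * R x)‖ ≤ 1 := by
          refine hM.norm_le 1 fun x => ?_
          rw [norm_mul, (hQch ψ hψ).2, one_mul]
          exact hRn x
        rw [norm_mul, norm_mul]
        have h5 := (lt_of_lt_of_le h2 (min_le_right _ _)).le
        calc ‖cf M F1 ψ‖ * ‖ψ s - 1‖ * ‖M (fun x => ψ x * R x)‖ ≤ 1 * (c * ε ^ 2 / 4) * 1 :=
              mul_le_mul (mul_le_mul h3 h5 (norm_nonneg _) zero_le_one) h4 (norm_nonneg _)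
                (by positivity)
          _ = c * ε ^ 2 / 4 := by ring
    have hsum : ‖∑ ψ ∈ Q, cf M F1 ψ * (ψ s - 1) * M (fun x => ψ x * R x)‖ ≤ c / 4 := by
      refine (norm_sum_le _ _).trans ((sum_le_sum hterm).trans ?_)
      rw [sum_const, nsmul_eq_mul]
      nlinarith
    have hdiff : M (fun x => F1 (x + s) * R x) = M (fun x => F1 x * R x) +
        (M (fun x => Fu (x + s) * R x) - M (fun x => Fu (x + 0) * R x)) +
        ∑ ψ ∈ Q, cf M F1 ψ * (ψ s - 1) * M (fun x => ψ x * R x) := by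
      rw [← sum_congr rfl fun ψ _ => M_cmul M (cf M F1 ψ * (ψ s - 1)) (fun x => ψ x * R x), ← M_sum,
        ← M_sub, ← M_add, ← M_add]
      refine M_congr M fun x => ?_
      have e1 : fS M F1 Q (x + s) - fS M F1 Q x = ∑ ψ ∈ Q, cf M F1 ψ * (ψ s - 1) * ψ x := by
        unfold fS
        rw [← sum_sub_distrib]
        refine sum_congr rfl fun ψ hψ => ?_
        rw [(hQch ψ hψ).1]
        ring
      have e2 : ∑ ψ ∈ Q, cf M F1 ψ * (ψ s - 1) * (ψ x * R x) =
          (∑ ψ ∈ Q, cf M F1 ψ * (ψ s - 1) * ψ x) * R x := by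
        rw [sum_mul]
        exact sum_congr rfl fun ψ _ => by ring
      rw [e2, ← e1, hFu, hFu, add_zero]
      ring
    have hne : M (fun x => F1 (x + s) * R x) ≠ 0 := by
      intro h0
      rw [h0] at hdiff
      have h1 : M (fun x => F1 x * R x) = -((M (fun x => Fu (x + s) * R x) -
          M (fun x => Fu (x + 0) * R x)) +
          ∑ ψ ∈ Q, cf M F1 ψ * (ψ s - 1) * M (fun x => ψ x * R x)) := by
        linear_combination -hdiff
      have h2 : ‖M (fun x => F1 x * R x)‖ ≤ (c / 8 + c / 8) + c / 4 := by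
        rw [h1, norm_neg]
        refine (norm_add_le _ _).trans (add_le_add ((norm_sub_le _ _).trans
          (add_le_add (hsmall s) (hsmall 0))) hsum)
      have h3 := (hM0.trans (Complex.re_le_norm _)).trans h2
      linarith
    have hex : ∃ x : S0 φ, F1 (x + s) * R x ≠ 0 := by
      by_contra hcon
      push Not at hcon
      apply hne
      have : M (fun x => F1 (x + s) * R x) = M (fun _ => (0 : ℂ) * 0) := M_congr M fun x => by
        rw [hcon x, zero_mul]
      rw [this, M_cmul, zero_mul]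
    obtain ⟨x, hx⟩ := hex
    have hx1 := left_ne_zero_of_mul hx
    have hx2 := right_ne_zero_of_mul hx
    have hmem : ∀ y, (f y : ℂ) ≠ 0 → y ∈ A := by
      intro y hy
      by_contra hyA
      apply hy
      rw [hf, Set.indicator_of_notMem hyA]
      norm_num
    refine ⟨fun l => if l = i then x.1 i + s.1 i else x.1 l, ?_, ?_⟩
    · intro l
      by_cases hl : l = i
      · simp only [hl, if_true]
        apply hmem
        rw [hF1] at hx1
        exact hx1
      · simp only [hl, if_false]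
        apply hmem
        rw [hR] at hx2
        exact Finset.prod_ne_zero_iff.1 hx2 l (mem_erase.2 ⟨hl, mem_univ l⟩)
    · have h1 : ∀ l, φ l (if l = i then x.1 i + s.1 i else x.1 l) =
          φ l (x.1 l) + (if l = i then g else 0) := by
        intro l
        by_cases hl : l = i
        · rw [if_pos hl, if_pos hl, hl, map_add, hs']
        · rw [if_neg hl, if_neg hl, add_zero]
      rw [sum_congr rfl fun l _ => h1 l, sum_add_distrib]
      have h2 : ∑ l, φ l (x.1 l) = 0 := x.2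
      rw [h2, zero_add]
      simp

end Pool.Agent.V11180.BG
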