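import Pool.Agent.V11180.BG.Dens

/-! Partition regularity with a positive mean of monochromatic solutions. -/

set_option autoImplicit false
open Filter Topology Finset

namespace Pool.Agent.V11180.BG

universe u

section ix
variable {S G : Type u} [AddCommGroup S] [AddCommGroup G]

/-- index at most `b` -/
def Ix (b : ℕ) (H : AddSubgroup G) : Prop := H.index ≠ 0 ∧ H.index ≤ b

theorem Ix.le {b b' : ℕ} {H : AddSubgroup G} (h : Ix b H) (hb : b ≤ b') : Ix b' H :=
  ⟨h.1, h.2.trans hb⟩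

theorem Ix.mono {b : ℕ} {H K : AddSubgroup G} (h : Ix b H) (hK : H ≤ K) : Ix b K :=
  ⟨(idx_le h.1 hK).1, (idx_le h.1 hK).2.trans h.2⟩

theorem Ix.comap {b : ℕ} {H : AddSubgroup G} (h : Ix b H) (f : S →+ G) : Ix b (H.comap f) :=
  ⟨(idx_comap f h.1 le_rfl).1, (idx_comap f h.1 le_rfl).2.trans h.2⟩

theorem Ix.iInf {I : Type} [Fintype I] {b : ℕ} {H : I → AddSubgroup G} (h : ∀ i, Ix b (H i)) :
    Ix (b ^ Fintype.card I) (⨅ i, H i) := by
  refine ⟨AddSubgroup.index_iInf_ne_zero fun i => (h i).1, (AddSubgroup.index_iInf_le _).trans ?_⟩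
  refine (Finset.prod_le_prod' fun i _ => (h i).2).trans ?_
  rw [prod_const, card_univ]

theorem Ix.map {b b' : ℕ} {H : AddSubgroup S} (h : Ix b H) (f : S →+ G) (hf : Ix b' f.range) :
    Ix (b * b') (H.map f) := by
  have h1 := h.mono (le_sup_left : H ≤ H ⊔ f.ker)
  unfold Ix
  rw [AddSubgroup.index_map]
  exact ⟨mul_ne_zero h1.1 hf.1, Nat.mul_le_mul h1.2 hf.2⟩

end ix

/-- the inductive statement -/
def FamP (ι : Type) [Fintype ι] (T : Finset ι) (n R r : ℕ) : Prop :=
  ∃ (K : Type) (_ : Finite K) (_ : Nonempty K) (B : ℕ), ∀ (G : Type u) [AddCommGroup G]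
    (φ : ι → G →+ G), ∑ j ∈ T, φ j = 0 → (∀ j, Ix n (φ j).range) →
    ∃ (U : Type u) (_ : AddCommGroup U) (κ : K → U →+ S0 φ), (∀ a, Ix B (κ a).range) ∧
      ∀ (χ : G → Fin R) (D : Finset (Fin R)), D.card ≤ r → ∀ u : U,
        (∀ a l, χ ((κ a u).1 l) ∈ D) → ∃ a c, ∀ l, χ ((κ a u).1 l) = c

theorem famP_zero (ι : Type) [Fintype ι] [Nonempty ι] (T : Finset ι) (n R : ℕ) :
    FamP.{u} ι T n R 0 := by
  refine ⟨Unit, inferInstance, inferInstance, 1, ?_⟩
  intro G _ φ _ _
  refine ⟨S0 φ, inferInstance, fun _ => AddMonoidHom.id _, fun _ => ?_, ?_⟩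
  · have : (AddMonoidHom.id (S0 φ)).range = ⊤ :=
      AddMonoidHom.range_eq_top.2 Function.surjective_id
    rw [this]
    exact ⟨by rw [AddSubgroup.index_top]; exact one_ne_zero, by rw [AddSubgroup.index_top]⟩
  · intro χ D hD u h
    rw [Nat.le_zero, Finset.card_eq_zero] at hD
    have := h () (Classical.arbitrary ι)
    rw [hD] at this
    exact absurd this (Finset.notMem_empty _)

section step
variable {ι : Type} [Fintype ι] [DecidableEq ι] {G : Type u} [AddCommGroup G] (φ : ι → G →+ G)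
  (T : Finset ι) {K : Type} {U : Type u} [AddCommGroup U] (κ : K → U →+ S0 φ)

/-- evaluation -/
def ev (e : K × ι) : U →+ G := (co φ e.2).comp (κ e.1)

/-- the constraints -/
def cns : ((ι → U) × (((ι → K × ι) × ι) → G)) →+ ((ι → K × ι) → G) where
  toFun p ω := ∑ j ∈ T, φ j (p.2 (ω, j)) + ∑ j ∈ univ \ T, φ j (ev φ κ (ω j) (p.1 j))
  map_zero' := by
    funext ω
    simp
  map_add' p q := by
    funext ω
    show ∑ j ∈ T, φ j (p.2 (ω, j) + q.2 (ω, j)) + ∑ j ∈ univ \ T, φ j (ev φ κ (ω j) (p.1 j + q.1 j)) =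
      (∑ j ∈ T, φ j (p.2 (ω, j)) + ∑ j ∈ univ \ T, φ j (ev φ κ (ω j) (p.1 j))) +
      (∑ j ∈ T, φ j (q.2 (ω, j)) + ∑ j ∈ univ \ T, φ j (ev φ κ (ω j) (q.1 j)))
    simp only [map_add, sum_add_distrib]
    abel

/-- the parameter group -/
abbrev UP : AddSubgroup ((ι → U) × (((ι → K × ι) × ι) → G)) := (cns φ T κ).ker

theorem UP_mem (p : (ι → U) × (((ι → K × ι) × ι) → G)) : p ∈ UP φ T κ ↔
    ∀ ω, ∑ j ∈ T, φ j (p.2 (ω, j)) + ∑ j ∈ univ \ T, φ j (ev φ κ (ω j) (p.1 j)) = 0 :=
  ⟨fun h ω => congrFun (show cns φ T κ p = 0 from h) ω, fun h => funext h⟩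

/-- the new configuration -/
def cfg (hT : ∑ j ∈ T, φ j = 0) (ω : ι → K × ι) : G × UP φ T κ →+ S0 φ where
  toFun q := ⟨fun l => if l ∈ T then q.1 + q.2.1.2 (ω, l) else ev φ κ (ω l) (q.2.1.1 l), by
    rw [mem_S0]
    have h1 := (UP_mem φ T κ q.2.1).1 q.2.2 ω
    have h2 : ∀ l, φ l (if l ∈ T then q.1 + q.2.1.2 (ω, l) else ev φ κ (ω l) (q.2.1.1 l)) =
        (if l ∈ T then φ l q.1 + φ l (q.2.1.2 (ω, l)) else φ l (ev φ κ (ω l) (q.2.1.1 l))) := by
      intro l
      split_ifs
      · rw [map_add]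
      · rfl
    rw [sum_congr rfl fun l _ => h2 l, ← sum_sdiff (subset_univ T), add_comm]
    have h3 : ∑ l ∈ T, (if l ∈ T then φ l q.1 + φ l (q.2.1.2 (ω, l)) else
        φ l (ev φ κ (ω l) (q.2.1.1 l))) = ∑ l ∈ T, φ l q.1 + ∑ l ∈ T, φ l (q.2.1.2 (ω, l)) := by
      rw [← sum_add_distrib]
      exact sum_congr rfl fun l hl => by rw [if_pos hl]
    have h4 : ∑ l ∈ univ \ T, (if l ∈ T then φ l q.1 + φ l (q.2.1.2 (ω, l)) else
        φ l (ev φ κ (ω l) (q.2.1.1 l))) = ∑ l ∈ univ \ T, φ l (ev φ κ (ω l) (q.2.1.1 l)) :=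
      sum_congr rfl fun l hl => by rw [if_neg (mem_sdiff.1 hl).2]
    have h5 : ∑ l ∈ T, φ l q.1 = 0 := by
      rw [← AddMonoidHom.finsetSum_apply, hT]
      rfl
    rw [h3, h4, h5, zero_add]
    exact h1⟩
  map_zero' := by
    apply Subtype.ext
    funext l
    show (if l ∈ T then (0 : G) + 0 else ev φ κ (ω l) 0) = 0
    rw [map_zero, add_zero, ite_self]
  map_add' q q' := by
    apply Subtype.ext
    funext l
    show (if l ∈ T then (q.1 + q'.1) + (q.2.1.2 (ω, l) + q'.2.1.2 (ω, l)) else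
      ev φ κ (ω l) (q.2.1.1 l + q'.2.1.1 l)) =
      (if l ∈ T then q.1 + q.2.1.2 (ω, l) else ev φ κ (ω l) (q.2.1.1 l)) +
      (if l ∈ T then q'.1 + q'.2.1.2 (ω, l) else ev φ κ (ω l) (q'.2.1.1 l))
    split_ifs
    · abel
    · rw [map_add]

theorem cfg_apply (hT : ∑ j ∈ T, φ j = 0) (ω : ι → K × ι) (q : G × UP φ T κ) (l : ι) :
    (cfg φ T κ hT ω q).1 l = if l ∈ T then q.1 + q.2.1.2 (ω, l) else ev φ κ (ω l) (q.2.1.1 l) := rfl

/-- a coordinate -/
def pr (j : ι) : UP φ T κ →+ U where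
  toFun p := p.1.1 j
  map_zero' := rfl
  map_add' _ _ := rfl

/-- the good parameters -/
def P1 (j1 : ι) : AddSubgroup U := ⨅ q : (K × ι) × ι, (φ j1).range.comap ((φ q.2).comp (ev φ κ q.1))

theorem P1_mem {j1 : ι} {u : U} (hu : u ∈ P1 φ κ j1) (e : K × ι) (j : ι) :
    φ j (ev φ κ e u) ∈ (φ j1).range := by
  unfold P1 at hu
  rw [AddSubgroup.mem_iInf] at hu
  exact hu (e, j)

theorem lift_z {j1 : ι} {us : ι → U} (hu : ∀ j, us j ∈ P1 φ κ j1) (ω : ι → K × ι) :
    ∃ z, φ j1 z = - ∑ j ∈ univ \ T, φ j (ev φ κ (ω j) (us j)) := by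
  have h : - ∑ j ∈ univ \ T, φ j (ev φ κ (ω j) (us j)) ∈ (φ j1).range :=
    AddSubgroup.neg_mem _ (AddSubgroup.sum_mem _ fun j _ => P1_mem φ κ (hu j) _ _)
  exact h

theorem P1_le_pr {j1 : ι} (hj1 : j1 ∈ T) (j : ι) : P1 φ κ j1 ≤ (pr φ T κ j).range := by
  classical
  intro u hu
  have hus : ∀ j', (Pi.single j u : ι → U) j' ∈ P1 φ κ j1 := by
    intro j'
    by_cases h : j' = j
    · rw [h, Pi.single_eq_same]
      exact hu
    · rw [Pi.single_eq_of_ne h]
      exact AddSubgroup.zero_mem _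
  choose z hz using lift_z φ T κ hus
  refine ⟨⟨(Pi.single j u, fun q => if q.2 = j1 then z q.1 else 0), ?_⟩, ?_⟩
  · rw [UP_mem]
    intro ω
    have h1 : ∑ l ∈ T, φ l (if l = j1 then z ω else 0) = φ j1 (z ω) := by
      rw [sum_eq_single j1]
      · rw [if_pos rfl]
      · intro l _ hl
        rw [if_neg hl, map_zero]
      · intro h
        exact absurd hj1 h
    show ∑ l ∈ T, φ l (if l = j1 then z ω else 0) + ∑ l ∈ univ \ T, φ l (ev φ κ (ω l) ((Pi.single j u : ι → U) l)) = 0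
    rw [h1, hz, neg_add_cancel]
  · show (Pi.single j u : ι → U) j = u
    rw [Pi.single_eq_same]

theorem le_cfg (hT : ∑ j ∈ T, φ j = 0) {j1 : ι} (hj1 : j1 ∈ T) (ω : ι → K × ι) :
    ⨅ j, ((P1 φ κ j1).map (ev φ κ (ω j))).comap (co φ j) ≤ (cfg φ T κ hT ω).range := by
  classical
  intro t ht
  rw [AddSubgroup.mem_iInf] at ht
  have ht' : ∀ j, ∃ u ∈ P1 φ κ j1, ev φ κ (ω j) u = t.1 j := fun j => ht j
  choose us hus hus2 using ht'
  choose z hz using lift_z φ T κ hus
  refine ⟨(0, ⟨(us, fun q => if q.1 = ω then t.1 q.2 else if q.2 = j1 then z q.1 else 0), ?_⟩), ?_⟩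
  · rw [UP_mem]
    intro ω'
    show ∑ l ∈ T, φ l (if ω' = ω then t.1 l else if l = j1 then z ω' else 0) +
      ∑ l ∈ univ \ T, φ l (ev φ κ (ω' l) (us l)) = 0
    by_cases hω : ω' = ω
    · rw [hω]
      simp only [if_true]
      have h1 : ∑ l ∈ univ \ T, φ l (ev φ κ (ω l) (us l)) = ∑ l ∈ univ \ T, φ l (t.1 l) :=
        sum_congr rfl fun l _ => by rw [hus2 l]
      rw [h1, add_comm, sum_sdiff (subset_univ T)]
      exact t.2
    · simp only [hω, if_false]
      have h1 : ∑ l ∈ T, φ l (if l = j1 then z ω' else 0) = φ j1 (z ω') := by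
        rw [sum_eq_single j1]
        · rw [if_pos rfl]
        · intro l _ hl
          rw [if_neg hl, map_zero]
        · intro h
          exact absurd hj1 h
      rw [h1, hz, neg_add_cancel]
  · apply Subtype.ext
    funext l
    rw [cfg_apply]
    by_cases hl : l ∈ T
    · rw [if_pos hl]
      show (0 : G) + (if ω = ω then t.1 l else _) = t.1 l
      rw [if_pos rfl, zero_add]
    · rw [if_neg hl]
      exact hus2 l

variable {N : Type} [Fintype N]

/-- the reduction to one active copy -/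
noncomputable def red (V : N → Option ((ι → K × ι) × ι)) : G × (N → UP φ T κ) →+ G × UP φ T κ where
  toFun q := (q.1 + ∑ i, (match V i with
    | none => 0
    | some x => (q.2 i).1.2 x), ∑ i, (match V i with
    | none => q.2 i
    | some _ => 0))
  map_zero' := by
    apply Prod.ext
    · show (0 : G) + ∑ i, (match V i with
        | none => 0
        | some x => (0 : G)) = 0
      rw [zero_add]
      refine sum_eq_zero fun i _ => ?_
      cases V i <;> rfl
    · show ∑ i, (match V i with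
        | none => (0 : UP φ T κ)
        | some _ => 0) = 0
      refine sum_eq_zero fun i _ => ?_
      cases V i <;> rfl
  map_add' q q' := by
    apply Prod.ext
    · show (q.1 + q'.1) + ∑ i, (match V i with
        | none => 0
        | some x => (q.2 i).1.2 x + (q'.2 i).1.2 x) = (q.1 + ∑ i, (match V i with
        | none => 0
        | some x => (q.2 i).1.2 x)) + (q'.1 + ∑ i, (match V i with
        | none => 0
        | some x => (q'.2 i).1.2 x))
      have h1 : ∑ i, (match V i with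
          | none => 0
          | some x => (q.2 i).1.2 x + (q'.2 i).1.2 x) = ∑ i, (match V i with
          | none => 0
          | some x => (q.2 i).1.2 x) + ∑ i, (match V i with
          | none => 0
          | some x => (q'.2 i).1.2 x) := by
        rw [← sum_add_distrib]
        refine sum_congr rfl fun i _ => ?_
        cases V i with
        | none => exact (add_zero _).symm
        | some x => rfl
      rw [h1]
      abel
    · show ∑ i, (match V i with
        | none => q.2 i + q'.2 i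
        | some _ => 0) = ∑ i, (match V i with
        | none => q.2 i
        | some _ => 0) + ∑ i, (match V i with
        | none => q'.2 i
        | some _ => 0)
      rw [← sum_add_distrib]
      refine sum_congr rfl fun i _ => ?_
      cases V i with
      | none => rfl
      | some x => exact (add_zero _).symm

theorem red_surj (V : N → Option ((ι → K × ι) × ι)) (hV : ∃ i, V i = none) :
    Function.Surjective (red φ T κ V) := by
  classical
  obtain ⟨i0, hi0⟩ := hV
  rintro ⟨y, p⟩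
  refine ⟨(y, Pi.single i0 p), ?_⟩
  apply Prod.ext
  · show y + ∑ i, (match V i with
      | none => 0
      | some x => ((Pi.single i0 p : N → UP φ T κ) i).1.2 x) = y
    rw [sum_eq_zero, add_zero]
    intro i _
    rcases hVi : V i with _ | x
    · rfl
    · have : i ≠ i0 := by
        rintro rfl
        rw [hi0] at hVi
        exact absurd hVi (by simp)
      show ((Pi.single i0 p : N → UP φ T κ) i).1.2 x = 0
      rw [Pi.single_eq_of_ne this]
      rfl
  · show ∑ i, (match V i with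
      | none => (Pi.single i0 p : N → UP φ T κ) i
      | some _ => 0) = p
    rw [sum_eq_single i0]
    · rw [hi0]
      exact Pi.single_eq_same _ _
    · intro i _ hi
      rcases hVi : V i with _ | x
      · exact Pi.single_eq_of_ne hi _
      · rfl
    · intro h
      exact absurd (mem_univ _) h

theorem red_key (V : N → Option ((ι → K × ι) × ι)) (q : G × (N → UP φ T κ)) (x : (ι → K × ι) × ι) :
    (red φ T κ V q).1 + (red φ T κ V q).2.1.2 x = q.1 + ∑ i, (q.2 i).1.2 ((V i).getD x) := by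
  have h1 : (red φ T κ V q).2.1.2 x = ∑ i, (match V i with
      | none => (q.2 i).1.2 x
      | some _ => 0) := by
    show (∑ i, (match V i with
      | none => q.2 i
      | some _ => 0) : UP φ T κ).1.2 x = _
    rw [AddSubgroup.val_finsetSum, Prod.snd_sum, Finset.sum_apply]
    refine sum_congr rfl fun i _ => ?_
    cases V i <;> rfl
  rw [h1]
  show (q.1 + ∑ i, (match V i with
    | none => 0
    | some x => (q.2 i).1.2 x)) + _ = _
  rw [add_assoc, ← sum_add_distrib]
  congr 1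
  refine sum_congr rfl fun i _ => ?_
  cases V i with
  | none => exact zero_add _
  | some y => exact add_zero _

end step

theorem co_ix {ι : Type} [Fintype ι] [DecidableEq ι] {G : Type u} [AddCommGroup G]
    (φ : ι → G →+ G) {n : ℕ} (hn : ∀ j, Ix n (φ j).range) {l k : ι} (hlk : l ≠ k) :
    Ix n (co φ l).range := by
  refine ((hn k).comap (φ l)).mono ?_
  rintro x ⟨u, hu⟩
  have hu' : φ l x + φ k (-u) = 0 := by
    rw [map_neg, hu, add_neg_cancel]
  exact ⟨two φ hlk hu', two_i φ hlk hu'⟩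

theorem famP_succ (ι : Type) [Fintype ι] [DecidableEq ι] (hι : 2 ≤ Fintype.card ι) (T : Finset ι)
    (hTne : T.Nonempty) (n R r : ℕ) (hR : 0 < R) (ih : FamP.{u} ι T n R r) :
    FamP.{u} ι T n R (r + 1) := by
  classical
  obtain ⟨K, _, _, B, ih⟩ := ih
  let _ : Fintype K := Fintype.ofFinite K
  obtain ⟨j1, hj1⟩ := hTne
  have hιne : Nonempty ι := ⟨j1⟩
  obtain ⟨N, _, hHJ⟩ := Combinatorics.Line.exists_mono_in_high_dimension ((ι → K × ι) × ι) (Fin R)
  obtain ⟨b1, hb1⟩ : ∃ b1, b1 = n ^ Fintype.card ((K × ι) × ι) := ⟨_, rfl⟩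
  refine ⟨{V : N → Option ((ι → K × ι) × ι) // ∃ i, V i = none} × ((ι → K × ι) ⊕ (K × ι)),
    inferInstance, ?_, (b1 * (B * n)) ^ Fintype.card ι + b1 * B, ?_⟩
  · exact ⟨⟨⟨fun _ => none, by
      obtain ⟨l, -⟩ := hHJ (fun _ => ⟨0, hR⟩)
      exact ⟨l.proper.choose, rfl⟩⟩, Sum.inr (Classical.arbitrary _)⟩⟩
  · intro G _ φ hT hn
    obtain ⟨U, _, κ, hκ, hmono⟩ := ih G φ hT hn
    have hco : ∀ l, Ix n (co φ l).range := by
      intro l
      obtain ⟨k, hk⟩ : ∃ k, k ≠ l := by
        by_contra hcon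
        push Not at hcon
        have : Fintype.card ι ≤ 1 := Fintype.card_le_one_iff.2 fun a b => by rw [hcon a, hcon b]
        omega
      exact co_ix φ hn hk.symm
    have hev : ∀ e : K × ι, Ix (B * n) (ev φ κ e).range := by
      intro e
      have h1 := (hκ e.1).map (co φ e.2) (hco e.2)
      refine h1.mono ?_
      rintro _ ⟨_, ⟨u, rfl⟩, rfl⟩
      exact ⟨u, rfl⟩
    have hP1 : Ix b1 (P1 φ κ j1) := by
      rw [hb1]
      exact Ix.iInf fun q => (hn j1).comap _
    let f : {V : N → Option ((ι → K × ι) × ι) // ∃ i, V i = none} × ((ι → K × ι) ⊕ (K × ι)) →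
        G × (N → UP φ T κ) →+ S0 φ := fun a => match a.2 with
      | Sum.inl ω => (cfg φ T κ hT ω).comp (red φ T κ a.1.1)
      | Sum.inr e => (κ e.1).comp ((pr φ T κ e.2).comp
          ((AddMonoidHom.snd G (UP φ T κ)).comp (red φ T κ a.1.1)))
    refine ⟨G × (N → UP φ T κ), inferInstance, f, ?_, ?_⟩
    · rintro ⟨V, ω | e⟩
      · have h1 : Ix ((b1 * (B * n)) ^ Fintype.card ι)
            (⨅ j, ((P1 φ κ j1).map (ev φ κ (ω j))).comap (co φ j)) :=
          Ix.iInf fun j => (hP1.map _ (hev _)).comap _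
        refine (h1.mono ?_).le (Nat.le_add_right _ _)
        refine (le_cfg φ T κ hT hj1 ω).trans ?_
        rintro _ ⟨q, rfl⟩
        obtain ⟨q', rfl⟩ := red_surj φ T κ V.1 V.2 q
        exact ⟨q', rfl⟩
      · have h1 : Ix (b1 * B) ((P1 φ κ j1).map (κ e.1)) := hP1.map _ (hκ _)
        refine (h1.mono ?_).le (Nat.le_add_left _ _)
        rintro _ ⟨u, hu, rfl⟩
        obtain ⟨p, rfl⟩ := P1_le_pr φ T κ hj1 e.2 hu
        obtain ⟨q', hq'⟩ := red_surj φ T κ V.1 V.2 ((0, p) : G × UP φ T κ)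
        refine ⟨q', ?_⟩
        show κ e.1 (pr φ T κ e.2 (red φ T κ V.1 q').2) = _
        rw [hq']
    · intro χ D hD q hq
      obtain ⟨l, c, hlc⟩ := hHJ (fun w => χ (q.1 + ∑ i, (q.2 i).1.2 (w i)))
      let V : {V : N → Option ((ι → K × ι) × ι) // ∃ i, V i = none} := ⟨l.idxFun, l.proper⟩
      have hkey : ∀ x, χ ((red φ T κ V.1 q).1 + (red φ T κ V.1 q).2.1.2 x) = c := by
        intro x
        rw [red_key]
        exact hlc x
      set p := (red φ T κ V.1 q).2 with hp
      have hinl : ∀ ω l, (f (V, Sum.inl ω) q).1 l =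
          if l ∈ T then (red φ T κ V.1 q).1 + p.1.2 (ω, l) else ev φ κ (ω l) (p.1.1 l) :=
        fun ω l => cfg_apply φ T κ hT ω _ l
      have hinr : ∀ e l, (f (V, Sum.inr e) q).1 l = (κ e.1 (p.1.1 e.2)).1 l := fun e l => rfl
      have hcD : c ∈ D := by
        have h1 := hq (V, Sum.inl (Classical.arbitrary _)) j1
        rw [hinl, if_pos hj1, hkey] at h1
        exact h1
      by_cases hA : ∀ j, j ∉ T → ∃ e : K × ι, χ (ev φ κ e (p.1.1 j)) = c
      · have hA' : ∀ j, ∃ e : K × ι, j ∉ T → χ (ev φ κ e (p.1.1 j)) = c := by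
          intro j
          by_cases hj : j ∈ T
          · exact ⟨Classical.arbitrary _, fun h => absurd hj h⟩
          · obtain ⟨e, he⟩ := hA j hj
            exact ⟨e, fun _ => he⟩
        choose ω hω using hA'
        refine ⟨(V, Sum.inl ω), c, fun l => ?_⟩
        rw [hinl]
        by_cases hl : l ∈ T
        · rw [if_pos hl, hkey]
        · rw [if_neg hl, hω l hl]
      · push Not at hA
        obtain ⟨j, hj, hjc⟩ := hA
        obtain ⟨a, c', hac⟩ := hmono χ (D.erase c) (by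
          rw [card_erase_of_mem hcD]
          omega) (p.1.1 j) (by
          intro a l
          rw [mem_erase]
          refine ⟨hjc (a, l), ?_⟩
          have := hq (V, Sum.inr (a, j)) l
          rw [hinr] at this
          exact this)
        exact ⟨(V, Sum.inr (a, j)), c', fun l => by rw [hinr]; exact hac l⟩

theorem famP (ι : Type) [Fintype ι] [DecidableEq ι] (hι : 2 ≤ Fintype.card ι) (T : Finset ι)
    (hTne : T.Nonempty) (n R : ℕ) (hR : 0 < R) (r : ℕ) : FamP.{u} ι T n R r := by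
  have : Nonempty ι := ⟨hTne.choose⟩
  induction r with
  | zero => exact famP_zero ι T n R
  | succ r ih => exact famP_succ ι hι T hTne n R r hR ih

/-- a colour class with a positive mean of solutions -/
theorem part_pos (ι : Type) [Fintype ι] [DecidableEq ι] (hι : 2 ≤ Fintype.card ι) (T : Finset ι)
    (hTne : T.Nonempty) (n R : ℕ) (hR : 0 < R) : ∃ c : ℝ, 0 < c ∧
    ∀ (G : Type u) [AddCommGroup G] (φ : ι → G →+ G), ∑ j ∈ T, φ j = 0 → (∀ j, Ix n (φ j).range) →
      ∀ χ : G → Fin R, ∃ (i : Fin R) (m : BR (S0 φ) →ₗ[ℝ] ℝ), IsInvMean m ∧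
        c ≤ m (solF φ {x | χ x = i}) := by
  classical
  obtain ⟨K, _, _, B, hK⟩ := famP.{u} ι hι T hTne n R hR R
  let _ : Fintype K := Fintype.ofFinite K
  have hKpos : 0 < Fintype.card K := Fintype.card_pos
  refine ⟨1 / (Fintype.card K * R) / (B + 1), by positivity, ?_⟩
  intro G _ φ hT hn χ
  obtain ⟨U, _, κ, hκ, hmono⟩ := hK G φ hT hn
  obtain ⟨μ, hμ, hμI⟩ := exists_inv U
  have hs01 : ∀ (i : Fin R) (s : S0 φ), 0 ≤ (solF φ {x | χ x = i}).1 s ∧
      (solF φ {x | χ x = i}).1 s ≤ 1 := by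
    intro i s
    have h : ∀ x : G, 0 ≤ ({x | χ x = i} : Set G).indicator (fun _ => (1 : ℝ)) x ∧
        ({x | χ x = i} : Set G).indicator (fun _ => (1 : ℝ)) x ≤ 1 := by
      intro x
      by_cases hx : x ∈ ({x | χ x = i} : Set G)
      · rw [Set.indicator_of_mem hx]; norm_num
      · rw [Set.indicator_of_notMem hx]; norm_num
    exact ⟨prod_nonneg fun l _ => (h _).1, prod_le_one (fun l _ => (h _).1) fun l _ => (h _).2⟩
  have hsb : ∀ (i : Fin R) (s : S0 φ), |(solF φ {x | χ x = i}).1 s| ≤ 1 := fun i s => by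
    rw [abs_of_nonneg (hs01 i s).1]; exact (hs01 i s).2
  -- some configuration and colour
  have hex : ∃ (a : K) (i : Fin R), 1 / ((Fintype.card K : ℝ) * R) ≤
      (μ (fun u => ((solF φ {x | χ x = i}).1 (κ a u) : ℂ))).re := by
    by_contra hcon
    push Not at hcon
    have h1 : ∀ u : U, 1 ≤ ∑ a : K, ∑ i : Fin R, (solF φ {x | χ x = i}).1 (κ a u) := by
      intro u
      obtain ⟨a, c, hac⟩ := hmono χ univ (by rw [card_univ, Fintype.card_fin]) u fun a l => mem_univ _
      have h2 : (solF φ {x | χ x = c}).1 (κ a u) = 1 := by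
        show ∏ l, ({x | χ x = c} : Set G).indicator (fun _ => (1 : ℝ)) ((κ a u).1 l) = 1
        refine prod_eq_one fun l _ => ?_
        rw [Set.indicator_of_mem (show (κ a u).1 l ∈ {x | χ x = c} from hac l)]
      rw [← h2]
      refine le_trans ?_ (single_le_sum (f := fun a : K => ∑ i : Fin R, (solF φ {x | χ x = i}).1 (κ a u))
        (fun a _ => sum_nonneg fun i _ => (hs01 i _).1) (mem_univ a))
      exact single_le_sum (f := fun i : Fin R => (solF φ {x | χ x = i}).1 (κ a u))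
        (fun i _ => (hs01 i _).1) (mem_univ c)
    have h2 := hμ.ge_const (f := fun u => ∑ a : K, ∑ i : Fin R, (solF φ {x | χ x = i}).1 (κ a u))
      (Fintype.card K * R) 1 (fun u => by
        rw [abs_of_nonneg (zero_le_one.trans (h1 u))]
        refine (sum_le_sum fun a _ => sum_le_sum fun i _ => (hs01 i _).2).trans ?_
        simp) h1
    have h3 : (μ (fun u => ((∑ a : K, ∑ i : Fin R, (solF φ {x | χ x = i}).1 (κ a u) : ℝ) : ℂ))).re =
        ∑ a : K, ∑ i : Fin R, (μ (fun u => ((solF φ {x | χ x = i}).1 (κ a u) : ℂ))).re := by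
      have e1 : ∀ u, ((∑ a : K, ∑ i : Fin R, (solF φ {x | χ x = i}).1 (κ a u) : ℝ) : ℂ) =
          ∑ a : K, ∑ i : Fin R, ((solF φ {x | χ x = i}).1 (κ a u) : ℂ) := fun u => by
        push_cast
        rfl
      rw [M_congr μ e1, M_sum, Complex.re_sum]
      refine sum_congr rfl fun a _ => ?_
      rw [M_sum, Complex.re_sum]
    rw [h3] at h2
    have hRne : Nonempty (Fin R) := ⟨⟨0, hR⟩⟩
    have h4 : ∑ a : K, ∑ i : Fin R, (μ (fun u => ((solF φ {x | χ x = i}).1 (κ a u) : ℂ))).re <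
        ∑ a : K, ∑ i : Fin R, 1 / ((Fintype.card K : ℝ) * R) :=
      sum_lt_sum_of_nonempty univ_nonempty fun a _ =>
        sum_lt_sum_of_nonempty univ_nonempty fun i _ => hcon a i
    have h5 : ∑ a : K, ∑ i : Fin R, 1 / ((Fintype.card K : ℝ) * R) = 1 := by
      simp only [sum_const, card_univ, nsmul_eq_mul, Fintype.card_fin]
      have : (Fintype.card K : ℝ) ≠ 0 := by exact_mod_cast hKpos.ne'
      have h6 : (R : ℝ) ≠ 0 := by exact_mod_cast hR.ne'
      field_simp
    linarith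
  obtain ⟨a, i, hai⟩ := hex
  let fin : Fintype (S0 φ ⧸ (κ a).range) := AddSubgroup.fintypeOfIndexNeZero (hκ a).1
  have hHI := HI_push hμ hμI (κ a)
  obtain ⟨m, hm, hmF⟩ := toReal (avg_mn hHI) (avg_inv hHI)
  refine ⟨i, m, hm, ?_⟩
  rw [hmF]
  have h1 := le_avg hHI (f := fun s => (solF φ {x | χ x = i}).1 s) 1 (hsb i) (fun s => (hs01 i s).1)
  have h2 : (Fintype.card (S0 φ ⧸ (κ a).range) : ℝ) ≤ B := by
    have := (hκ a).2
    rw [AddSubgroup.index_eq_card, Nat.card_eq_fintype_card] at this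
    exact_mod_cast this
  have h3 : 0 ≤ (avg (κ a).range (push μ (κ a)) (fun s => ((solF φ {x | χ x = i}).1 s : ℂ))).re :=
    (avg_mn hHI).ge_const 1 0 (hsb i) fun s => (hs01 i s).1
  rw [push_apply] at h1
  have h4 := hai.trans h1
  rw [div_le_iff₀ (by positivity)]
  nlinarith

end Pool.Agent.V11180.BG
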